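import Pool.Agent.H525R4.Mono.Core

/-!
# Monotone data structures: an abstract bound for decision problems

As in `Core`, but the labellings form an arbitrary finite type `Om`, the good pairs are given by
`al q q' e' ω`, and the cells outside of `G` are free: for every query there is another query for
which they are at least as large on all true inputs.
-/

open Finset

namespace Pool.Agent.H525R4.Mono

section Abs

variable {X C Q E Om : Type} [Preorder X] [Fintype C] [Fintype Q] [Fintype E] [DecidableEq E]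
  [Fintype Om]

omit [Fintype C] [Fintype Q] [DecidableEq E] in
/-- If the rank-`L` value of `q'` is at least that of `q`, then few labellings let the cell serve
`L` elements for `q`. -/
lemma abs_served_large (one : Q → E → X) (zero : Q → Om → X) (al : Q → Q → E → Om → Prop)
    (g : X → ℝ) (hg : Monotone g)
    (hle : ∀ q ω q' e', al q q' e' ω → one q' e' ≤ zero q ω)
    {q q' : Q} {θ θ' : ℝ} {L : ℕ} (hθ : (univ.filter fun e => θ < g (one q e)).card < L)
    (hθ' : L ≤ (univ.filter fun e => θ' ≤ g (one q' e)).card) (hθθ : θ ≤ θ')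
    {ε : ℝ} (hhit : ∀ D : Finset E, L ≤ D.card → ∀ B : Finset Om,
      (∀ ω ∈ B, ∀ e ∈ D, ¬ al q q' e ω) → (B.card : ℝ) ≤ ε * Fintype.card Om) :
    ((univ.filter fun ω : Om => L ≤ (served g one q (zero q ω)).card).card : ℝ)
      ≤ ε * Fintype.card Om := by
  classical
  refine hhit (univ.filter fun e => θ' ≤ g (one q' e)) hθ' _ ?_
  intro ω hω e he hal
  simp only [mem_filter, mem_univ, true_and] at hω he
  have h1 : g (one q' e) ≤ g (zero q ω) := hg (hle q ω q' e hal)
  have h2 : (served g one q (zero q ω)) ⊆ univ.filter fun e => θ < g (one q e) := by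
    intro e2 he2
    rw [mem_served] at he2
    simp only [mem_filter, mem_univ, true_and]
    linarith
  have h3 := card_le_card h2
  omega

omit [Fintype C] [DecidableEq E] in
/-- The owner of a cell. -/
lemma abs_owner [Nonempty Q] (one : Q → E → X) (zero : Q → Om → X) (al : Q → Q → E → Om → Prop)
    (g : X → ℝ) (hg : Monotone g)
    (hle : ∀ q ω q' e', al q q' e' ω → one q' e' ≤ zero q ω)
    {L : ℕ} (hL : 1 ≤ L) {ε : ℝ} (hε : 0 ≤ ε)
    (hhit : ∀ q q', q ≠ q' → ∀ D : Finset E, L ≤ D.card → ∀ B : Finset Om,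
      (∀ ω ∈ B, ∀ e ∈ D, ¬ al q q' e ω) → (B.card : ℝ) ≤ ε * Fintype.card Om) :
    ∃ q0 : Q, ∀ q, q ≠ q0 →
      ((univ.filter fun ω : Om => L ≤ (served g one q (zero q ω)).card).card : ℝ)
        ≤ ε * Fintype.card Om := by
  classical
  by_cases hLE : L ≤ Fintype.card E
  · choose θ h1 h2 using fun q : Q => exists_rank (fun e => g (one q e)) hL hLE
    obtain ⟨q0, hq0⟩ := Finite.exists_max θ
    refine ⟨q0, fun q hq => ?_⟩
    exact abs_served_large one zero al g hg hle (h1 q) (h2 q0) (hq0 q) (hhit q q0 hq)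
  · refine ⟨Classical.arbitrary Q, fun q _ => ?_⟩
    have : (univ.filter fun ω : Om => L ≤ (served g one q (zero q ω)).card) = ∅ := by
      apply filter_eq_empty_iff.mpr
      intro ω _ h
      have := card_le_univ (served g one q (zero q ω))
      omega
    rw [this]
    simp only [card_empty, Nat.cast_zero]
    positivity

omit [Fintype C] [Fintype Q] [DecidableEq E] in
/-- A free cell serves few elements. -/
lemma abs_free (one : Q → E → X) (zero : Q → Om → X) (al : Q → Q → E → Om → Prop)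
    (g : X → ℝ) (hg : Monotone g)
    (hle : ∀ q ω q' e', al q q' e' ω → one q' e' ≤ zero q ω)
    {L : ℕ} (hL : 1 ≤ L) {ε : ℝ} (hε : 0 ≤ ε)
    (hhit : ∀ q q', q ≠ q' → ∀ D : Finset E, L ≤ D.card → ∀ B : Finset Om,
      (∀ ω ∈ B, ∀ e ∈ D, ¬ al q q' e ω) → (B.card : ℝ) ≤ ε * Fintype.card Om)
    (q : Q) (hfree : ∃ q', q ≠ q' ∧ ∀ e, g (one q e) ≤ g (one q' e)) :
    ((univ.filter fun ω : Om => L ≤ (served g one q (zero q ω)).card).card : ℝ)
      ≤ ε * Fintype.card Om := by
  classical
  by_cases hLE : L ≤ Fintype.card E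
  · obtain ⟨q', hqq, hge⟩ := hfree
    obtain ⟨θ, h1, h2⟩ := exists_rank (fun e => g (one q e)) hL hLE
    refine abs_served_large one zero al g hg hle h1 (le_trans h2 (card_le_card ?_)) le_rfl
      (hhit q q' hqq)
    intro e he
    simp only [mem_filter, mem_univ, true_and] at he ⊢
    exact le_trans he (hge e)
  · have : (univ.filter fun ω : Om => L ≤ (served g one q (zero q ω)).card) = ∅ := by
      apply filter_eq_empty_iff.mpr
      intro ω _ h
      have := card_le_univ (served g one q (zero q ω))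
      omega
    rw [this]
    simp only [card_empty, Nat.cast_zero]
    positivity

/-- **The counting argument**, for one structure. -/
theorem abs_sum_served_le [Nonempty Q] [DecidableEq Q] [DecidableEq C]
    (one : Q → E → X) (zero : Q → Om → X) (al : Q → Q → E → Om → Prop)
    (g : C → X → ℝ) (hg : ∀ c, Monotone (g c))
    (hle : ∀ q ω q' e', al q q' e' ω → one q' e' ≤ zero q ω)
    {L : ℕ} (hL : 1 ≤ L) {ε : ℝ} (hε0 : 0 ≤ ε)
    (hhit : ∀ q q', q ≠ q' → ∀ D : Finset E, L ≤ D.card → ∀ B : Finset Om,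
      (∀ ω ∈ B, ∀ e ∈ D, ¬ al q q' e ω) → (B.card : ℝ) ≤ ε * Fintype.card Om)
    (G : Finset C) (hfree : ∀ c ∉ G, ∀ q, ∃ q', q ≠ q' ∧ ∀ e, g c (one q e) ≤ g c (one q' e))
    (reads : Q → Om → Finset C) :
    ∑ q, ∑ ω, (((univ.filter fun e => ∃ c ∈ reads q ω,
        g c (zero q ω) < g c (one q e)).card : ℝ))
      ≤ L * ∑ q, ∑ ω, ((reads q ω).card : ℝ)
        + (Fintype.card E * G.card + Fintype.card Q * Fintype.card E * Fintype.card C * ε)
            * Fintype.card Om := by
  classical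
  choose own hown using fun c : C => abs_owner one zero al (g c) (hg c) hle hL hε0 hhit
  -- the bad labellings of a cell and a query
  let bad : C → Q → Finset Om := fun c q =>
    if c ∈ G ∧ q = own c then ∅ else univ.filter fun ω =>
      L ≤ (served (g c) one q (zero q ω)).card
  have hbad : ∀ c q, ((bad c q).card : ℝ) ≤ ε * Fintype.card Om := by
    intro c q
    by_cases h : c ∈ G ∧ q = own c
    · simp only [bad, h, and_self, if_true, card_empty, Nat.cast_zero]
      positivity
    · simp only [bad, h, if_false]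
      by_cases hc : c ∈ G
      · have hq : q ≠ own c := fun hq => h ⟨hc, hq⟩
        exact hown c q hq
      · exact abs_free one zero al (g c) (hg c) hle hL hε0 hhit q (hfree c hc q)
  have hserved : ∀ c q ω, ((served (g c) one q (zero q ω)).card : ℝ)
      ≤ L + (if c ∈ G ∧ q = own c then (Fintype.card E : ℝ) else 0)
        + Fintype.card E * (if ω ∈ bad c q then (1 : ℝ) else 0) := by
    intro c q ω
    have h1 : ((served (g c) one q (zero q ω)).card : ℝ) ≤ Fintype.card E := by
      exact_mod_cast card_le_univ _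
    have h3 : (0 : ℝ) ≤ L := by positivity
    have h4 : (0 : ℝ) ≤ if c ∈ G ∧ q = own c then (Fintype.card E : ℝ) else 0 := by
      split_ifs <;> positivity
    by_cases hb : ω ∈ bad c q
    · simp only [hb, if_true, mul_one]
      linarith
    · simp only [hb, if_false, mul_zero, add_zero]
      by_cases h : c ∈ G ∧ q = own c
      · simp only [h, and_self, if_true] at h4 ⊢
        rw [h.2] at h1
        linarith
      · simp only [h, if_false, add_zero]
        have hb' : ¬ (L ≤ (served (g c) one q (zero q ω)).card) := by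
          intro h'
          apply hb
          simp only [bad, h, if_false, mem_filter, mem_univ, true_and]
          exact h'
        push Not at hb'
        exact_mod_cast hb'.le
  have hpoint : ∀ q ω, ((univ.filter fun e => ∃ c ∈ reads q ω,
        g c (zero q ω) < g c (one q e)).card : ℝ)
      ≤ L * ((reads q ω).card : ℝ)
        + (∑ c, if c ∈ G ∧ q = own c then (Fintype.card E : ℝ) else 0)
        + Fintype.card E * ∑ c, (if ω ∈ bad c q then (1 : ℝ) else 0) := by
    intro q ω
    have h1 : (univ.filter fun e => ∃ c ∈ reads q ω, g c (zero q ω) < g c (one q e))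
        ⊆ (reads q ω).biUnion fun c => served (g c) one q (zero q ω) := by
      intro e he
      simp only [mem_filter, mem_univ, true_and] at he
      obtain ⟨c, hc, hlt⟩ := he
      rw [mem_biUnion]
      exact ⟨c, hc, mem_served.mpr hlt⟩
    have h2 : ((univ.filter fun e => ∃ c ∈ reads q ω,
        g c (zero q ω) < g c (one q e)).card : ℝ)
        ≤ ∑ c ∈ reads q ω, ((served (g c) one q (zero q ω)).card : ℝ) := by
      have := le_trans (card_le_card h1) card_biUnion_le
      exact_mod_cast this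
    refine le_trans h2 (le_trans (sum_le_sum fun c _ => hserved c q ω) ?_)
    rw [sum_add_distrib, sum_add_distrib, sum_const, nsmul_eq_mul, ← mul_sum]
    have h3 : ∑ c ∈ reads q ω, (if c ∈ G ∧ q = own c then (Fintype.card E : ℝ) else 0)
        ≤ ∑ c, (if c ∈ G ∧ q = own c then (Fintype.card E : ℝ) else 0) :=
      sum_le_sum_of_subset_of_nonneg (subset_univ _) (fun c _ _ => by split_ifs <;> positivity)
    have h4 : ∑ c ∈ reads q ω, (if ω ∈ bad c q then (1 : ℝ) else 0)
        ≤ ∑ c, (if ω ∈ bad c q then (1 : ℝ) else 0) :=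
      sum_le_sum_of_subset_of_nonneg (subset_univ _) (fun c _ _ => by split_ifs <;> positivity)
    have h5 := mul_le_mul_of_nonneg_left h4 (by positivity : (0 : ℝ) ≤ Fintype.card E)
    linarith [mul_comm ((reads q ω).card : ℝ) (L : ℝ)]
  refine le_trans (sum_le_sum fun q _ => sum_le_sum fun ω _ => hpoint q ω) ?_
  simp only [sum_add_distrib]
  have hA : ∑ q : Q, ∑ ω : Om, (L : ℝ) * ((reads q ω).card : ℝ)
      = L * ∑ q, ∑ ω, ((reads q ω).card : ℝ) := by
    rw [mul_sum]; exact sum_congr rfl fun q _ => by rw [mul_sum]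
  have hB : ∑ q : Q, ∑ _ω : Om, ∑ c : C, (if c ∈ G ∧ q = own c then (Fintype.card E : ℝ) else 0)
      = Fintype.card E * G.card * Fintype.card Om := by
    have : ∀ q : Q, ∑ _ω : Om, ∑ c : C, (if c ∈ G ∧ q = own c then (Fintype.card E : ℝ) else 0)
        = (∑ c : C, (if c ∈ G ∧ q = own c then (Fintype.card E : ℝ) else 0))
          * Fintype.card Om := by
      intro q
      rw [sum_const, card_univ, nsmul_eq_mul, mul_comm]
    rw [sum_congr rfl fun q _ => this q, ← sum_mul, sum_comm]
    congr 1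
    have h2 : ∀ c : C, ∑ q : Q, (if c ∈ G ∧ q = own c then (Fintype.card E : ℝ) else 0)
        = if c ∈ G then (Fintype.card E : ℝ) else 0 := by
      intro c
      by_cases hc : c ∈ G
      · simp [hc]
      · simp [hc]
    rw [sum_congr rfl fun c _ => h2 c, sum_ite_mem, univ_inter, sum_const, nsmul_eq_mul, mul_comm]
  have hC : ∑ q : Q, ∑ ω : Om, (Fintype.card E : ℝ) * ∑ c : C, (if ω ∈ bad c q then (1 : ℝ) else 0)
      ≤ (Fintype.card Q * Fintype.card E * Fintype.card C * ε) * Fintype.card Om := by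
    have h1 : ∀ q : Q, ∑ ω : Om, (Fintype.card E : ℝ) * ∑ c : C, (if ω ∈ bad c q then (1 : ℝ) else 0)
        ≤ Fintype.card E * (Fintype.card C * (ε * Fintype.card Om)) := by
      intro q
      rw [← mul_sum, sum_comm]
      apply mul_le_mul_of_nonneg_left _ (by positivity)
      calc ∑ c : C, ∑ ω : Om, (if ω ∈ bad c q then (1 : ℝ) else 0)
          = ∑ c : C, ((bad c q).card : ℝ) := by
            apply sum_congr rfl
            intro c _
            rw [sum_ite_mem, univ_inter, sum_const, nsmul_eq_mul, mul_one]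
        _ ≤ ∑ _c : C, (ε * Fintype.card Om) := sum_le_sum fun c _ => hbad c q
        _ = Fintype.card C * (ε * Fintype.card Om) := by
            rw [sum_const, card_univ, nsmul_eq_mul]
    refine le_trans (sum_le_sum fun q _ => h1 q) ?_
    rw [sum_const, card_univ, nsmul_eq_mul]
    apply le_of_eq; ring
  rw [hA, hB]
  linarith [hC]

/-- **The main inequality for decision problems**, for randomised structures with adaptive queries.
`acc ϖ q M` says that the structure `ϖ` answers yes to the query `q` when the contents of the cells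
are `M`; `reads ϖ q M` are the cells read.  The cells outside of `G` are free. -/
theorem abs_decide {Ω : Type} [Fintype Ω] [Nonempty Q] [Nonempty Om]
    (one : Q → E → X) (zero : Q → Om → X) (al : Q → Q → E → Om → Prop)
    (p : Ω → ℝ) (hp : ∀ ϖ, 0 ≤ p ϖ) (hp1 : ∑ ϖ, p ϖ = 1)
    (cell : Ω → C → X → ℝ) (hcell : ∀ ϖ c, Monotone (cell ϖ c))
    (reads : Ω → Q → (C → ℝ) → Finset C)
    (acc : Ω → Q → (C → ℝ) → Prop)
    (hacc : ∀ ϖ q M M', M ≤ M' → acc ϖ q M → acc ϖ q M')
    (hdet : ∀ ϖ q M M', (∀ c ∈ reads ϖ q M, M' c = M c) → acc ϖ q M' → acc ϖ q M)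
    (hle : ∀ q ω q' e', al q q' e' ω → one q' e' ≤ zero q ω)
    {δ : ℝ} (hone : ∀ q e, ∃ A : Finset Ω, (∀ ϖ ∈ A, acc ϖ q (fun c => cell ϖ c (one q e))) ∧
      1 / 2 + δ ≤ ∑ ϖ ∈ A, p ϖ)
    (hzero : ∀ q ω, ∃ A : Finset Ω, (∀ ϖ ∈ A, ¬ acc ϖ q (fun c => cell ϖ c (zero q ω))) ∧
        1 / 2 + δ ≤ ∑ ϖ ∈ A, p ϖ)
    {t : ℝ}
    (hcost : ∀ q ω, ∑ ϖ, p ϖ * ((reads ϖ q (fun c => cell ϖ c (zero q ω))).card : ℝ) ≤ t)
    {L : ℕ} (hL : 1 ≤ L) {ε : ℝ} (hε0 : 0 ≤ ε)
    (hhit : ∀ q q', q ≠ q' → ∀ D : Finset E, L ≤ D.card → ∀ B : Finset Om,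
      (∀ ω ∈ B, ∀ e ∈ D, ¬ al q q' e ω) → (B.card : ℝ) ≤ ε * Fintype.card Om)
    (G : Finset C)
    (hfree : ∀ ϖ, ∀ c ∉ G, ∀ q, ∃ q', q ≠ q' ∧ ∀ e, cell ϖ c (one q e) ≤ cell ϖ c (one q' e)) :
    Fintype.card Q * (2 * δ * Fintype.card E - L * t - Fintype.card E * Fintype.card C * ε)
      ≤ Fintype.card E * G.card := by
  classical
  set cB : ℝ := (Fintype.card Om : ℝ) with hcB
  have hcBpos : 0 < cB := by
    rw [hcB]; exact_mod_cast Fintype.card_pos
  let sv : Ω → Q → Om → Finset E := fun ϖ q ω => univ.filter fun e =>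
    ∃ c ∈ reads ϖ q (fun c => cell ϖ c (zero q ω)), cell ϖ c (zero q ω) < cell ϖ c (one q e)
  have hsv : ∀ ϖ q ω e, acc ϖ q (fun c => cell ϖ c (one q e)) →
      ¬ acc ϖ q (fun c => cell ϖ c (zero q ω)) → e ∈ sv ϖ q ω := by
    intro ϖ q ω e h1 h0
    simp only [sv, mem_filter, mem_univ, true_and]
    by_contra hcon
    push Not at hcon
    apply h0
    let M' : C → ℝ := fun c => max (cell ϖ c (one q e)) (cell ϖ c (zero q ω))
    have hM' : acc ϖ q M' := hacc ϖ q _ M' (fun c => le_max_left _ _) h1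
    refine hdet ϖ q _ M' (fun c hc => ?_) hM'
    exact max_eq_right (hcon c hc)
  have hup2 : ∑ ϖ : Ω, p ϖ * ∑ q : Q, ∑ ω : Om, ((sv ϖ q ω).card : ℝ)
      ≤ L * ∑ _q : Q, ∑ _ω : Om, t
        + (Fintype.card E * G.card + Fintype.card Q * Fintype.card E * Fintype.card C * ε)
          * cB := by
    calc ∑ ϖ : Ω, p ϖ * ∑ q : Q, ∑ ω : Om, ((sv ϖ q ω).card : ℝ)
        ≤ ∑ ϖ : Ω, p ϖ * (L * ∑ q : Q, ∑ ω : Om,
            ((reads ϖ q (fun c => cell ϖ c (zero q ω))).card : ℝ)
        + (Fintype.card E * G.card + Fintype.card Q * Fintype.card E * Fintype.card C * ε)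
          * cB) :=
          sum_le_sum fun ϖ _ => mul_le_mul_of_nonneg_left
            (abs_sum_served_le one zero al (cell ϖ) (hcell ϖ) hle hL hε0 hhit G (hfree ϖ)
              (fun q ω => reads ϖ q (fun c => cell ϖ c (zero q ω)))) (hp ϖ)
      _ = L * ∑ q : Q, ∑ ω : Om, ∑ ϖ : Ω,
            p ϖ * ((reads ϖ q (fun c => cell ϖ c (zero q ω))).card : ℝ)
        + (Fintype.card E * G.card + Fintype.card Q * Fintype.card E * Fintype.card C * ε)
          * cB := by
          simp only [mul_add, sum_add_distrib]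
          rw [← sum_mul, hp1, one_mul]
          congr 1
          simp only [mul_sum]
          rw [sum_comm]
          apply sum_congr rfl; intro q _
          rw [sum_comm]
          apply sum_congr rfl; intro ω _
          apply sum_congr rfl; intro ϖ _
          ring
      _ ≤ _ := by
          have h3 : (0 : ℝ) ≤ L := by positivity
          have := mul_le_mul_of_nonneg_left
            (sum_le_sum fun q (_ : q ∈ (univ : Finset Q)) =>
              sum_le_sum fun ω (_ : ω ∈ (univ : Finset Om)) => hcost q ω) h3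
          linarith
  have hlow : ∀ q (ω : Om), 2 * δ * (Fintype.card E : ℝ)
      ≤ ∑ ϖ : Ω, p ϖ * ((sv ϖ q ω).card : ℝ) := by
    intro q ω
    have h1 : ∀ ϖ, p ϖ * ((sv ϖ q ω).card : ℝ)
        = ∑ e : E, if e ∈ sv ϖ q ω then p ϖ else 0 := by
      intro ϖ
      rw [sum_ite_mem, univ_inter, sum_const, nsmul_eq_mul, mul_comm]
    rw [sum_congr rfl fun ϖ _ => h1 ϖ, sum_comm]
    have h2 : ∀ e : E, 2 * δ ≤ ∑ ϖ : Ω, if e ∈ sv ϖ q ω then p ϖ else 0 := by
      intro e
      obtain ⟨A, hA1, hA2⟩ := hone q e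
      obtain ⟨A', hA'1, hA'2⟩ := hzero q ω
      have h3 : ∑ ϖ ∈ A ∩ A', p ϖ ≤ ∑ ϖ : Ω, if e ∈ sv ϖ q ω then p ϖ else 0 := by
        calc ∑ ϖ ∈ A ∩ A', p ϖ = ∑ ϖ ∈ A ∩ A', (if e ∈ sv ϖ q ω then p ϖ else 0) := by
              apply sum_congr rfl
              intro ϖ hϖ
              rw [mem_inter] at hϖ
              rw [if_pos (hsv ϖ q ω e (hA1 ϖ hϖ.1) (hA'1 ϖ hϖ.2))]
          _ ≤ _ := sum_le_sum_of_subset_of_nonneg (subset_univ _)
              (fun ϖ _ _ => by split_ifs; exacts [hp ϖ, le_rfl])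
      have h4 : ∑ ϖ ∈ A ∪ A', p ϖ ≤ 1 := by
        rw [← hp1]
        exact sum_le_sum_of_subset_of_nonneg (subset_univ _) (fun ϖ _ _ => hp ϖ)
      have h5 := sum_union_inter (s₁ := A) (s₂ := A') (f := p)
      linarith
    refine le_trans (le_of_eq ?_) (sum_le_sum fun e _ => h2 e)
    rw [sum_const, card_univ, nsmul_eq_mul]; ring
  have hlow2 : Fintype.card Q * (2 * δ * Fintype.card E) * cB
      ≤ ∑ ϖ : Ω, p ϖ * ∑ q : Q, ∑ ω : Om, ((sv ϖ q ω).card : ℝ) := by
    have h1 : ∑ ϖ : Ω, p ϖ * ∑ q : Q, ∑ ω : Om, ((sv ϖ q ω).card : ℝ)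
        = ∑ q : Q, ∑ ω : Om, ∑ ϖ : Ω, p ϖ * ((sv ϖ q ω).card : ℝ) := by
      simp only [mul_sum]
      rw [sum_comm]
      apply sum_congr rfl; intro q _
      rw [sum_comm]
    rw [h1]
    refine le_trans (le_of_eq ?_) (sum_le_sum fun q _ => sum_le_sum fun ω _ => hlow q ω)
    rw [sum_const, sum_const, card_univ, card_univ, nsmul_eq_mul, nsmul_eq_mul, ← hcB]
    ring
  have hup3 : ∑ _q : Q, ∑ _ω : Om, t = Fintype.card Q * t * cB := by
    rw [sum_const, sum_const, card_univ, card_univ, nsmul_eq_mul, nsmul_eq_mul, ← hcB]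
    ring
  rw [hup3] at hup2
  have hfin := le_trans hlow2 hup2
  have hdiv : (Fintype.card Q * (2 * δ * Fintype.card E - L * t
      - Fintype.card E * Fintype.card C * ε)) * cB ≤ (Fintype.card E * G.card) * cB := by
    nlinarith [hfin]
  exact le_of_mul_le_mul_right hdiv hcBpos

end Abs

end Pool.Agent.H525R4.Mono
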