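import Pool.Agent.H525R4.Mono.Families

/-!
# Monotone data structures: the inequalities for reporting and for deciding
-/

open Finset

namespace Pool.Agent.H525R4.Mono

/-- Reporting the intersection of `k` sets. -/
theorem report_core {k h n : ℕ} {C Ω : Type} [Fintype C] [Fintype Ω] (hk : 0 < k) (hh : 0 < h)
    (p : Ω → ℝ) (hp : ∀ ϖ, 0 ≤ p ϖ) (hp1 : ∑ ϖ, p ϖ = 1)
    (cell : Ω → C → (Fin (k * h) → Finset (Fin n)) → ℝ) (hcell : ∀ ϖ c, Monotone (cell ϖ c))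
    (reads : Ω → (Fin k → Fin h) → (C → ℝ) → Finset C)
    (acc : Ω → (Fin k → Fin h) → Fin n → (C → ℝ) → Prop)
    (hacc : ∀ ϖ q e M M', M ≤ M' → acc ϖ q e M → acc ϖ q e M')
    (hdet : ∀ ϖ q e M M', (∀ c ∈ reads ϖ q M, M' c = M c) → acc ϖ q e M' → acc ϖ q e M)
    {δ : ℝ} (hδ : 0 ≤ δ)
    (hcor : ∀ F q e, ∃ A : Finset Ω,
      (∀ ϖ ∈ A, (acc ϖ q e (fun c => cell ϖ c F) ↔ ∀ a, e ∈ F (idx a (q a)))) ∧
        1 / 2 + δ ≤ ∑ ϖ ∈ A, p ϖ)
    {t b : ℝ} (hb : 0 ≤ b)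
    (hcost : ∀ F q, ∑ ϖ, p ϖ * ((reads ϖ q (fun c => cell ϖ c F)).card : ℝ)
      ≤ t + b * ((univ.filter fun e => ∀ a, e ∈ F (idx a (q a))).card : ℝ))
    {L R : ℕ} (hL : 1 ≤ L) (hR : 1 ≤ R) :
    (h : ℝ) ^ k * (2 * δ * ((1 - 1 / (R : ℝ)) * n) - (k * L : ℕ) * (t + b * (1 / (R : ℝ) * n))
      - n * Fintype.card C * (1 / 2 : ℝ) ^ L) ≤ (R * L : ℕ) * Fintype.card C := by
  classical
  haveI : Nonempty (Fin h) := ⟨⟨0, hh⟩⟩
  haveI : Nonempty (Fin k) := ⟨⟨0, hk⟩⟩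
  haveI : Nonempty (Fin R) := ⟨⟨0, hR⟩⟩
  have hk' : (1 : ℝ) ≤ k := by exact_mod_cast hk
  have hR' : (1 : ℝ) ≤ R := by exact_mod_cast hR
  have hk1 : (0 : ℝ) ≤ 1 - 1 / (k : ℝ) := by
    rw [sub_nonneg, div_le_one (by linarith)]; exact hk'
  have hR1 : (0 : ℝ) ≤ 1 - 1 / (R : ℝ) := by
    rw [sub_nonneg, div_le_one (by linarith)]; exact hR'
  have hfull : ∀ (q : Fin k → Fin h) (ω : Fin n → Fin k × Fin R),
      (univ.filter fun e => ∀ a, e ∈ fzero (abR k R) q ω (idx a (q a)))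
        = univ.filter fun e => abR k R (ω e) = none := by
    intro q ω
    ext e
    simp only [mem_filter, mem_univ, true_and]
    exact mem_fzero_iff _ q ω e
  have key := random_core (X := Fin (k * h) → Finset (Fin n)) (C := C) (Q := Fin k → Fin h)
    (E := Fin n) (B := Fin k × Fin R) (Ω := Ω) fone (fzero (abR k R)) (al (abR k R))
    (fun β => abR k R β = none) p hp hp1 cell hcell reads acc hacc hdet
    (fun q ω q' e' h => fone_le_fzero _ q ω q' e' h) (δ := δ)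
    (fun q e => by
      obtain ⟨A, h1, h2⟩ := hcor (fone q e) q e
      exact ⟨A, fun ϖ hϖ => (h1 ϖ hϖ).mpr ((mem_fone_iff hk q e e).mpr rfl), h2⟩)
    (fun q ω e he => by
      obtain ⟨A, h1, h2⟩ := hcor (fzero (abR k R) q ω) q e
      refine ⟨A, fun ϖ hϖ hacc' => he ?_, h2⟩
      exact (mem_fzero_iff _ q ω e).mp ((h1 ϖ hϖ).mp hacc'))
    (t := t) (a := b) hb
    (fun q ω => by
      have := hcost (fzero (abR k R) q ω) q
      rw [hfull] at this
      exact this)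
    (L := k * L) (by nlinarith) (κ := 1 / (k : ℝ)) (ρ := 1 / (R : ℝ)) hk1 (by positivity)
    (fun q q' hqq => card_not_al_abR q q' hqq) (by positivity) (by linarith)
    (card_full_abR hR) (W := R * L) (ε := (1 / 2 : ℝ) ^ L) (pow_decay hk)
    (fun ϖ c q => by
      refine le_trans (card_served_self fone (fzero (abR k R)) (al (abR k R)) (cell ϖ c)
        (hcell ϖ c) (fun q ω q' e' h => fone_le_fzero _ q ω q' e' h) q (W := R * L)
        (by nlinarith) (ρ := 1 / (R : ℝ)) hR1 (by positivity) (card_not_al_self_abR hR q)) ?_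
      exact mul_le_mul_of_nonneg_right (pow_decay hR) (by positivity)) hδ
  simpa [Fintype.card_fun, Fintype.card_fin] using key

/-- Deciding whether `k` sets have a common element. -/
theorem decide_core {k h n : ℕ} {C Ω : Type} [Fintype C] [Fintype Ω] (hk : 0 < k) (hh : 0 < h)
    (p : Ω → ℝ) (hp : ∀ ϖ, 0 ≤ p ϖ) (hp1 : ∑ ϖ, p ϖ = 1)
    (cell : Ω → C → (Fin (k * h) → Finset (Fin n)) → ℝ) (hcell : ∀ ϖ c, Monotone (cell ϖ c))
    (reads : Ω → (Fin k → Fin h) → (C → ℝ) → Finset C)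
    (acc : Ω → (Fin k → Fin h) → (C → ℝ) → Prop)
    (hacc : ∀ ϖ q M M', M ≤ M' → acc ϖ q M → acc ϖ q M')
    (hdet : ∀ ϖ q M M', (∀ c ∈ reads ϖ q M, M' c = M c) → acc ϖ q M' → acc ϖ q M)
    {δ : ℝ} (hδ : 0 ≤ δ)
    (hcor : ∀ F q, ∃ A : Finset Ω,
      (∀ ϖ ∈ A, (acc ϖ q (fun c => cell ϖ c F) ↔ ∃ e, ∀ a, e ∈ F (idx a (q a)))) ∧
        1 / 2 + δ ≤ ∑ ϖ ∈ A, p ϖ)
    {t : ℝ}
    (hcost : ∀ F q, (¬ ∃ e, ∀ a, e ∈ F (idx a (q a))) →
      ∑ ϖ, p ϖ * ((reads ϖ q (fun c => cell ϖ c F)).card : ℝ) ≤ t)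
    {L : ℕ} (hL : 1 ≤ L) :
    (h : ℝ) ^ k * (2 * δ * n - (k * L : ℕ) * t
      - n * Fintype.card C * (1 / 2 : ℝ) ^ L) ≤ n * Fintype.card C := by
  classical
  haveI : Nonempty (Fin h) := ⟨⟨0, hh⟩⟩
  haveI : Nonempty (Fin k) := ⟨⟨0, hk⟩⟩
  have hk' : (1 : ℝ) ≤ k := by exact_mod_cast hk
  have hk1 : (0 : ℝ) ≤ 1 - 1 / (k : ℝ) := by
    rw [sub_nonneg, div_le_one (by linarith)]; exact hk'
  have hnone : ∀ (q : Fin k → Fin h) (ω : Fin n → Fin k),
      ¬ ∃ e, ∀ a, e ∈ fzero (fun β : Fin k => some β) q ω (idx a (q a)) := by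
    rintro q ω ⟨e, he⟩
    have := (mem_fzero_iff _ q ω e).mp he
    simp at this
  have key := random_core (X := Fin (k * h) → Finset (Fin n)) (C := C) (Q := Fin k → Fin h)
    (E := Fin n) (B := Fin k) (Ω := Ω) fone (fzero (fun β : Fin k => some β))
    (al (fun β : Fin k => some β))
    (fun _ => False) p hp hp1 cell hcell reads (fun ϖ q _ M => acc ϖ q M)
    (fun ϖ q _ M M' h1 h2 => hacc ϖ q M M' h1 h2) (fun ϖ q _ M M' h1 h2 => hdet ϖ q M M' h1 h2)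
    (fun q ω q' e' h => fone_le_fzero _ q ω q' e' h) (δ := δ)
    (fun q e => by
      obtain ⟨A, h1, h2⟩ := hcor (fone q e) q
      exact ⟨A, fun ϖ hϖ => (h1 ϖ hϖ).mpr ⟨e, (mem_fone_iff hk q e e).mpr rfl⟩, h2⟩)
    (fun q ω e _ => by
      obtain ⟨A, h1, h2⟩ := hcor (fzero (fun β : Fin k => some β) q ω) q
      exact ⟨A, fun ϖ hϖ hacc' => hnone q ω ((h1 ϖ hϖ).mp hacc'), h2⟩)
    (t := t) (a := 0) le_rfl
    (fun q ω => by
      have := hcost (fzero (fun β : Fin k => some β) q ω) q (hnone q ω)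
      simpa using this)
    (L := k * L) (by nlinarith) (κ := 1 / (k : ℝ)) (ρ := 0) hk1 (by positivity)
    (fun q q' hqq => card_not_al_some q q' hqq) le_rfl (by linarith)
    (by simp) (W := n) (ε := (1 / 2 : ℝ) ^ L) (pow_decay hk)
    (fun ϖ c q => by
      have : (univ.filter fun ω : Fin n → Fin k =>
          n < (served (cell ϖ c) fone q (fzero (fun β : Fin k => some β) q ω)).card) = ∅ := by
        apply filter_eq_empty_iff.mpr
        intro ω _ h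
        have := card_le_univ (served (cell ϖ c) fone q (fzero (fun β : Fin k => some β) q ω))
        rw [Fintype.card_fin] at this
        omega
      rw [this]
      simp only [card_empty, Nat.cast_zero]
      positivity) hδ
  simpa [Fintype.card_fun, Fintype.card_fin] using key

end Pool.Agent.H525R4.Mono
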