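import Mathlib

/-!
# Monotone data structures: the abstract counting argument

`X` is the ordered set of inputs, `g c` (`c : C`) are the contents of the cells, nondecreasing
real functions of the input.  Queries `q : Q`, elements `e : E`; `one q e` are the minimal inputs on
which `e` is reported for `q`, `zero q ω` are large inputs, `ω : E → B` a random labelling.  The
hypothesis is that `one q' e' ≤ zero q ω` if the label `ω e'` is good for `(q, q')`.
-/

open Finset

namespace Pool.Agent.H525R4.Mono

/-- The `L`-th largest value of a function. -/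
lemma exists_rank {E : Type} [Fintype E] (f : E → ℝ) {L : ℕ} (h1 : 1 ≤ L)
    (hL : L ≤ Fintype.card E) :
    ∃ θ : ℝ, (univ.filter fun e => θ < f e).card < L ∧ L ≤ (univ.filter fun e => θ ≤ f e).card := by
  classical
  have hne : Nonempty E := by
    rw [← Fintype.card_pos_iff]; omega
  -- the candidates
  let S : Finset ℝ := (univ.image f).filter fun v => L ≤ (univ.filter fun e => v ≤ f e).card
  have hS : S.Nonempty := by
    obtain ⟨e0, he0⟩ := Finite.exists_min f
    refine ⟨f e0, ?_⟩
    simp only [S, mem_filter, mem_image, mem_univ, true_and]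
    refine ⟨⟨e0, rfl⟩, ?_⟩
    have : (univ.filter fun e => f e0 ≤ f e) = univ := by
      ext e; simp [he0 e]
    rw [this, card_univ]; exact hL
  refine ⟨S.max' hS, ?_, ?_⟩
  · by_contra hcon
    push Not at hcon
    have hne2 : (univ.filter fun e => S.max' hS < f e).Nonempty := by
      rw [← card_pos]; omega
    obtain ⟨e1, he1, hmin⟩ := exists_min_image _ f hne2
    simp only [mem_filter, mem_univ, true_and] at he1 hmin
    have hmem : f e1 ∈ S := by
      simp only [S, mem_filter, mem_image, mem_univ, true_and]
      refine ⟨⟨e1, rfl⟩, le_trans hcon (card_le_card ?_)⟩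
      intro e he
      simp only [mem_filter, mem_univ, true_and] at he ⊢
      exact hmin e he
    exact absurd (S.le_max' _ hmem) (not_le.mpr he1)
  · have := S.max'_mem hS
    simp only [S, mem_filter] at this
    exact this.2

/-- The number of labellings avoiding the good labels on a set `D`. -/
lemma card_avoid {E B : Type} [Fintype E] [DecidableEq E] [Fintype B] (D : Finset E)
    (bad : E → B → Prop) [∀ e, DecidablePred (bad e)] {κ : ℝ} {L : ℕ} (hκ0 : 0 ≤ 1 - κ)
    (hκ1 : 0 ≤ κ)
    (hbad : ∀ e ∈ D, ((univ.filter fun β => bad e β).card : ℝ) ≤ (1 - κ) * Fintype.card B)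
    (hL : L ≤ D.card) :
    ((univ.filter fun ω : E → B => ∀ e ∈ D, bad e (ω e)).card : ℝ)
      ≤ (1 - κ) ^ L * Fintype.card (E → B) := by
  classical
  have h1 : (univ.filter fun ω : E → B => ∀ e ∈ D, bad e (ω e))
      = Fintype.piFinset (fun e => if e ∈ D then univ.filter (fun β => bad e β) else univ) := by
    ext ω
    simp only [mem_filter, mem_univ, true_and, Fintype.mem_piFinset]
    constructor
    · intro h e
      by_cases he : e ∈ D
      · simp [he, h e he]
      · simp [he]
    · intro h e he
      have := h e
      simp only [he, if_true, mem_filter, mem_univ, true_and] at this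
      exact this
  rw [h1, Fintype.card_piFinset, Nat.cast_prod]
  have h2 : ∀ e : E, ((if e ∈ D then univ.filter (fun β => bad e β) else univ : Finset B).card : ℝ)
      ≤ (if e ∈ D then (1 - κ) else 1) * Fintype.card B := by
    intro e
    by_cases he : e ∈ D
    · simp only [he, if_true]; exact hbad e he
    · simp [he, card_univ]
  calc ∏ e : E, ((if e ∈ D then univ.filter (fun β => bad e β) else univ : Finset B).card : ℝ)
      ≤ ∏ e : E, ((if e ∈ D then (1 - κ) else 1) * (Fintype.card B : ℝ)) :=
        prod_le_prod (fun _ _ => by positivity) (fun e _ => h2 e)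
    _ = (∏ e : E, (if e ∈ D then (1 - κ) else 1)) * (Fintype.card B : ℝ) ^ Fintype.card E := by
        rw [prod_mul_distrib, prod_const, card_univ]
    _ = (1 - κ) ^ D.card * (Fintype.card B : ℝ) ^ Fintype.card E := by
        rw [prod_ite_mem, univ_inter, prod_const]
    _ ≤ (1 - κ) ^ L * Fintype.card (E → B) := by
        rw [Fintype.card_fun]
        push_cast
        apply mul_le_mul_of_nonneg_right _ (by positivity)
        exact pow_le_pow_of_le_one hκ0 (by linarith) hL

section Core

variable {X C Q E B : Type} [Preorder X] [Fintype C] [Fintype Q] [DecidableEq Q] [Fintype E]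
  [DecidableEq E] [Fintype B]

/-- The elements served by the cell with contents `g`. -/
noncomputable def served (g : X → ℝ) (one : Q → E → X) (q : Q) (x : X) : Finset E := by
  classical
  exact univ.filter fun e => g x < g (one q e)

omit [Preorder X] [Fintype Q] [DecidableEq Q] [DecidableEq E] in
lemma mem_served {g : X → ℝ} {one : Q → E → X} {q : Q} {x : X} {e : E} :
    e ∈ served g one q x ↔ g x < g (one q e) := by
  classical
  simp [served]

variable (one : Q → E → X) (zero : Q → (E → B) → X) (al : Q → Q → B → Prop)

omit [Fintype Q] [DecidableEq Q] in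
/-- If the rank-`L` value of `q'` is at least that of `q`, then few labellings let the cell serve
`L` elements for `q`. -/
lemma card_served_large [∀ q q', DecidablePred (al q q')] (g : X → ℝ) (hg : Monotone g)
    (hle : ∀ q ω q' e', al q q' (ω e') → one q' e' ≤ zero q ω)
    {q q' : Q} {θ θ' : ℝ} {L : ℕ} (hθ : (univ.filter fun e => θ < g (one q e)).card < L)
    (hθ' : L ≤ (univ.filter fun e => θ' ≤ g (one q' e)).card) (hθθ : θ ≤ θ')
    {κ : ℝ} (hκ0 : 0 ≤ 1 - κ) (hκ1 : 0 ≤ κ)
    (hκ : ((univ.filter fun β => ¬ al q q' β).card : ℝ) ≤ (1 - κ) * Fintype.card B) :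
    ((univ.filter fun ω : E → B => L ≤ (served g one q (zero q ω)).card).card : ℝ)
      ≤ (1 - κ) ^ L * Fintype.card (E → B) := by
  classical
  refine le_trans ?_ (card_avoid (univ.filter fun e => θ' ≤ g (one q' e))
    (fun _ β => ¬ al q q' β) hκ0 hκ1 (fun e _ => by
      refine le_trans (le_of_eq ?_) hκ
      congr 1) hθ')
  rw [Nat.cast_le]
  apply card_le_card
  intro ω hω
  simp only [mem_filter, mem_univ, true_and] at hω ⊢
  intro e he hal
  have h1 : g (one q' e) ≤ g (zero q ω) := hg (hle q ω q' e hal)
  have h2 : (served g one q (zero q ω)) ⊆ univ.filter fun e => θ < g (one q e) := by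
    intro e2 he2
    rw [mem_served] at he2
    simp only [mem_filter, mem_univ, true_and]
    linarith
  have h3 := card_le_card h2
  omega

omit [DecidableEq Q] in
/-- The owner of a cell. -/
lemma exists_owner [Nonempty Q] [∀ q q', DecidablePred (al q q')] (g : X → ℝ) (hg : Monotone g)
    (hle : ∀ q ω q' e', al q q' (ω e') → one q' e' ≤ zero q ω)
    {L : ℕ} (hL : 1 ≤ L) {κ : ℝ} (hκ0 : 0 ≤ 1 - κ) (hκ1 : 0 ≤ κ)
    (hκ : ∀ q q', q ≠ q' →
      ((univ.filter fun β => ¬ al q q' β).card : ℝ) ≤ (1 - κ) * Fintype.card B) :
    ∃ q0 : Q, ∀ q, q ≠ q0 →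
      ((univ.filter fun ω : E → B => L ≤ (served g one q (zero q ω)).card).card : ℝ)
        ≤ (1 - κ) ^ L * Fintype.card (E → B) := by
  classical
  by_cases hLE : L ≤ Fintype.card E
  · choose θ h1 h2 using fun q : Q => exists_rank (fun e => g (one q e)) hL hLE
    obtain ⟨q0, hq0⟩ := Finite.exists_max θ
    refine ⟨q0, fun q hq => ?_⟩
    exact card_served_large one zero al g hg hle (h1 q) (h2 q0) (hq0 q) hκ0 hκ1 (hκ q q0 hq)
  · refine ⟨Classical.arbitrary Q, fun q _ => ?_⟩
    have : (univ.filter fun ω : E → B => L ≤ (served g one q (zero q ω)).card) = ∅ := by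
      apply filter_eq_empty_iff.mpr
      intro ω _ h
      have := card_le_univ (served g one q (zero q ω))
      omega
    rw [this]
    simp only [card_empty, Nat.cast_zero]
    positivity

/-- **The counting argument.**  `reads q ω` are the cells read, `W` bounds the number of elements
served by a cell for its owner except with probability `ε'`. -/
theorem sum_served_le [Nonempty Q] [DecidableEq C] [∀ q q', DecidablePred (al q q')]
    (g : C → X → ℝ) (hg : ∀ c, Monotone (g c))
    (hle : ∀ q ω q' e', al q q' (ω e') → one q' e' ≤ zero q ω)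
    {L : ℕ} (hL : 1 ≤ L) {κ : ℝ} (hκ0 : 0 ≤ 1 - κ) (hκ1 : 0 ≤ κ)
    (hκ : ∀ q q', q ≠ q' →
      ((univ.filter fun β => ¬ al q q' β).card : ℝ) ≤ (1 - κ) * Fintype.card B)
    {W : ℕ} {ε : ℝ} (hε : (1 - κ) ^ L ≤ ε)
    (hW : ∀ c q, ((univ.filter fun ω : E → B => W < (served (g c) one q (zero q ω)).card).card : ℝ)
        ≤ ε * Fintype.card (E → B))
    (reads : Q → (E → B) → Finset C) :
    ∑ q, ∑ ω, (((univ.filter fun e => ∃ c ∈ reads q ω,
        g c (zero q ω) < g c (one q e)).card : ℝ))
      ≤ L * ∑ q, ∑ ω, ((reads q ω).card : ℝ)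
        + (W * Fintype.card C + Fintype.card Q * Fintype.card E * Fintype.card C * ε)
            * Fintype.card (E → B) := by
  classical
  have hε0 : 0 ≤ ε := le_trans (by positivity) hε
  choose own hown using fun c : C => exists_owner one zero al (g c) (hg c) hle hL hκ0 hκ1 hκ
  -- the bad labellings of a cell and a query
  let bad : C → Q → Finset (E → B) := fun c q => univ.filter fun ω =>
    if q = own c then W < (served (g c) one q (zero q ω)).card
      else L ≤ (served (g c) one q (zero q ω)).card
  have hbad : ∀ c q, ((bad c q).card : ℝ) ≤ ε * Fintype.card (E → B) := by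
    intro c q
    by_cases h : q = own c
    · simp only [bad, h, if_true]
      have := hW c (own c)
      convert this using 3
    · simp only [bad, h, if_false]
      have := hown c q h
      refine le_trans (le_trans (le_of_eq ?_) this)
        (mul_le_mul_of_nonneg_right hε (by positivity))
      congr 2
  have hserved : ∀ c q ω, ((served (g c) one q (zero q ω)).card : ℝ)
      ≤ L + (if q = own c then (W : ℝ) else 0)
        + Fintype.card E * (if ω ∈ bad c q then (1 : ℝ) else 0) := by
    intro c q ω
    by_cases hb : ω ∈ bad c q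
    · have h1 : ((served (g c) one q (zero q ω)).card : ℝ) ≤ Fintype.card E := by
        exact_mod_cast card_le_univ _
      have h2 : (0 : ℝ) ≤ if q = own c then (W : ℝ) else 0 := by split_ifs <;> positivity
      simp only [hb, if_true, mul_one]
      have h3 : (0 : ℝ) ≤ L := by positivity
      linarith
    · simp only [hb, if_false, mul_zero, add_zero]
      by_cases h : q = own c
      · simp only [h, if_true]
        have hb' : ¬ (W < (served (g c) one (own c) (zero (own c) ω)).card) := by
          intro h'
          apply hb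
          simp only [bad, mem_filter, mem_univ, true_and, h, if_true]
          exact h'
        push Not at hb'
        have : ((served (g c) one (own c) (zero (own c) ω)).card : ℝ) ≤ W := by exact_mod_cast hb'
        have h3 : (0 : ℝ) ≤ L := by positivity
        linarith
      · simp only [h, if_false, add_zero]
        have hb' : ¬ (L ≤ (served (g c) one q (zero q ω)).card) := by
          intro h'
          apply hb
          simp only [bad, mem_filter, mem_univ, true_and, h, if_false]
          exact h'
        push Not at hb'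
        exact_mod_cast hb'.le
  have hpoint : ∀ q ω, ((univ.filter fun e => ∃ c ∈ reads q ω,
        g c (zero q ω) < g c (one q e)).card : ℝ)
      ≤ L * ((reads q ω).card : ℝ) + (∑ c, if q = own c then (W : ℝ) else 0)
        + Fintype.card E * ∑ c, (if ω ∈ bad c q then (1 : ℝ) else 0) := by
    intro q ω
    have h1 : (univ.filter fun e => ∃ c ∈ reads q ω, g c (zero q ω) < g c (one q e))
        ⊆ (reads q ω).biUnion fun c => served (g c) one q (zero q ω) := by
      intro e he
      simp only [mem_filter, mem_univ, true_and] at he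
      obtain ⟨c, hc, hlt⟩ := he
      rw [mem_biUnion]
      exact ⟨c, hc, mem_served.mpr hlt⟩
    have h2 : ((univ.filter fun e => ∃ c ∈ reads q ω,
        g c (zero q ω) < g c (one q e)).card : ℝ)
        ≤ ∑ c ∈ reads q ω, ((served (g c) one q (zero q ω)).card : ℝ) := by
      have := le_trans (card_le_card h1) card_biUnion_le
      exact_mod_cast this
    refine le_trans h2 (le_trans (sum_le_sum fun c _ => hserved c q ω) ?_)
    rw [sum_add_distrib, sum_add_distrib, sum_const, nsmul_eq_mul, ← mul_sum]
    have h3 : ∑ c ∈ reads q ω, (if q = own c then (W : ℝ) else 0)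
        ≤ ∑ c, (if q = own c then (W : ℝ) else 0) :=
      sum_le_sum_of_subset_of_nonneg (subset_univ _) (fun c _ _ => by split_ifs <;> positivity)
    have h4 : ∑ c ∈ reads q ω, (if ω ∈ bad c q then (1 : ℝ) else 0)
        ≤ ∑ c, (if ω ∈ bad c q then (1 : ℝ) else 0) :=
      sum_le_sum_of_subset_of_nonneg (subset_univ _) (fun c _ _ => by split_ifs <;> positivity)
    have h5 := mul_le_mul_of_nonneg_left h4 (by positivity : (0 : ℝ) ≤ Fintype.card E)
    linarith [mul_comm ((reads q ω).card : ℝ) (L : ℝ)]
  refine le_trans (sum_le_sum fun q _ => sum_le_sum fun ω _ => hpoint q ω) ?_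
  simp only [sum_add_distrib]
  have hA : ∑ q : Q, ∑ ω : E → B, (L : ℝ) * ((reads q ω).card : ℝ)
      = L * ∑ q, ∑ ω, ((reads q ω).card : ℝ) := by
    rw [mul_sum]; exact sum_congr rfl fun q _ => by rw [mul_sum]
  have hB : ∑ q : Q, ∑ _ω : E → B, ∑ c : C, (if q = own c then (W : ℝ) else 0)
      = W * Fintype.card C * Fintype.card (E → B) := by
    have : ∀ q : Q, ∑ _ω : E → B, ∑ c : C, (if q = own c then (W : ℝ) else 0)
        = (∑ c : C, (if q = own c then (W : ℝ) else 0)) * Fintype.card (E → B) := by
      intro q
      rw [sum_const, card_univ, nsmul_eq_mul, mul_comm]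
    rw [sum_congr rfl fun q _ => this q, ← sum_mul, sum_comm]
    congr 1
    have h2 : ∀ c : C, ∑ q : Q, (if q = own c then (W : ℝ) else 0) = W := by
      intro c; simp
    rw [sum_congr rfl fun c _ => h2 c, sum_const, card_univ, nsmul_eq_mul, mul_comm]
  have hC : ∑ q : Q, ∑ ω : E → B, (Fintype.card E : ℝ) * ∑ c : C, (if ω ∈ bad c q then (1 : ℝ) else 0)
      ≤ (Fintype.card Q * Fintype.card E * Fintype.card C * ε) * Fintype.card (E → B) := by
    have h1 : ∀ q : Q, ∑ ω : E → B, (Fintype.card E : ℝ) * ∑ c : C, (if ω ∈ bad c q then (1 : ℝ) else 0)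
        ≤ Fintype.card E * (Fintype.card C * (ε * Fintype.card (E → B))) := by
      intro q
      rw [← mul_sum, sum_comm]
      apply mul_le_mul_of_nonneg_left _ (by positivity)
      calc ∑ c : C, ∑ ω : E → B, (if ω ∈ bad c q then (1 : ℝ) else 0)
          = ∑ c : C, ((bad c q).card : ℝ) := by
            apply sum_congr rfl
            intro c _
            rw [sum_ite_mem, univ_inter, sum_const, nsmul_eq_mul, mul_one]
        _ ≤ ∑ _c : C, (ε * Fintype.card (E → B)) := sum_le_sum fun c _ => hbad c q
        _ = Fintype.card C * (ε * Fintype.card (E → B)) := by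
            rw [sum_const, card_univ, nsmul_eq_mul]
    refine le_trans (sum_le_sum fun q _ => h1 q) ?_
    rw [sum_const, card_univ, nsmul_eq_mul]
    apply le_of_eq; ring
  rw [hA, hB]
  linarith [hC]

end Core

end Pool.Agent.H525R4.Mono
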