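import Pool.Agent.H525R4.Mono.Bounds

/-!
# Monotone data structures for k-SetDisjointness: the model and the lower bound
-/

open Finset

namespace Pool.Agent.H525R4.Mono

/-- A monotone data structure with `s` cells for `k`-SetDisjointness on families of `m` subsets of a
universe with `n` elements.  `cell c F` is the real number in cell `c` after the preprocessing of
the family `F`, an arbitrary nondecreasing function of `F`.  A query `v` names the `k` sets
`F (v 0), …, F (v (k - 1))`.  If the contents of the memory are `M`, then it reads the cells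
`reads v M` (they may depend on what was read before: adaptive queries, even nondeterministic ones;
the only condition is `accept_reads`, the answer is determined by the contents of the cells read)
and answers that the sets have a common element iff `accept v M` holds, a condition which is
nondecreasing in the contents of the memory. -/
structure DisjDS (k m n s : ℕ) where
  /-- the contents of the cells -/
  cell : Fin s → (Fin m → Finset (Fin n)) → ℝ
  cell_mono : ∀ c, Monotone (cell c)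
  /-- the cells read -/
  reads : (Fin k → Fin m) → (Fin s → ℝ) → Finset (Fin s)
  /-- the answer is positive (there is a common element) -/
  accept : (Fin k → Fin m) → (Fin s → ℝ) → Prop
  accept_mono : ∀ v M M', M ≤ M' → accept v M → accept v M'
  accept_reads : ∀ v M M', (∀ c ∈ reads v M, M' c = M c) → (accept v M' ↔ accept v M)

/-- The contents of the memory after the preprocessing of `F`. -/
def DisjDS.mem {k m n s : ℕ} (D : DisjDS k m n s) (F : Fin m → Finset (Fin n)) : Fin s → ℝ :=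
  fun c => D.cell c F

/-- The answer to the query `v` on the family `F` is positive (there is a common element). -/
def DisjDS.out {k m n s : ℕ} (D : DisjDS k m n s) (F : Fin m → Finset (Fin n))
    (v : Fin k → Fin m) : Prop := D.accept v (D.mem F)

/-- The number of cells read for the query `v` on the family `F`. -/
def DisjDS.cost {k m n s : ℕ} (D : DisjDS k m n s) (F : Fin m → Finset (Fin n))
    (v : Fin k → Fin m) : ℕ := (D.reads v (D.mem F)).card

/-- The `k` sets of the query `v` have a common element. -/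
def Meet {k m n : ℕ} (F : Fin m → Finset (Fin n)) (v : Fin k → Fin m) : Prop :=
  ∃ e, ∀ a, e ∈ F (v a)

open Classical in
/-- The random monotone data structure `D` (it is `D ϖ` with probability `p ϖ`) solves
`k`-SetDisjointness with advantage `δ` and query time `t`: for every family and every query of `k`
different sets the answer is correct with probability at least `1 / 2 + δ`, and if the sets have no
common element, then the expected number of cells read is at most `t`. -/
def DisjSolves {k m n s : ℕ} {Ω : Type} [Fintype Ω] (p : Ω → ℝ) (D : Ω → DisjDS k m n s)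
    (δ t : ℝ) : Prop :=
  (∀ ϖ, 0 ≤ p ϖ) ∧ ∑ ϖ, p ϖ = 1 ∧
  ∀ (F : Fin m → Finset (Fin n)) (v : Fin k → Fin m), Function.Injective v →
    1 / 2 + δ ≤ ∑ ϖ with ((D ϖ).out F v ↔ Meet F v), p ϖ ∧
    (¬ Meet F v → ∑ ϖ, p ϖ * (D ϖ).cost F v ≤ t)

open Classical in
/-- The inequality for a structure on `k h` sets. -/
theorem disj_core {k h n s : ℕ} (hk : 0 < k) (hh : 0 < h) {Ω : Type} [Fintype Ω] (p : Ω → ℝ)
    (D : Ω → DisjDS k (k * h) n s) {δ t : ℝ} (hδ : 0 ≤ δ)
    (hp : ∀ ϖ, 0 ≤ p ϖ) (hp1 : ∑ ϖ, p ϖ = 1)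
    (hcor : ∀ (F : Fin (k * h) → Finset (Fin n)) (v : Fin k → Fin (k * h)),
      Function.Injective v → 1 / 2 + δ ≤ ∑ ϖ with ((D ϖ).out F v ↔ Meet F v), p ϖ)
    (hcost : ∀ (F : Fin (k * h) → Finset (Fin n)) (v : Fin k → Fin (k * h)),
      Function.Injective v → ¬ Meet F v → ∑ ϖ, p ϖ * (D ϖ).cost F v ≤ t)
    {L : ℕ} (hL : 1 ≤ L) :
    (h : ℝ) ^ k * (2 * δ * n - (k * L : ℕ) * t - n * s * (1 / 2 : ℝ) ^ L) ≤ n * s := by
  have hinj : ∀ q : Fin k → Fin h, Function.Injective (fun a => (idx a (q a) : Fin (k * h))) := by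
    intro q a a' haa
    exact (idx_inj.mp haa).1
  have key := decide_core (k := k) (h := h) (n := n) (C := Fin s) (Ω := Ω) hk hh p hp hp1
    (fun ϖ c F => (D ϖ).cell c F) (fun ϖ c => (D ϖ).cell_mono c)
    (fun ϖ q M => (D ϖ).reads (fun a => idx a (q a)) M)
    (fun ϖ q M => (D ϖ).accept (fun a => idx a (q a)) M)
    (fun ϖ q M M' hMM he => (D ϖ).accept_mono _ M M' hMM he)
    (fun ϖ q M M' hMM he => ((D ϖ).accept_reads _ M M' hMM).mp he)
    (δ := δ) hδ
    (fun F q => by
      refine ⟨_, fun ϖ hϖ => ?_, hcor F _ (hinj q)⟩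
      rw [mem_filter] at hϖ
      exact hϖ.2)
    (t := t)
    (fun F q hno => hcost F _ (hinj q) hno) hL
  simpa [Fintype.card_fin] using key

/-- A natural number `L` with `8 N ^ k / δ ≤ 2 ^ L`. -/
lemma exists_log_k {k N : ℕ} {δ : ℝ} (hk : 2 ≤ k) (hN : 2 ≤ N) (hδ : 0 < δ) (hδ2 : δ ≤ 1 / 2) :
    ∃ L : ℕ, 1 ≤ L ∧ 8 * (N : ℝ) ^ k / δ ≤ 2 ^ L ∧ (L : ℝ) ≤ 2 * k * Real.logb 2 (N / δ) ∧
      2 ≤ Real.logb 2 (N / δ) := by
  have hNr : (2 : ℝ) ≤ N := by exact_mod_cast hN
  have hkr : (2 : ℝ) ≤ k := by exact_mod_cast hk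
  have hNd : (4 : ℝ) ≤ N / δ := by rw [le_div_iff₀ hδ]; nlinarith
  have hlg : 2 ≤ Real.logb 2 (N / δ) := by
    rw [Real.le_logb_iff_rpow_le (by norm_num) (by linarith)]
    norm_num
    exact hNd
  have hpos : 0 < 8 * (N : ℝ) ^ k / δ := by positivity
  have hNk : (1 : ℝ) ≤ (N : ℝ) ^ k := one_le_pow₀ (by linarith)
  have h1 : Real.logb 2 (8 * (N : ℝ) ^ k / δ) ≤ 3 + k * Real.logb 2 (N / δ) := by
    have h2 : 8 * (N : ℝ) ^ k / δ ≤ 8 * (N / δ) ^ k := by
      rw [div_pow, mul_div_assoc]
      apply mul_le_mul_of_nonneg_left _ (by norm_num)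
      apply div_le_div_of_nonneg_left (by positivity) (by positivity)
      calc δ ^ k ≤ δ ^ 1 := pow_le_pow_of_le_one hδ.le (by linarith) (by omega)
        _ = δ := pow_one δ
    calc Real.logb 2 (8 * (N : ℝ) ^ k / δ) ≤ Real.logb 2 (8 * (N / δ) ^ k) :=
          Real.logb_le_logb_of_le (by norm_num) hpos h2
      _ = 3 + k * Real.logb 2 (N / δ) := by
          rw [Real.logb_mul (by norm_num) (by positivity), Real.logb_pow]
          have : Real.logb 2 8 = 3 := by
            rw [show (8 : ℝ) = 2 ^ (3 : ℝ) by norm_num, Real.logb_rpow (by norm_num) (by norm_num)]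
          rw [this]
  refine ⟨⌈Real.logb 2 (8 * (N : ℝ) ^ k / δ)⌉₊, ?_, ?_, ?_, hlg⟩
  · rw [Nat.one_le_ceil_iff]
    apply Real.logb_pos (by norm_num)
    rw [lt_div_iff₀ hδ]; nlinarith
  · have h3 : Real.logb 2 (8 * (N : ℝ) ^ k / δ) ≤ (⌈Real.logb 2 (8 * (N : ℝ) ^ k / δ)⌉₊ : ℝ) :=
      Nat.le_ceil _
    rw [Real.logb_le_iff_le_rpow (by norm_num) hpos, Real.rpow_natCast] at h3
    exact h3
  · have h4 : (⌈Real.logb 2 (8 * (N : ℝ) ^ k / δ)⌉₊ : ℝ)
        < Real.logb 2 (8 * (N : ℝ) ^ k / δ) + 1 := by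
      apply Nat.ceil_lt_add_one
      apply Real.logb_nonneg (by norm_num)
      rw [le_div_iff₀ hδ]; nlinarith
    nlinarith

/-- **The lower bound for k-SetDisjointness.** -/
theorem disj_lower {k N : ℕ} (hk : 2 ≤ k) (hkN : k ≤ N) {δ t : ℝ} (hδ : 0 < δ) (hδ2 : δ ≤ 1 / 2)
    (ht : 1 ≤ t) :
    ∃ m n : ℕ, m * n ≤ N ∧ ∀ (s : ℕ) (Ω : Type) [Fintype Ω] (p : Ω → ℝ)
      (D : Ω → DisjDS k m n s), DisjSolves p D δ t →
        δ * (δ * N / (20 * k ^ 3 * t * Real.logb 2 (N / δ))) ^ k ≤ s := by
  obtain ⟨L, hL1, hL2, hL3, hlg⟩ := exists_log_k hk (by omega : 2 ≤ N) hδ hδ2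
  set lg := Real.logb 2 (N / δ) with hlgdef
  have hNr : (2 : ℝ) ≤ N := by exact_mod_cast (by omega : 2 ≤ N)
  have hkr : (2 : ℝ) ≤ k := by exact_mod_cast hk
  have hLr : (1 : ℝ) ≤ L := by exact_mod_cast hL1
  set n : ℕ := ⌈4 * k * L * t / δ⌉₊ with hn
  have hn1 : 4 * k * L * t / δ ≤ n := Nat.le_ceil _
  have hbig : 1 ≤ k * L * t / δ := by
    rw [le_div_iff₀ hδ]
    have h0 : 1 ≤ (L : ℝ) * t := by nlinarith
    have h1 : 1 ≤ k * ((L : ℝ) * t) := by nlinarith
    nlinarith
  have hn2 : (n : ℝ) ≤ 5 * k * L * t / δ := by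
    have h1 : (n : ℝ) < 4 * k * L * t / δ + 1 := Nat.ceil_lt_add_one (by positivity)
    have h2 : 5 * k * L * t / δ = 4 * k * L * t / δ + k * L * t / δ := by ring
    linarith
  have hnpos : (0 : ℝ) < n := lt_of_lt_of_le (by positivity) hn1
  have hn0 : 0 < n := by exact_mod_cast hnpos
  -- the bound follows from a bound with `L`
  have hbase : δ * N / (20 * k ^ 3 * t * lg) ≤ δ * N / (10 * k ^ 2 * L * t) := by
    apply div_le_div_of_nonneg_left (by positivity) (by positivity)
    calc 10 * (k : ℝ) ^ 2 * L * t = (10 * k ^ 2 * t) * L := by ring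
      _ ≤ (10 * k ^ 2 * t) * (2 * k * lg) := mul_le_mul_of_nonneg_left hL3 (by positivity)
      _ = 20 * k ^ 3 * t * lg := by ring
  have hbase2 : δ * N / (10 * k ^ 2 * L * t) ≤ N / (2 * k * n) := by
    rw [div_le_div_iff₀ (by positivity) (by positivity)]
    rw [le_div_iff₀ hδ] at hn2
    have : (n : ℝ) * δ * (2 * k * N) ≤ (5 * k * L * t) * (2 * k * N) :=
      mul_le_mul_of_nonneg_right hn2 (by positivity)
    calc δ * N * (2 * k * n) = (n : ℝ) * δ * (2 * k * N) := by ring
      _ ≤ (5 * k * L * t) * (2 * k * N) := this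
      _ = N * (10 * k ^ 2 * L * t) := by ring
  have hpos0 : (0 : ℝ) ≤ δ * N / (20 * k ^ 3 * t * lg) := by positivity
  by_cases hA : k * n ≤ N
  · -- the main range
    set h : ℕ := N / (k * n) with hh
    have hh0 : 0 < h := Nat.div_pos hA (by positivity)
    have hh1 : (N : ℝ) / (2 * k * n) ≤ h := by
      have h1 : N < k * n * (h + 1) := Nat.lt_mul_div_succ N (by positivity)
      have h2 : k * n * (h + 1) ≤ 2 * k * n * h := by nlinarith [Nat.mul_pos (by omega : 0 < k) hn0]
      have h3 : (N : ℝ) ≤ 2 * k * n * h := by exact_mod_cast (by omega : N ≤ 2 * k * n * h)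
      rw [div_le_iff₀ (by positivity)]
      linarith
    refine ⟨k * h, n, ?_, ?_⟩
    · have := Nat.div_mul_le_self N (k * n)
      calc k * h * n = h * (k * n) := by ring
        _ ≤ N := this
    intro s Ω _ p D hD
    obtain ⟨hp, hp1, hsol⟩ := hD
    by_cases hs : (s : ℝ) ≤ (N : ℝ) ^ k
    · have key := disj_core (by omega : 0 < k) hh0 p D hδ.le hp hp1
        (fun F v hv => (hsol F v hv).1) (fun F v hv hno => (hsol F v hv).2 hno) hL1
      have e1 : ((k * L : ℕ) : ℝ) * t ≤ δ * n / 4 := by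
        push_cast
        rw [div_le_iff₀ hδ] at hn1
        linarith
      have e2 : (n : ℝ) * s * (1 / 2 : ℝ) ^ L ≤ δ * n / 4 := by
        have h0 : (1 / 2 : ℝ) ^ L = 1 / 2 ^ L := by rw [one_div_pow]
        have h2L : (0 : ℝ) < 2 ^ L := by positivity
        rw [div_le_iff₀ hδ] at hL2
        rw [h0, mul_one_div, div_le_iff₀ h2L]
        have h3 : 8 * (s : ℝ) ≤ 2 ^ L * δ := by linarith
        have h4 : (0 : ℝ) ≤ 2 ^ L * δ := by positivity
        nlinarith [mul_le_mul_of_nonneg_left h3 hnpos.le, mul_nonneg hnpos.le h4]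
      have hbr : δ * n ≤ 2 * δ * n - (k * L : ℕ) * t - n * s * (1 / 2 : ℝ) ^ L := by
        have : 0 < δ * n := by positivity
        linarith
      have h5 : (h : ℝ) ^ k * (δ * n) ≤ n * s :=
        le_trans (mul_le_mul_of_nonneg_left hbr (by positivity)) key
      have h6 : δ * (h : ℝ) ^ k ≤ s := by
        have : (n : ℝ) * (δ * (h : ℝ) ^ k) ≤ n * s := by linarith
        exact le_of_mul_le_mul_left this hnpos
      refine le_trans (mul_le_mul_of_nonneg_left ?_ hδ.le) h6
      exact pow_le_pow_left₀ hpos0 (le_trans hbase (le_trans hbase2 hh1)) k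
    · push Not at hs
      refine le_trans ?_ hs.le
      have h1 : δ * N / (20 * k ^ 3 * t * lg) ≤ N := by
        rw [div_le_iff₀ (by positivity)]
        have h2 : (1 : ℝ) ≤ 20 * k ^ 3 * t * lg := by
          have h3 : (1 : ℝ) ≤ k ^ 3 := one_le_pow₀ (by linarith)
          have h4 : (1 : ℝ) ≤ k ^ 3 * t := by nlinarith
          have h5 : (1 : ℝ) ≤ k ^ 3 * t * lg := by nlinarith
          nlinarith
        nlinarith
      have h2 : (δ * N / (20 * k ^ 3 * t * lg)) ^ k ≤ (N : ℝ) ^ k := pow_le_pow_left₀ hpos0 h1 k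
      have h3 : (0 : ℝ) ≤ (N : ℝ) ^ k := by positivity
      have h4 : (0 : ℝ) ≤ (δ * N / (20 * k ^ 3 * t * lg)) ^ k := by positivity
      nlinarith
  · -- very large query times
    push Not at hA
    refine ⟨k * 1, 1, by omega, ?_⟩
    intro s Ω _ p D hD
    obtain ⟨hp, hp1, hsol⟩ := hD
    have hs1 : 1 ≤ s := by
      by_contra hs
      have hs0 : s = 0 := by omega
      subst hs0
      have key := disj_core (by omega : 0 < k) one_pos p D (t := 0) hδ.le hp hp1
        (fun F v hv => (hsol F v hv).1) (fun F v hv hno => by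
          have : ∀ ϖ, (D ϖ).cost F v = 0 := by
            intro ϖ
            unfold DisjDS.cost
            rw [card_eq_zero, eq_empty_iff_forall_notMem]
            intro c; exact Fin.elim0 c
          simp [this]) (L := 1) le_rfl
      norm_num at key
      linarith
    have hs1' : (1 : ℝ) ≤ s := by exact_mod_cast hs1
    refine le_trans ?_ hs1'
    have hA' : (N : ℝ) < k * n := by exact_mod_cast hA
    have h1 : δ * N / (20 * k ^ 3 * t * lg) ≤ 1 := by
      refine le_trans (le_trans hbase hbase2) ?_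
      rw [div_le_one (by positivity)]
      nlinarith
    have h2 : (δ * N / (20 * k ^ 3 * t * lg)) ^ k ≤ 1 := pow_le_one₀ hpos0 h1
    have h4 : (0 : ℝ) ≤ (δ * N / (20 * k ^ 3 * t * lg)) ^ k := by positivity
    nlinarith

end Pool.Agent.H525R4.Mono
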