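import Pool.Agent.H525R4.Mono.Random

/-!
# Monotone data structures: families of sets

The sets are indexed by `Fin (k * h)`, in `k` parts of `h` sets; a query of `k` sets takes one set
of every part.  A label says from which of the `k` sets an element is missing (or from none).
-/

open Finset

namespace Pool.Agent.H525R4.Mono

section Self

variable {X Q E B : Type} [Preorder X] [Fintype E] [DecidableEq E] [Fintype B]

/-- For its owner a cell serves few elements too, if full labels are not too rare. -/
lemma card_served_self (one : Q → E → X) (zero : Q → (E → B) → X) (al : Q → Q → B → Prop)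
    [∀ q q', DecidablePred (al q q')] (g : X → ℝ) (hg : Monotone g)
    (hle : ∀ q ω q' e', al q q' (ω e') → one q' e' ≤ zero q ω)
    (q : Q) {W : ℕ} (hW : 1 ≤ W) {ρ : ℝ} (hρ0 : 0 ≤ 1 - ρ) (hρ1 : 0 ≤ ρ)
    (hρ : ((univ.filter fun β => ¬ al q q β).card : ℝ) ≤ (1 - ρ) * Fintype.card B) :
    ((univ.filter fun ω : E → B => W < (served g one q (zero q ω)).card).card : ℝ)
      ≤ (1 - ρ) ^ W * Fintype.card (E → B) := by
  classical
  by_cases hWE : W ≤ Fintype.card E
  · obtain ⟨θ, h1, h2⟩ := exists_rank (fun e => g (one q e)) hW hWE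
    refine le_trans ?_ (card_served_large one zero al g hg hle h1 h2 le_rfl hρ0 hρ1 hρ)
    rw [Nat.cast_le]
    apply card_le_card
    intro ω hω
    simp only [mem_filter, mem_univ, true_and] at hω ⊢
    exact hω.le
  · have : (univ.filter fun ω : E → B => W < (served g one q (zero q ω)).card) = ∅ := by
      apply filter_eq_empty_iff.mpr
      intro ω _ h
      have := card_le_univ (served g one q (zero q ω))
      omega
    rw [this]
    simp only [card_empty, Nat.cast_zero]
    positivity

end Self

/-- The index of the `i`-th set of the `a`-th part. -/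
def idx {k h : ℕ} (a : Fin k) (i : Fin h) : Fin (k * h) := finProdFinEquiv (a, i)

lemma idx_inj {k h : ℕ} {a a' : Fin k} {i i' : Fin h} :
    idx a i = idx a' i' ↔ a = a' ∧ i = i' := by
  unfold idx
  rw [finProdFinEquiv.injective.eq_iff, Prod.mk.injEq]

/-- The family in which the `k` sets of the query are `{e}` and all other sets are empty. -/
noncomputable def fone {k h n : ℕ} (q : Fin k → Fin h) (e : Fin n) :
    Fin (k * h) → Finset (Fin n) := by
  classical
  exact fun i => if ∃ a, i = idx a (q a) then {e} else ∅

/-- The family in which every element `e` is missing only from the set of the query given by its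
label. -/
noncomputable def fzero {k h n : ℕ} {B : Type} (ab : B → Option (Fin k)) (q : Fin k → Fin h)
    (ω : Fin n → B) : Fin (k * h) → Finset (Fin n) := by
  classical
  exact fun i => univ.filter fun e => ∀ a, ab (ω e) = some a → i ≠ idx a (q a)

/-- The good labels. -/
def al {k h : ℕ} {B : Type} (ab : B → Option (Fin k)) (q q' : Fin k → Fin h) (β : B) : Prop :=
  ∀ a, ab β = some a → q' a ≠ q a

instance {k h : ℕ} {B : Type} (ab : B → Option (Fin k)) (q q' : Fin k → Fin h) :
    DecidablePred (al ab q q') := fun β => by unfold al; infer_instance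

lemma fone_le_fzero {k h n : ℕ} {B : Type} (ab : B → Option (Fin k)) (q : Fin k → Fin h)
    (ω : Fin n → B) (q' : Fin k → Fin h) (e' : Fin n) (hal : al ab q q' (ω e')) :
    fone q' e' ≤ fzero ab q ω := by
  classical
  intro i
  unfold fone fzero
  split_ifs with hi
  · obtain ⟨a, rfl⟩ := hi
    intro x hx
    rw [mem_singleton] at hx
    subst hx
    simp only [mem_filter, mem_univ, true_and]
    intro a' ha' heq
    rw [idx_inj] at heq
    obtain ⟨rfl, h2⟩ := heq
    exact hal a ha' h2
  · intro x hx
    simp at hx

lemma mem_fone_iff {k h n : ℕ} (hk : 0 < k) (q : Fin k → Fin h) (e x : Fin n) :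
    (∀ a, x ∈ fone q e (idx a (q a))) ↔ x = e := by
  classical
  have h1 : ∀ a, fone q e (idx a (q a)) = {e} := by
    intro a
    unfold fone
    rw [if_pos ⟨a, rfl⟩]
  constructor
  · intro h2
    have := h2 ⟨0, hk⟩
    rw [h1] at this
    simpa using this
  · rintro rfl a
    rw [h1]; simp

lemma mem_fzero_iff {k h n : ℕ} {B : Type} (ab : B → Option (Fin k)) (q : Fin k → Fin h)
    (ω : Fin n → B) (x : Fin n) :
    (∀ a, x ∈ fzero ab q ω (idx a (q a))) ↔ ab (ω x) = none := by
  classical
  unfold fzero
  simp only [mem_filter, mem_univ, true_and]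
  constructor
  · intro h1
    by_contra h2
    obtain ⟨a, ha⟩ := Option.ne_none_iff_exists'.mp h2
    exact h1 a a ha rfl
  · intro h1 a a' ha'
    rw [h1] at ha'
    simp at ha'

/-- Labels for reporting: an element is in all sets of the query with probability `1 / R`, and
otherwise missing from a random one of them. -/
def abR (k R : ℕ) : Fin k × Fin R → Option (Fin k) := fun β => if β.2.val = 0 then none else some β.1

lemma card_not_al_abR {k h R : ℕ} (q q' : Fin k → Fin h) (hq : q ≠ q') :
    ((univ.filter fun β => ¬ al (abR k R) q q' β).card : ℝ)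
      ≤ (1 - 1 / (k : ℝ)) * Fintype.card (Fin k × Fin R) := by
  classical
  obtain ⟨a0, ha0⟩ := Function.ne_iff.mp hq
  have hk : 0 < k := Fin.pos a0
  have h1 : (univ.filter fun β => ¬ al (abR k R) q q' β)
      ⊆ (univ.filter fun a : Fin k => a ≠ a0) ×ˢ (univ : Finset (Fin R)) := by
    intro β hβ
    simp only [mem_filter, mem_univ, true_and, al, not_forall] at hβ
    obtain ⟨a, ha, hne⟩ := hβ
    push Not at hne
    have h2 : a = β.1 := by
      unfold abR at ha
      split_ifs at ha
      simpa using ha.symm
    simp only [mem_product, mem_filter, mem_univ, true_and, and_true]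
    intro h3
    apply ha0
    rw [← h3, ← h2, hne]
  have h2 := card_le_card h1
  rw [card_product, filter_ne', card_erase_of_mem (mem_univ _), card_univ, card_univ,
    Fintype.card_fin, Fintype.card_fin] at h2
  have h3 : ((univ.filter fun β => ¬ al (abR k R) q q' β).card : ℝ) ≤ ((k - 1 : ℕ) : ℝ) * R := by
    exact_mod_cast h2
  refine le_trans h3 (le_of_eq ?_)
  rw [Fintype.card_prod, Fintype.card_fin, Fintype.card_fin]
  have hk' : (k : ℝ) ≠ 0 := by positivity
  push_cast [Nat.cast_sub hk]
  field_simp

lemma card_full_abR {k R : ℕ} (hR : 0 < R) :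
    ((univ.filter fun β => abR k R β = none).card : ℝ)
      ≤ (1 / (R : ℝ)) * Fintype.card (Fin k × Fin R) := by
  classical
  have h1 : (univ.filter fun β => abR k R β = none)
      ⊆ (univ : Finset (Fin k)) ×ˢ ({⟨0, hR⟩} : Finset (Fin R)) := by
    intro β hβ
    simp only [mem_filter, mem_univ, true_and, abR] at hβ
    simp only [mem_product, mem_univ, true_and, mem_singleton]
    split_ifs at hβ with h
    exact Fin.ext h
  have h2 := card_le_card h1
  rw [card_product, card_univ, card_singleton, Fintype.card_fin, mul_one] at h2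
  have h3 : ((univ.filter fun β => abR k R β = none).card : ℝ) ≤ k := by exact_mod_cast h2
  refine le_trans h3 (le_of_eq ?_)
  rw [Fintype.card_prod, Fintype.card_fin, Fintype.card_fin]
  have hR' : (R : ℝ) ≠ 0 := by positivity
  push_cast
  field_simp

lemma card_not_al_self_abR {k h R : ℕ} (hR : 0 < R) (q : Fin k → Fin h) :
    ((univ.filter fun β => ¬ al (abR k R) q q β).card : ℝ)
      ≤ (1 - 1 / (R : ℝ)) * Fintype.card (Fin k × Fin R) := by
  classical
  have h1 : (univ.filter fun β => ¬ al (abR k R) q q β)
      ⊆ (univ : Finset (Fin k)) ×ˢ (univ.filter fun r : Fin R => r ≠ ⟨0, hR⟩) := by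
    intro β hβ
    simp only [mem_filter, mem_univ, true_and, al, not_forall] at hβ
    obtain ⟨a, ha, _⟩ := hβ
    simp only [mem_product, mem_univ, true_and, mem_filter]
    intro h2
    unfold abR at ha
    have h3 : β.2.val = 0 := by rw [h2]
    rw [if_pos h3] at ha
    simp at ha
  have h2 := card_le_card h1
  rw [card_product, filter_ne', card_erase_of_mem (mem_univ _), card_univ, card_univ,
    Fintype.card_fin, Fintype.card_fin] at h2
  have h3 : ((univ.filter fun β => ¬ al (abR k R) q q β).card : ℝ) ≤ k * ((R - 1 : ℕ) : ℝ) := by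
    exact_mod_cast h2
  refine le_trans h3 (le_of_eq ?_)
  rw [Fintype.card_prod, Fintype.card_fin, Fintype.card_fin]
  have hR' : (R : ℝ) ≠ 0 := by positivity
  push_cast [Nat.cast_sub hR]
  field_simp

lemma card_not_al_some {k h : ℕ} (q q' : Fin k → Fin h) (hq : q ≠ q') :
    ((univ.filter fun β => ¬ al (fun β : Fin k => some β) q q' β).card : ℝ)
      ≤ (1 - 1 / (k : ℝ)) * Fintype.card (Fin k) := by
  classical
  obtain ⟨a0, ha0⟩ := Function.ne_iff.mp hq
  have hk : 0 < k := Fin.pos a0
  have h1 : (univ.filter fun β => ¬ al (fun β : Fin k => some β) q q' β)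
      ⊆ (univ.filter fun a : Fin k => a ≠ a0) := by
    intro β hβ
    simp only [mem_filter, mem_univ, true_and, al, not_forall, Option.some.injEq] at hβ
    obtain ⟨a, ha, hne⟩ := hβ
    push Not at hne
    simp only [mem_filter, mem_univ, true_and]
    intro h3
    apply ha0
    rw [← h3, ha, hne]
  have h2 := card_le_card h1
  rw [filter_ne', card_erase_of_mem (mem_univ _), card_univ, Fintype.card_fin] at h2
  have h3 : ((univ.filter fun β => ¬ al (fun β : Fin k => some β) q q' β).card : ℝ)
      ≤ ((k - 1 : ℕ) : ℝ) := by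
    exact_mod_cast h2
  refine le_trans h3 (le_of_eq ?_)
  rw [Fintype.card_fin]
  have hk' : (k : ℝ) ≠ 0 := by positivity
  push_cast [Nat.cast_sub hk]
  field_simp

/-- `(1 - 1 / R) ^ (R L) ≤ 2 ^ (-L)`. -/
lemma pow_decay {R L : ℕ} (hR : 1 ≤ R) : (1 - 1 / (R : ℝ)) ^ (R * L) ≤ (1 / 2 : ℝ) ^ L := by
  have hR' : (1 : ℝ) ≤ R := by exact_mod_cast hR
  have h0 : (0 : ℝ) ≤ 1 - 1 / (R : ℝ) := by
    rw [sub_nonneg, div_le_one (by linarith)]; exact hR'
  rw [pow_mul]
  apply pow_le_pow_left₀ (by positivity)
  calc (1 - 1 / (R : ℝ)) ^ R ≤ (Real.exp (-(1 / (R : ℝ)))) ^ R := by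
        apply pow_le_pow_left₀ h0
        exact Real.one_sub_le_exp_neg _
    _ = Real.exp (-1) := by
        rw [← Real.exp_nat_mul]
        congr 1
        have : (R : ℝ) ≠ 0 := by positivity
        field_simp
    _ ≤ 1 / 2 := by
        rw [Real.exp_neg, one_div]
        apply inv_anti₀ (by norm_num)
        have := Real.add_one_le_exp (1 : ℝ)
        linarith

end Pool.Agent.H525R4.Mono
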