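import Pool.Agent.H525R4.Mono.KSumLower

/-!
# SetDisjointness for monotone data structures, when all functions of one half are free
-/

open Finset

namespace Pool.Agent.H525R4.Mono

/-- The places of the memory: `s` cells and, for either half of the family, `r` free cells. -/
abbrev HPlace (s r : ℕ) : Type := Fin s ⊕ (Fin 2 × Fin r)

/-- A monotone data structure for SetDisjointness on families of `2 h` subsets `F 0 i`, `F 1 i`
(`i < h`) of a universe with `n` elements.  `cell c F` is the real number in cell `c` after the
preprocessing of `F`, an arbitrary nondecreasing function of `F`; the `2 r` free cells contain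
arbitrary nondecreasing functions of one half of the family (`free j c (F j)`).  The query `q` asks
whether `F 0 (q 0)` and `F 1 (q 1)` have a common element.  If the contents of the memory are `M`,
then the query reads the places `reads q M` (they may depend on what was read before: adaptive
queries, even nondeterministic ones; the only condition is `accept_reads`, the answer is determined
by the contents of the places read) and answers yes (there is a common element) iff `accept q M`,
a condition which is nondecreasing in the contents of the memory. -/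
structure HalfDS (h n s r : ℕ) where
  /-- the contents of the cells -/
  cell : Fin s → (Fin 2 → Fin h → Finset (Fin n)) → ℝ
  cell_mono : ∀ c, Monotone (cell c)
  /-- the contents of the free cells -/
  free : Fin 2 → Fin r → (Fin h → Finset (Fin n)) → ℝ
  free_mono : ∀ j c, Monotone (free j c)
  /-- the places read -/
  reads : (Fin 2 → Fin h) → (HPlace s r → ℝ) → Finset (HPlace s r)
  /-- the answer is positive (there is a common element) -/
  accept : (Fin 2 → Fin h) → (HPlace s r → ℝ) → Prop
  accept_mono : ∀ q M M', M ≤ M' → accept q M → accept q M'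
  accept_reads : ∀ q M M', (∀ c ∈ reads q M, M' c = M c) → (accept q M' ↔ accept q M)

/-- The contents of the memory after the preprocessing of `F`. -/
def HalfDS.mem {h n s r : ℕ} (D : HalfDS h n s r) (F : Fin 2 → Fin h → Finset (Fin n)) :
    HPlace s r → ℝ
  | .inl c => D.cell c F
  | .inr c => D.free c.1 c.2 (F c.1)

/-- The answer to the query `q` is positive. -/
def HalfDS.out {h n s r : ℕ} (D : HalfDS h n s r) (F : Fin 2 → Fin h → Finset (Fin n))
    (q : Fin 2 → Fin h) : Prop := D.accept q (D.mem F)

/-- The number of places read for the query `q`. -/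
def HalfDS.cost {h n s r : ℕ} (D : HalfDS h n s r) (F : Fin 2 → Fin h → Finset (Fin n))
    (q : Fin 2 → Fin h) : ℕ := (D.reads q (D.mem F)).card

/-- The two sets of the query have a common element. -/
def HMeet {h n : ℕ} (F : Fin 2 → Fin h → Finset (Fin n)) (q : Fin 2 → Fin h) : Prop :=
  ∃ e, ∀ j, e ∈ F j (q j)

open Classical in
/-- The random monotone data structure `D` (it is `D ϖ` with probability `p ϖ`) solves
SetDisjointness between the two halves with advantage `δ` and `t` probes: every answer is correct
with probability at least `1 / 2 + δ`, and if the two sets are disjoint then the expected number of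
places read is at most `t`. -/
def HalfSolves {h n s r : ℕ} {Ω : Type} [Fintype Ω] (p : Ω → ℝ) (D : Ω → HalfDS h n s r)
    (δ t : ℝ) : Prop :=
  (∀ ϖ, 0 ≤ p ϖ) ∧ ∑ ϖ, p ϖ = 1 ∧
  ∀ (F : Fin 2 → Fin h → Finset (Fin n)) (q : Fin 2 → Fin h),
      1 / 2 + δ ≤ ∑ ϖ with ((D ϖ).out F q ↔ HMeet F q), p ϖ ∧
      (¬ HMeet F q → ∑ ϖ, p ϖ * (D ϖ).cost F q ≤ t)

section Points

variable {h u : ℕ}

/-- The family of the true input. -/
def hone (q : Fin 2 → Fin h) (e : Fin u) : Fin 2 → Fin h → Finset (Fin u) :=
  fun j i => if i = q j then {e} else ∅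

/-- The family of the false input. -/
def hzero (q : Fin 2 → Fin h) (ω : Fin u → Fin 2) : Fin 2 → Fin h → Finset (Fin u) :=
  fun j i => univ.filter fun e => ¬ (i = q j ∧ ω e = j)

lemma hone_le_hzero (q : Fin 2 → Fin h) (ω : Fin u → Fin 2) (q' : Fin 2 → Fin h) (e : Fin u)
    (hal : q' (ω e) ≠ q (ω e)) : hone q' e ≤ hzero q ω := by
  intro j i x hx
  unfold hone at hx
  split_ifs at hx with hi
  · rw [mem_singleton] at hx
    subst hx
    simp only [hzero, mem_filter, mem_univ, true_and]
    rintro ⟨h1, h2⟩
    apply hal
    rw [h2, ← hi, h1]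
  · simp at hx

lemma hmeet_hone (q : Fin 2 → Fin h) (e : Fin u) : HMeet (hone q e) q :=
  ⟨e, fun j => by simp [hone]⟩

lemma not_hmeet_hzero (q : Fin 2 → Fin h) (ω : Fin u → Fin 2) : ¬ HMeet (hzero q ω) q := by
  rintro ⟨e, he⟩
  have := he (ω e)
  simp [hzero] at this

end Points

open Classical in
/-- The inequality for SetDisjointness between the two halves. -/
theorem half_core {h u s r : ℕ} (hh : 2 ≤ h)
    {Ω : Type} [Fintype Ω] (p : Ω → ℝ) (D : Ω → HalfDS h u s r) {δ t : ℝ}
    (hD : HalfSolves p D δ t) {L : ℕ} (hL : 1 ≤ L) :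
    (h : ℝ) ^ 2 * (2 * δ * u - (2 * L : ℕ) * t - u * (s + 2 * r) * (1 / 2 : ℝ) ^ L)
      ≤ u * s := by
  obtain ⟨hp, hp1, hsol⟩ := hD
  have : Nonempty (Fin h) := ⟨⟨0, by omega⟩⟩
  let G : Finset (HPlace s r) := univ.image (Sum.inl : Fin s → HPlace s r)
  have hG : G.card = s := by
    simp only [G]
    rw [card_image_of_injective _ Sum.inl_injective, card_univ, Fintype.card_fin]
  have key := abs_decide (X := Fin 2 → Fin h → Finset (Fin u)) (C := HPlace s r)
    (Q := Fin 2 → Fin h)
    (E := Fin u) (Om := Fin u → Fin 2) (Ω := Ω) hone hzero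
    (fun q q' e ω => q' (ω e) ≠ q (ω e)) p hp hp1
    (fun ϖ c x => (D ϖ).mem x c)
    (fun ϖ c x x' hx => by
      rcases c with c | c
      · exact (D ϖ).cell_mono c hx
      · exact (D ϖ).free_mono c.1 c.2 (hx c.1))
    (fun ϖ q M => (D ϖ).reads q M)
    (fun ϖ q M => (D ϖ).accept q M)
    (fun ϖ q M M' h1 h2 => (D ϖ).accept_mono _ M M' h1 h2)
    (fun ϖ q M M' h1 h2 => ((D ϖ).accept_reads _ M M' h1).mp h2)
    (fun q ω q' e hal => hone_le_hzero q ω q' e hal) (δ := δ)
    (fun q e => by
      refine ⟨_, fun ϖ hϖ => ?_, (hsol (hone q e) q).1⟩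
      rw [mem_filter] at hϖ
      exact hϖ.2.mpr (hmeet_hone q e))
    (fun q ω => by
      refine ⟨_, fun ϖ hϖ => ?_, (hsol (hzero q ω) q).1⟩
      rw [mem_filter] at hϖ
      exact fun h1 => not_hmeet_hzero q ω (hϖ.2.mp h1))
    (t := t)
    (fun q ω => (hsol (hzero q ω) q).2 (not_hmeet_hzero q ω))
    (L := 2 * L) (by omega) (ε := (1 / 2 : ℝ) ^ L) (by positivity)
    (fun q q' hq D hD B hB => kal_hit q q' hq D hD B hB) G
    (fun ϖ c hc q => by
      rcases c with c | c
      · exact absurd (mem_image_of_mem _ (mem_univ c)) hc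
      · -- a function of one half: change the set of the other half
        obtain ⟨j, hj⟩ : ∃ j : Fin 2, c.1 ≠ j := by
          by_cases h0 : c.1 = 0
          · exact ⟨1, by rw [h0]; decide⟩
          · exact ⟨0, h0⟩
        obtain ⟨i, hi⟩ : ∃ i : Fin h, i ≠ q j := by
          by_cases h0 : q j = ⟨0, by omega⟩
          · exact ⟨⟨1, by omega⟩, by rw [h0]; intro h1; rw [Fin.mk.injEq] at h1; omega⟩
          · exact ⟨⟨0, by omega⟩, fun h1 => h0 h1.symm⟩
        refine ⟨Function.update q j i, fun h1 => hi ?_, fun e => ?_⟩
        · have := congrFun h1 j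
          rw [Function.update_self] at this
          exact this.symm
        · apply le_of_eq
          change (D ϖ).free c.1 c.2 (hone q e c.1)
            = (D ϖ).free c.1 c.2 (hone (Function.update q j i) e c.1)
          congr 1
          funext a
          simp only [hone]
          rw [Function.update_of_ne hj])
  rw [hG] at key
  simp only [Fintype.card_prod, Fintype.card_sum, Fintype.card_fin, Fintype.card_fun] at key
  push_cast at key ⊢
  exact key

end Pool.Agent.H525R4.Mono
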