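import Pool.Agent.H525R4.Mono.Half

/-!
# SetDisjointness for monotone data structures, when all functions of one half are free: the bound
-/

open Finset

namespace Pool.Agent.H525R4.Mono

theorem half_lower {N r : ℕ} {δ t : ℝ} (hδ : 0 < δ) (hδ2 : δ ≤ 1 / 2)
    (ht : 1 ≤ t) (hnt : 160 * t * Real.logb 2 ((N + r) / δ) ≤ δ * N) :
    ∃ h n : ℕ, 2 * h * n ≤ N ∧ ∀ (s : ℕ) (Ω : Type) [Fintype Ω] (p : Ω → ℝ)
      (D : Ω → HalfDS h n s r), HalfSolves p D δ t →
        δ * (δ * N / (160 * t * Real.logb 2 ((N + r) / δ))) ^ 2 ≤ s := by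
  rcases Nat.eq_zero_or_pos N with hn0 | hn0
  · subst hn0
    refine ⟨0, 0, by simp, ?_⟩
    intro s Ω _ p D _
    simp
  set lg := Real.logb 2 ((N + r) / δ) with hlgdef
  have hn1 : (1 : ℝ) ≤ N := by exact_mod_cast hn0
  have hr0 : (0 : ℝ) ≤ r := by positivity
  have hlg1 : 1 ≤ lg := by
    rw [hlgdef, Real.le_logb_iff_rpow_le (by norm_num) (by positivity)]
    rw [Real.rpow_one, le_div_iff₀ hδ]
    nlinarith
  have hn160 : (160 : ℝ) ≤ N := by
    have h1 : (1 : ℝ) ≤ t * lg := by nlinarith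
    have h3 : δ * N ≤ N := by nlinarith
    have h2 : 160 * t * lg = 160 * (t * lg) := by ring
    linarith
  have hbig : (4 : ℝ) ≤ (N + r) / δ := by
    rw [le_div_iff₀ hδ]; nlinarith
  have hlg : 2 ≤ lg := by
    rw [hlgdef, Real.le_logb_iff_rpow_le (by norm_num) (by positivity)]
    norm_num
    exact hbig
  have hNk1 : (1 : ℝ) ≤ (N : ℝ) ^ 2 := one_le_pow₀ hn1
  have hpos : 0 < 8 * ((N : ℝ) ^ 2 + 2 * r) / δ := by positivity
  have h1 : Real.logb 2 (8 * ((N : ℝ) ^ 2 + 2 * r) / δ) ≤ 3 + 2 * lg := by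
    have h2 : 8 * ((N : ℝ) ^ 2 + 2 * r) / δ ≤ 8 * (((N : ℝ) + r) / δ) ^ 2 := by
      rw [div_pow, mul_div_assoc]
      apply mul_le_mul_of_nonneg_left _ (by norm_num)
      have h3 : (N : ℝ) ^ 2 + 2 * r ≤ (N + r) ^ 2 := by nlinarith
      have h4 : δ ^ 2 ≤ δ := by nlinarith
      calc ((N : ℝ) ^ 2 + 2 * r) / δ ≤ (N + r) ^ 2 / δ := by gcongr
        _ ≤ (N + r) ^ 2 / δ ^ 2 := by
            apply div_le_div_of_nonneg_left (by positivity) (by positivity) h4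
    calc Real.logb 2 (8 * ((N : ℝ) ^ 2 + 2 * r) / δ)
        ≤ Real.logb 2 (8 * (((N : ℝ) + r) / δ) ^ 2) :=
          Real.logb_le_logb_of_le (by norm_num) hpos h2
      _ = 3 + 2 * lg := by
          rw [Real.logb_mul (by norm_num) (by positivity), Real.logb_pow]
          have : Real.logb 2 8 = 3 := by
            rw [show (8 : ℝ) = 2 ^ (3 : ℝ) by norm_num, Real.logb_rpow (by norm_num) (by norm_num)]
          rw [this]; norm_num [hlgdef]
  obtain ⟨L, hL1, hL2, hL3⟩ : ∃ L : ℕ, 1 ≤ L ∧ 8 * ((N : ℝ) ^ 2 + 2 * r) / δ ≤ 2 ^ L ∧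
      (L : ℝ) ≤ 4 * lg := by
    refine ⟨⌈Real.logb 2 (8 * ((N : ℝ) ^ 2 + 2 * r) / δ)⌉₊, ?_, ?_, ?_⟩
    · rw [Nat.one_le_ceil_iff]
      apply Real.logb_pos (by norm_num)
      rw [lt_div_iff₀ hδ]
      linarith
    · have h3 : Real.logb 2 (8 * ((N : ℝ) ^ 2 + 2 * r) / δ)
          ≤ (⌈Real.logb 2 (8 * ((N : ℝ) ^ 2 + 2 * r) / δ)⌉₊ : ℝ) := Nat.le_ceil _
      rw [Real.logb_le_iff_le_rpow (by norm_num) hpos, Real.rpow_natCast] at h3
      exact h3
    · have h4 : (⌈Real.logb 2 (8 * ((N : ℝ) ^ 2 + 2 * r) / δ)⌉₊ : ℝ)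
          < Real.logb 2 (8 * ((N : ℝ) ^ 2 + 2 * r) / δ) + 1 := by
        apply Nat.ceil_lt_add_one
        apply Real.logb_nonneg (by norm_num)
        rw [le_div_iff₀ hδ]
        linarith
      linarith
  have hLr : (1 : ℝ) ≤ L := by exact_mod_cast hL1
  set u : ℕ := ⌈8 * L * t / δ⌉₊ with hu
  have hu1 : 8 * L * t / δ ≤ u := Nat.le_ceil _
  have hLt : (1 : ℝ) ≤ L * t := by nlinarith
  have hu2 : (u : ℝ) ≤ 10 * L * t / δ := by
    have h2 : (u : ℝ) < 8 * L * t / δ + 1 := Nat.ceil_lt_add_one (by positivity)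
    have h3 : 10 * L * t / δ = 8 * L * t / δ + 2 * (L * t / δ) := by ring
    have h4 : 1 ≤ L * t / δ := by rw [le_div_iff₀ hδ]; linarith
    linarith
  have hupos : (0 : ℝ) < u := lt_of_lt_of_le (by positivity) hu1
  have hu0 : 0 < u := by exact_mod_cast hupos
  have hden : 0 < 160 * t * lg := by positivity
  have h4uX : 4 * (u : ℝ) * δ ≤ 160 * t * lg := by
    rw [le_div_iff₀ hδ] at hu2
    have h5 : 40 * L * t ≤ 160 * t * lg := by
      have h6 : 40 * t * L ≤ 40 * t * (4 * lg) :=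
        mul_le_mul_of_nonneg_left hL3 (by positivity)
      calc 40 * L * t = 40 * t * L := by ring
        _ ≤ 40 * t * (4 * lg) := h6
        _ = 160 * t * lg := by ring
    linarith
  have h4u : 4 * u ≤ N := by
    have h2 : (4 * u : ℝ) ≤ N := by
      have h3 : 4 * (u : ℝ) * δ ≤ N * δ := by linarith
      exact le_of_mul_le_mul_right h3 hδ
    exact_mod_cast h2
  set h : ℕ := N / (2 * u) with hh
  have hh2 : 2 ≤ h := by
    rw [hh, Nat.le_div_iff_mul_le (by omega)]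
    omega
  have h2uh : 2 * u * h ≤ N := Nat.mul_div_le N (2 * u)
  have hn4 : (N : ℝ) ≤ 4 * u * h := by
    have h2 : N < 2 * u * (h + 1) := Nat.lt_mul_div_succ N (by omega)
    have h3 : 2 * u * (h + 1) ≤ 4 * u * h := by nlinarith
    exact_mod_cast (by omega : N ≤ 4 * u * h)
  have hX0 : 0 ≤ δ * N / (160 * t * lg) := by positivity
  refine ⟨h, u, le_trans (le_of_eq (by ring)) h2uh, ?_⟩
  intro s Ω _ p D hD
  by_cases hs : (s : ℝ) ≤ (N : ℝ) ^ 2
  · have key := half_core hh2 p D hD hL1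
    have e1 : ((2 * L : ℕ) : ℝ) * t ≤ δ * u / 4 := by
      push_cast
      rw [div_le_iff₀ hδ] at hu1
      linarith
    have e2 : (u : ℝ) * (s + 2 * r) * (1 / 2 : ℝ) ^ L ≤ δ * u / 8 := by
      have h0 : (1 / 2 : ℝ) ^ L = 1 / 2 ^ L := by rw [one_div_pow]
      have h2L : (0 : ℝ) < 2 ^ L := by positivity
      rw [div_le_iff₀ hδ] at hL2
      rw [h0, mul_one_div, div_le_iff₀ h2L]
      have h3 : 8 * ((s : ℝ) + 2 * r) ≤ 2 ^ L * δ := by linarith
      nlinarith [mul_le_mul_of_nonneg_left h3 hupos.le]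
    have hbr : δ * u ≤ 2 * δ * u - (2 * L : ℕ) * t - u * (s + 2 * r) * (1 / 2 : ℝ) ^ L := by
      have : 0 < δ * u := by positivity
      linarith
    have h5 : (h : ℝ) ^ 2 * (δ * u) ≤ u * s :=
      le_trans (mul_le_mul_of_nonneg_left hbr (by positivity)) key
    have h6 : δ * (h : ℝ) ^ 2 ≤ s := by
      have : (u : ℝ) * (δ * (h : ℝ) ^ 2) ≤ u * s := by linarith
      exact le_of_mul_le_mul_left this hupos
    have h7 : δ * N / (160 * t * lg) ≤ h := by
      rw [div_le_iff₀ hden]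
      calc δ * (N : ℝ) ≤ δ * (4 * u * h) := mul_le_mul_of_nonneg_left hn4 hδ.le
        _ = h * (4 * (u : ℝ) * δ) := by ring
        _ ≤ h * (160 * t * lg) := mul_le_mul_of_nonneg_left h4uX (by positivity)
    exact le_trans (mul_le_mul_of_nonneg_left (pow_le_pow_left₀ hX0 h7 2) hδ.le) h6
  · push Not at hs
    refine le_trans ?_ hs.le
    have h2 : δ * N / (160 * t * lg) ≤ N := by
      rw [div_le_iff₀ hden]
      have h4 : (1 : ℝ) ≤ 160 * t * lg := by nlinarith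
      nlinarith
    have h3 : (δ * N / (160 * t * lg)) ^ 2 ≤ (N : ℝ) ^ 2 := pow_le_pow_left₀ hX0 h2 2
    have h4 : (0 : ℝ) ≤ (δ * N / (160 * t * lg)) ^ 2 := by positivity
    nlinarith

end Pool.Agent.H525R4.Mono
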