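import Pool.Agent.H525R4.Mono.Abs

/-!
# Random labellings: hitting lemmas
-/

open Finset

namespace Pool.Agent.H525R4.Mono

/-- Labellings with prescribed labels at many places are rare. -/
lemma hit_single {E I : Type} [Fintype I] [DecidableEq I] (D : Finset E) (σ : E → I)
    (hσ : Set.InjOn σ D) (b : Bool) (B : Finset (I → Bool))
    (hB : ∀ ω ∈ B, ∀ e ∈ D, ω (σ e) = b) :
    (B.card : ℝ) ≤ (1 / 2 : ℝ) ^ D.card * Fintype.card (I → Bool) := by
  classical
  have h1 := card_avoid (E := I) (B := Bool) (D.image σ) (fun _ β => β = b) (κ := 1 / 2)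
    (L := D.card) (by norm_num) (by norm_num)
    (fun _ _ => by
      have : (univ.filter fun β : Bool => β = b) = {b} := by
        ext β; simp
      rw [this, card_singleton, Fintype.card_bool]
      norm_num)
    (by rw [card_image_of_injOn hσ])
  have h2 : B.card ≤ (univ.filter fun ω : I → Bool => ∀ e ∈ D.image σ, ω e = b).card := by
    apply card_le_card
    intro ω hω
    simp only [mem_filter, mem_univ, true_and, mem_image, forall_exists_index, and_imp,
      forall_apply_eq_imp_iff₂]
    exact hB ω hω
  have h3 : (B.card : ℝ) ≤ ((univ.filter fun ω : I → Bool => ∀ e ∈ D.image σ, ω e = b).card : ℝ) := by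
    exact_mod_cast h2
  refine le_trans h3 (le_trans h1 (le_of_eq ?_))
  norm_num

/-- Labellings which for many disjoint pairs of places are not `(false, true)` are rare. -/
lemma hit_pair {E I : Type} [DecidableEq E] [Fintype I] [DecidableEq I] (σ τ : E → I)
    (D : Finset E) (hσ : Set.InjOn σ D) (hτ : Set.InjOn τ D)
    (hστ : ∀ e ∈ D, ∀ e' ∈ D, σ e ≠ τ e') :
    ((univ.filter fun ω : I → Bool => ∀ e ∈ D, ω (σ e) = true ∨ ω (τ e) = false).card : ℝ)
      ≤ (3 / 4 : ℝ) ^ D.card * Fintype.card (I → Bool) := by
  classical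
  induction D using Finset.induction_on with
  | empty => simp
  | insert e0 D he0 ih =>
    have hσ' : Set.InjOn σ (D : Set E) := hσ.mono (by simp)
    have hτ' : Set.InjOn τ (D : Set E) := hτ.mono (by simp)
    have ih' := ih hσ' hτ' (fun e he e' he' =>
      hστ e (mem_insert_of_mem he) e' (mem_insert_of_mem he'))
    set A : Finset (I → Bool) := univ.filter fun ω : I → Bool =>
      ∀ e ∈ D, ω (σ e) = true ∨ ω (τ e) = false with hA
    set A1 : Finset (I → Bool) := univ.filter fun ω : I → Bool =>
      ∀ e ∈ insert e0 D, ω (σ e) = true ∨ ω (τ e) = false with hA1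
    let N : Finset (I → Bool) := A.filter fun ω => ω (σ e0) = false ∧ ω (τ e0) = true
    -- A1 and N are disjoint parts of A
    have hsub : A1 ∪ N ⊆ A := by
      intro ω hω
      rw [mem_union] at hω
      rcases hω with h | h
      · simp only [hA1, mem_filter, mem_univ, true_and] at h
        simp only [hA, mem_filter, mem_univ, true_and]
        exact fun e he => h e (mem_insert_of_mem he)
      · exact (mem_filter.mp h).1
    have hdisj : Disjoint A1 N := by
      rw [Finset.disjoint_left]
      intro ω h1 h2
      simp only [hA1, mem_filter, mem_univ, true_and] at h1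
      have h3 := (mem_filter.mp h2).2
      rcases h1 e0 (mem_insert_self _ _) with h | h
      · rw [h3.1] at h; exact absurd h (by simp)
      · rw [h3.2] at h; exact absurd h (by simp)
    have hcard : A1.card + N.card ≤ A.card := by
      rw [← card_union_of_disjoint hdisj]
      exact card_le_card hsub
    -- the map into N
    let f : (I → Bool) → (I → Bool) := fun ω =>
      Function.update (Function.update ω (σ e0) false) (τ e0) true
    have hne0 : σ e0 ≠ τ e0 := hστ e0 (mem_insert_self _ _) e0 (mem_insert_self _ _)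
    have hmaps : ∀ ω ∈ A, f ω ∈ N := by
      intro ω hω
      simp only [hA, mem_filter, mem_univ, true_and] at hω
      simp only [N, mem_filter, hA, mem_univ, true_and]
      refine ⟨?_, ?_, ?_⟩
      · intro e he
        have hee : e ≠ e0 := fun h => he0 (h ▸ he)
        have h1 : σ e ≠ σ e0 := fun h => hee (hσ (by simp [he]) (by simp) h)
        have h2 : τ e ≠ τ e0 := fun h => hee (hτ (by simp [he]) (by simp) h)
        have h3 : σ e ≠ τ e0 := hστ e (mem_insert_of_mem he) e0 (mem_insert_self _ _)
        have h4 : τ e ≠ σ e0 :=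
          fun h => hστ e0 (mem_insert_self _ _) e (mem_insert_of_mem he) h.symm
        have h5 : f ω (σ e) = ω (σ e) := by
          simp only [f, Function.update_of_ne h3, Function.update_of_ne h1]
        have h6 : f ω (τ e) = ω (τ e) := by
          simp only [f, Function.update_of_ne h2, Function.update_of_ne h4]
        rw [h5, h6]
        exact hω e he
      · simp only [f, Function.update_of_ne hne0, Function.update_self]
      · simp only [f, Function.update_self]
    have hfib : ∀ ω' ∈ N, (A.filter fun ω => f ω = ω').card ≤ 4 := by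
      intro ω' _
      have h1 : (A.filter fun ω => f ω = ω').card
          ≤ (univ : Finset (Bool × Bool)).card := by
        apply card_le_card_of_injOn (fun ω => (ω (σ e0), ω (τ e0))) (fun _ _ => by simp)
        intro ω1 h1 ω2 h2 h12
        simp only [coe_filter, Set.mem_ofPred_eq] at h1 h2
        simp only [Prod.mk.injEq] at h12
        have hf : f ω1 = f ω2 := by rw [h1.2, h2.2]
        funext i
        by_cases hi1 : i = σ e0
        · rw [hi1]; exact h12.1
        by_cases hi2 : i = τ e0
        · rw [hi2]; exact h12.2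
        have h3 := congrFun hf i
        simp only [f, Function.update_of_ne hi2, Function.update_of_ne hi1] at h3
        exact h3
      simpa using h1
    have h4 : A.card ≤ 4 * N.card := card_le_mul_card_image_of_maps_to hmaps 4 hfib
    have h5 : 4 * A1.card ≤ 3 * A.card := by omega
    have h6 : (4 : ℝ) * A1.card ≤ 3 * A.card := by exact_mod_cast h5
    rw [card_insert_of_notMem he0, pow_succ]
    have h7 : (A1.card : ℝ) ≤ 3 / 4 * A.card := by linarith
    calc (A1.card : ℝ) ≤ 3 / 4 * A.card := h7
      _ ≤ 3 / 4 * ((3 / 4 : ℝ) ^ D.card * Fintype.card (I → Bool)) :=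
          mul_le_mul_of_nonneg_left ih' (by norm_num)
      _ = (3 / 4 : ℝ) ^ D.card * (3 / 4) * Fintype.card (I → Bool) := by ring

lemma hit_pair' {E I : Type} [Fintype I] [DecidableEq I] (σ τ : E → I)
    (D : Finset E) (hσ : Set.InjOn σ D) (hτ : Set.InjOn τ D)
    (hστ : ∀ e ∈ D, ∀ e' ∈ D, σ e ≠ τ e') (B : Finset (I → Bool))
    (hB : ∀ ω ∈ B, ∀ e ∈ D, ω (σ e) = true ∨ ω (τ e) = false) :
    (B.card : ℝ) ≤ (3 / 4 : ℝ) ^ D.card * Fintype.card (I → Bool) := by
  classical
  refine le_trans ?_ (hit_pair σ τ D hσ hτ hστ)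
  rw [Nat.cast_le]
  apply card_le_card
  intro ω hω
  simp only [mem_filter, mem_univ, true_and]
  exact hB ω hω

/-- A set of numbers has a half in which no two numbers differ by exactly `d`. -/
lemma exists_half {u : ℕ} (D : Finset (Fin u)) {d : ℕ} (hd : 0 < d) :
    ∃ D' ⊆ D, D.card ≤ 2 * D'.card ∧ ∀ e ∈ D', ∀ e' ∈ D', (e : ℕ) ≠ e' + d := by
  classical
  have hcol : ∀ b : ℕ, ∀ e ∈ D.filter (fun e : Fin u => (e : ℕ) / d % 2 = b),
      ∀ e' ∈ D.filter (fun e : Fin u => (e : ℕ) / d % 2 = b), (e : ℕ) ≠ e' + d := by
    intro b e he e' he' h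
    simp only [mem_filter] at he he'
    have h1 : (e : ℕ) / d = e' / d + 1 := by
      rw [h, Nat.add_div_right _ hd]
    omega
  have hsplit := card_filter_add_card_filter_not (s := D) (p := fun e : Fin u => (e : ℕ) / d % 2 = 0)
  have h1 : (D.filter fun e : Fin u => ¬ (e : ℕ) / d % 2 = 0)
      = D.filter fun e : Fin u => (e : ℕ) / d % 2 = 1 := by
    apply filter_congr
    intro e _
    omega
  rw [h1] at hsplit
  by_cases hle : (D.filter fun e : Fin u => (e : ℕ) / d % 2 = 0).card
      ≤ (D.filter fun e : Fin u => (e : ℕ) / d % 2 = 1).card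
  · exact ⟨_, filter_subset _ _, by omega, hcol 1⟩
  · exact ⟨_, filter_subset _ _, by omega, hcol 0⟩

end Pool.Agent.H525R4.Mono
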