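import Pool.Agent.H525R4.Mono.Families
import Pool.Agent.H525R4.Mono.Abs

/-!
# (k+1)-SUM-Indexing for monotone data structures with adaptive queries
-/

open Finset

namespace Pool.Agent.H525R4.Mono

/-- The places of the memory: `s` cells and, for every array, `r` free cells. -/
abbrev KPlace (k s r : ℕ) : Type := Fin s ⊕ (Fin k × Fin r)

/-- A monotone data structure for `(k+1)`-SUM-Indexing with `s` cells and `k r` free cells, for `k`
arrays `A 0, …, A (k - 1)` (finite sets of integers).  `cell c A` is the real number in cell `c`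
after the preprocessing, an arbitrary nondecreasing function of the arrays.  The free cells contain
arbitrary nondecreasing functions of `k - 1` of the arrays: `free j c A` does not depend on `A j`.
If the contents of the memory are `M`, then the query `z` reads the places `reads z M` (they may
depend on what was read before: adaptive queries, even nondeterministic ones; the only condition is
`accept_reads`, the answer is determined by the contents of the places read) and answers that `z`
is a sum iff `accept z M`, a condition which is nondecreasing in the contents of the memory. -/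
structure KSumDS (k s r : ℕ) where
  /-- the contents of the cells -/
  cell : Fin s → (Fin k → Finset ℤ) → ℝ
  cell_mono : ∀ c, Monotone (cell c)
  /-- the contents of the free cells which ignore the array `j` -/
  free : Fin k → Fin r → (Fin k → Finset ℤ) → ℝ
  free_mono : ∀ j c, Monotone (free j c)
  free_ignores : ∀ j c A A', (∀ i, i ≠ j → A i = A' i) → free j c A = free j c A'
  /-- the places read -/
  reads : ℤ → (KPlace k s r → ℝ) → Finset (KPlace k s r)
  /-- the answer is positive -/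
  accept : ℤ → (KPlace k s r → ℝ) → Prop
  accept_mono : ∀ z M M', M ≤ M' → accept z M → accept z M'
  accept_reads : ∀ z M M', (∀ c ∈ reads z M, M' c = M c) → (accept z M' ↔ accept z M)

/-- The contents of the memory after the preprocessing of `A`. -/
def KSumDS.mem {k s r : ℕ} (D : KSumDS k s r) (A : Fin k → Finset ℤ) : KPlace k s r → ℝ
  | .inl c => D.cell c A
  | .inr c => D.free c.1 c.2 A

/-- The answer to the query `z` is positive. -/
def KSumDS.out {k s r : ℕ} (D : KSumDS k s r) (A : Fin k → Finset ℤ) (z : ℤ) : Prop :=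
  D.accept z (D.mem A)

/-- The number of places read for the query `z`. -/
def KSumDS.cost {k s r : ℕ} (D : KSumDS k s r) (A : Fin k → Finset ℤ) (z : ℤ) : ℕ :=
  (D.reads z (D.mem A)).card

/-- The integer `z` is a sum of one element of every array. -/
def IsKSum {k : ℕ} (A : Fin k → Finset ℤ) (z : ℤ) : Prop :=
  ∃ x : Fin k → ℤ, (∀ j, x j ∈ A j) ∧ ∑ j, x j = z

open Classical in
/-- The random monotone data structure `D` (it is `D ϖ` with probability `p ϖ`) solves
`(k+1)`-SUM-Indexing with advantage `δ` and `t` probes for `k` arrays of at most `n` integers from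
`0, …, N`: every answer is correct with probability at least `1 / 2 + δ`, and if it is negative then
the expected number of places read is at most `t`. -/
def KSumSolves (n N : ℕ) {k s r : ℕ} {Ω : Type} [Fintype Ω] (p : Ω → ℝ) (D : Ω → KSumDS k s r)
    (δ t : ℝ) : Prop :=
  (∀ ϖ, 0 ≤ p ϖ) ∧ ∑ ϖ, p ϖ = 1 ∧
  ∀ A : Fin k → Finset ℤ, (∀ j, (A j).card ≤ n) → (∀ j, ∀ x ∈ A j, 0 ≤ x ∧ x ≤ N) → ∀ z : ℤ,
      1 / 2 + δ ≤ ∑ ϖ with ((D ϖ).out A z ↔ IsKSum A z), p ϖ ∧
      (¬ IsKSum A z → ∑ ϖ, p ϖ * (D ϖ).cost A z ≤ t)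

section Points

variable {k h u : ℕ}

/-- A pair of vectors as a number: `k` digits in base `2 u`, then `k` digits in base `h`. -/
def enc (h u : ℕ) {k : ℕ} (w v : Fin k → ℕ) : ℕ :=
  ∑ d, w d * (2 * u) ^ (d : ℕ) + (2 * u) ^ k * ∑ a, v a * h ^ (a : ℕ)

lemma enc_add (w v w' v' : Fin k → ℕ) :
    enc h u (w + w') (v + v') = enc h u w v + enc h u w' v' := by
  unfold enc
  simp only [Pi.add_apply, add_mul, sum_add_distrib, mul_add]
  ring

lemma enc_zero : enc h u (0 : Fin k → ℕ) 0 = 0 := by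
  unfold enc
  simp

lemma enc_sum {ι : Type} (s : Finset ι) (w v : ι → Fin k → ℕ) :
    enc h u (∑ i ∈ s, w i) (∑ i ∈ s, v i) = ∑ i ∈ s, enc h u (w i) (v i) := by
  classical
  induction s using Finset.induction_on with
  | empty => simp [enc_zero]
  | insert a s ha ih => rw [sum_insert ha, sum_insert ha, sum_insert ha, enc_add, ih]

lemma low_lt (b : ℕ) (w : Fin k → ℕ) (hw : ∀ d, w d < b) :
    ∑ d, w d * b ^ (d : ℕ) < b ^ k := by
  have := (finFunctionFinEquiv (fun d => (⟨w d, hw d⟩ : Fin b))).isLt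
  rwa [finFunctionFinEquiv_apply] at this

lemma low_inj (b : ℕ) (w w' : Fin k → ℕ) (hw : ∀ d, w d < b) (hw' : ∀ d, w' d < b)
    (heq : ∑ d, w d * b ^ (d : ℕ) = ∑ d, w' d * b ^ (d : ℕ)) : w = w' := by
  have h1 : finFunctionFinEquiv (fun d => (⟨w d, hw d⟩ : Fin b))
      = finFunctionFinEquiv (fun d => (⟨w' d, hw' d⟩ : Fin b)) := by
    apply Fin.ext
    rw [finFunctionFinEquiv_apply, finFunctionFinEquiv_apply]
    exact heq
  have h2 := finFunctionFinEquiv.injective h1
  funext d
  have h3 := congrFun h2 d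
  simpa using h3

lemma enc_inj (w v w' v' : Fin k → ℕ) (hw : ∀ d, w d < 2 * u) (hw' : ∀ d, w' d < 2 * u)
    (hv : ∀ a, v a < h) (hv' : ∀ a, v' a < h) (heq : enc h u w v = enc h u w' v') :
    w = w' ∧ v = v' := by
  unfold enc at heq
  have h1 := low_lt (2 * u) w hw
  have h2 := low_lt (2 * u) w' hw'
  have h3 : ∑ d, w d * (2 * u) ^ (d : ℕ) = ∑ d, w' d * (2 * u) ^ (d : ℕ) := by
    have := congrArg (· % (2 * u) ^ k) heq
    simp only [Nat.add_mul_mod_self_left] at this
    rwa [Nat.mod_eq_of_lt h1, Nat.mod_eq_of_lt h2] at this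
  have h4 : 0 < (2 * u) ^ k := by omega
  have h5 : ∑ a, v a * h ^ (a : ℕ) = ∑ a, v' a * h ^ (a : ℕ) := by
    rw [h3] at heq
    exact Nat.eq_of_mul_eq_mul_left h4 (Nat.add_left_cancel heq)
  exact ⟨low_inj _ _ _ hw hw' h3, low_inj _ _ _ hv hv' h5⟩

lemma enc_lt (w v : Fin k → ℕ) (hw : ∀ d, w d < 2 * u) (hv : ∀ a, v a < h) :
    enc h u w v < (2 * u * h) ^ k := by
  unfold enc
  have h1 := low_lt (2 * u) w hw
  have h2 := low_lt h v hv
  calc ∑ d, w d * (2 * u) ^ (d : ℕ) + (2 * u) ^ k * ∑ a, v a * h ^ (a : ℕ)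
      < (2 * u) ^ k + (2 * u) ^ k * ∑ a, v a * h ^ (a : ℕ) := by omega
    _ = (2 * u) ^ k * (∑ a, v a * h ^ (a : ℕ) + 1) := by ring
    _ ≤ (2 * u) ^ k * h ^ k := Nat.mul_le_mul_left _ h2
    _ = (2 * u * h) ^ k := by rw [mul_pow (2 * u) h k]

/-- The equality digits of the element `e` in the array `j`. -/
def dig (u : ℕ) {k : ℕ} (j : Fin k) (e : ℕ) (d : Fin k) : ℕ :=
  if d.val = 0 then 0 else if j.val = 0 then e else if j = d then u - 1 - e else 0

/-- The equality digits of a query. -/
def tgt (u : ℕ) {k : ℕ} (d : Fin k) : ℕ := if d.val = 0 then 0 else u - 1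

lemma dig_lt (hu : 0 < u) (j : Fin k) {e : ℕ} (he : e < u) (d : Fin k) : dig u j e d < 2 * u := by
  unfold dig
  split_ifs <;> omega

lemma tgt_lt (hu : 0 < u) (d : Fin k) : tgt u d < 2 * u := by
  unfold tgt
  split_ifs <;> omega

lemma sum_dig (hk : 0 < k) (e : Fin k → ℕ) (d : Fin k) :
    ∑ j, dig u j (e j) d = if d.val = 0 then 0 else e ⟨0, hk⟩ + (u - 1 - e d) := by
  unfold dig
  by_cases hd : d.val = 0
  · simp [hd]
  · simp only [hd, if_false]
    have h1 : ∀ j : Fin k, (if j.val = 0 then e j else if j = d then u - 1 - e j else 0)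
        = (if j = (⟨0, hk⟩ : Fin k) then e j else 0) + (if j = d then u - 1 - e j else 0) := by
      intro j
      by_cases hj : j.val = 0
      · have h2 : j = ⟨0, hk⟩ := Fin.ext hj
        have h3 : j ≠ d := fun h => hd (by rw [← h]; exact hj)
        rw [if_pos hj, if_pos h2, if_neg h3, add_zero]
      · have h2 : j ≠ ⟨0, hk⟩ := fun h => hj (by rw [h])
        rw [if_neg hj, if_neg h2, zero_add]
    simp only [h1, sum_add_distrib, sum_ite_eq', mem_univ, if_true]

/-- The integer of the element `(i, e)` in the array `j`. -/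
def kx (h u : ℕ) {k : ℕ} (j : Fin k) (i e : ℕ) : ℤ :=
  ((enc h u (dig u j e) (Pi.single j i) : ℕ) : ℤ)

/-- The integer of the query `q`. -/
def kz (u : ℕ) (q : Fin k → Fin h) : ℤ := ((enc h u (tgt u) (fun a => (q a : ℕ)) : ℕ) : ℤ)

lemma single_lt (hh : 0 < h) (j : Fin k) {i : ℕ} (hi : i < h) (a : Fin k) :
    (Pi.single j i : Fin k → ℕ) a < h := by
  by_cases ha : a = j
  · subst ha; simpa using hi
  · rw [Pi.single_eq_of_ne ha]; exact hh

lemma kx_bound (hu : 0 < u) (hh : 0 < h) (j : Fin k) {i e : ℕ} (hi : i < h) (he : e < u) :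
    0 ≤ kx h u j i e ∧ kx h u j i e ≤ ((2 * u * h) ^ k : ℕ) := by
  unfold kx
  refine ⟨by positivity, ?_⟩
  exact_mod_cast (enc_lt _ _ (dig_lt hu j he) (single_lt hh j hi)).le

/-- The sum of the integers is the query iff the indices are right and the elements are equal. -/
lemma sum_kx_iff (hk : 0 < k) (hu : 0 < u) (q : Fin k → Fin h) (i e : Fin k → ℕ)
    (hi : ∀ j, i j < h) (he : ∀ j, e j < u) :
    ∑ j, kx h u j (i j) (e j) = kz u q ↔ (∀ j, i j = q j) ∧ ∀ j, e j = e ⟨0, hk⟩ := by
  have h1 : ∑ j, kx h u j (i j) (e j)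
      = ((enc h u (∑ j, dig u j (e j)) i : ℕ) : ℤ) := by
    unfold kx
    rw [← Nat.cast_sum, ← enc_sum]
    congr 2
    exact univ_sum_single i
  have h2 : ∀ d, (∑ j, dig u j (e j)) d = if d.val = 0 then 0 else e ⟨0, hk⟩ + (u - 1 - e d) := by
    intro d
    rw [Finset.sum_apply]
    exact sum_dig hk e d
  rw [h1]
  unfold kz
  rw [Nat.cast_inj]
  constructor
  · intro h3
    obtain ⟨h4, h5⟩ := enc_inj _ _ _ _ (fun d => by
      rw [h2]
      have := he ⟨0, hk⟩
      split_ifs <;> omega) (tgt_lt hu) hi (fun a => (q a).isLt) h3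
    refine ⟨fun j => congrFun h5 j, fun j => ?_⟩
    have h6 := congrFun h4 j
    rw [h2] at h6
    unfold tgt at h6
    have h7 := he j
    have h8 := he ⟨0, hk⟩
    by_cases hj : j.val = 0
    · have : j = ⟨0, hk⟩ := Fin.ext hj
      rw [this]
    · rw [if_neg hj, if_neg hj] at h6
      omega
  · rintro ⟨h3, h4⟩
    congr 1
    · funext d
      rw [h2]
      unfold tgt
      have h7 := he d
      have h8 := h4 d
      split_ifs
      · rfl
      · omega
    · funext a
      exact h3 a

/-- The arrays of the true input. -/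
def kone (q : Fin k → Fin h) (e : Fin u) : Fin k → Finset ℤ := fun j => {kx h u j (q j) e}

/-- The arrays of the false input. -/
noncomputable def kzero (q : Fin k → Fin h) (ω : Fin u → Fin k) : Fin k → Finset ℤ := fun j =>
  (univ.filter fun a : Fin h × Fin u => ¬ (a.1 = q j ∧ ω a.2 = j)).image
    fun a => kx h u j a.1 a.2

lemma kone_le_kzero (q : Fin k → Fin h) (ω : Fin u → Fin k) (q' : Fin k → Fin h) (e : Fin u)
    (hal : q' (ω e) ≠ q (ω e)) : kone q' e ≤ kzero q ω := by
  classical
  intro j x hx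
  simp only [kone, mem_singleton] at hx
  simp only [kzero, mem_image, mem_filter, mem_univ, true_and]
  refine ⟨(q' j, e), ?_, hx.symm⟩
  rintro ⟨h1, h2⟩
  simp only at h1 h2
  apply hal
  rw [h2, h1]

lemma isKSum_kone (hk : 0 < k) (q : Fin k → Fin h) (e : Fin u) :
    IsKSum (kone q e) (kz u q) := by
  refine ⟨fun j => kx h u j (q j) e, fun j => by simp [kone], ?_⟩
  rw [sum_kx_iff hk (Fin.pos e) q (fun j => (q j : ℕ)) (fun _ => (e : ℕ)) (fun j => (q j).isLt)
    (fun _ => e.isLt)]
  exact ⟨fun _ => rfl, fun _ => rfl⟩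

lemma not_isKSum_kzero (hk : 0 < k) (hu : 0 < u) (q : Fin k → Fin h) (ω : Fin u → Fin k) :
    ¬ IsKSum (kzero q ω) (kz u q) := by
  classical
  rintro ⟨x, hx, hsum⟩
  have h1 : ∀ j, ∃ a : Fin h × Fin u, ¬ (a.1 = q j ∧ ω a.2 = j) ∧ kx h u j a.1 a.2 = x j := by
    intro j
    have := hx j
    simp only [kzero, mem_image, mem_filter, mem_univ, true_and] at this
    exact this
  choose a ha hax using h1
  have h2 : ∑ j, kx h u j ((a j).1 : ℕ) ((a j).2 : ℕ) = kz u q := by
    rw [← hsum]
    exact sum_congr rfl fun j _ => hax j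
  rw [sum_kx_iff hk hu q (fun j => ((a j).1 : ℕ)) (fun j => ((a j).2 : ℕ))
    (fun j => (a j).1.isLt) (fun j => (a j).2.isLt)] at h2
  obtain ⟨h3, h4⟩ := h2
  apply ha (ω (a ⟨0, hk⟩).2)
  refine ⟨Fin.ext (h3 _), ?_⟩
  have h5 : (a (ω (a ⟨0, hk⟩).2)).2 = (a ⟨0, hk⟩).2 := Fin.ext (h4 _)
  rw [h5]

lemma card_kzero (q : Fin k → Fin h) (ω : Fin u → Fin k) (j : Fin k) :
    (kzero q ω j).card ≤ h * u := by
  classical
  refine le_trans card_image_le (le_trans (card_filter_le _ _) ?_)
  rw [card_univ, Fintype.card_prod, Fintype.card_fin, Fintype.card_fin]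

/-- The hitting property. -/
lemma kal_hit {L : ℕ} (q q' : Fin k → Fin h) (hq : q ≠ q') (D : Finset (Fin u))
    (hD : k * L ≤ D.card) (B : Finset (Fin u → Fin k))
    (hB : ∀ ω ∈ B, ∀ e ∈ D, ¬ q' (ω e) ≠ q (ω e)) :
    (B.card : ℝ) ≤ (1 / 2 : ℝ) ^ L * Fintype.card (Fin u → Fin k) := by
  classical
  obtain ⟨a0, ha0⟩ := Function.ne_iff.mp hq
  have hk : 0 < k := Fin.pos a0
  have hk' : (1 : ℝ) ≤ k := by exact_mod_cast hk
  have hk1 : (0 : ℝ) ≤ 1 - 1 / (k : ℝ) := by
    rw [sub_nonneg, div_le_one (by linarith)]; exact hk'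
  have hbad : ((univ.filter fun β : Fin k => ¬ q' β ≠ q β).card : ℝ)
      ≤ (1 - 1 / (k : ℝ)) * Fintype.card (Fin k) := by
    refine le_trans (le_of_eq ?_) (card_not_al_some q q' hq)
    congr 2
    ext β
    simp only [mem_filter, mem_univ, true_and, al, Option.some.injEq]
    constructor
    · intro h1 h2
      exact h1 (h2 β rfl)
    · intro h1 h2
      apply h1
      rintro a rfl
      exact h2
  have h1 := card_avoid (E := Fin u) (B := Fin k) D (fun _ β => ¬ q' β ≠ q β) (κ := 1 / (k : ℝ))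
    (L := k * L) hk1 (by positivity) (fun _ _ => hbad) hD
  have h2 : B.card ≤ (univ.filter fun ω : Fin u → Fin k => ∀ e ∈ D, ¬ q' (ω e) ≠ q (ω e)).card := by
    apply card_le_card
    intro ω hω
    simp only [mem_filter, mem_univ, true_and]
    exact hB ω hω
  have h3 : (B.card : ℝ)
      ≤ ((univ.filter fun ω : Fin u → Fin k => ∀ e ∈ D, ¬ q' (ω e) ≠ q (ω e)).card : ℝ) := by
    exact_mod_cast h2
  refine le_trans h3 (le_trans (le_trans (le_of_eq ?_) h1)
    (mul_le_mul_of_nonneg_right (pow_decay hk) (by positivity)))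
  congr! 2
  ext ω
  simp only [mem_filter, mem_univ, true_and]

end Points

open Classical in
/-- The inequality for `(k+1)`-SUM-Indexing. -/
theorem ksum_core {k h u n N s r : ℕ} (hk : 0 < k) (hh : 2 ≤ h) (hu : 0 < u) (hn : h * u ≤ n)
    (hN : (2 * u * h) ^ k ≤ N) {Ω : Type} [Fintype Ω] (p : Ω → ℝ) (D : Ω → KSumDS k s r) {δ t : ℝ}
    (hD : KSumSolves n N p D δ t) {L : ℕ} (hL : 1 ≤ L) :
    (h : ℝ) ^ k * (2 * δ * u - (k * L : ℕ) * t - u * (s + k * r) * (1 / 2 : ℝ) ^ L)
      ≤ u * s := by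
  obtain ⟨hp, hp1, hsol⟩ := hD
  have : Nonempty (Fin h) := ⟨⟨0, by omega⟩⟩
  have : Nonempty (Fin k) := ⟨⟨0, hk⟩⟩
  have hbx : ∀ (j : Fin k) (i e : ℕ), i < h → e < u → (0 : ℤ) ≤ kx h u j i e ∧ kx h u j i e ≤ N := by
    intro j i e hi he
    obtain ⟨h1, h2⟩ := kx_bound hu (by omega) j hi he
    refine ⟨h1, le_trans h2 ?_⟩
    exact_mod_cast hN
  have h1le : 1 ≤ n := by
    refine le_trans ?_ hn
    have : 0 < h * u := by positivity
    omega
  have hone : ∀ (q : Fin k → Fin h) (e : Fin u), _ := fun q e => hsol (kone q e)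
    (by intro j; simp only [kone, card_singleton]; exact h1le)
    (by
      intro j x hx
      simp only [kone, mem_singleton] at hx
      rw [hx]; exact hbx _ _ _ (q j).isLt e.isLt) (kz u q)
  have hzero : ∀ (q : Fin k → Fin h) (ω : Fin u → Fin k), _ := fun q ω => hsol (kzero q ω)
    (fun j => le_trans (card_kzero q ω j) hn)
    (by
      intro j x hx
      simp only [kzero, mem_image, mem_filter, mem_univ, true_and] at hx
      obtain ⟨a, _, rfl⟩ := hx
      exact hbx _ _ _ a.1.isLt a.2.isLt) (kz u q)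
  let G : Finset (KPlace k s r) := univ.image (Sum.inl : Fin s → KPlace k s r)
  have hG : G.card = s := by
    simp only [G]
    rw [card_image_of_injective _ Sum.inl_injective, card_univ, Fintype.card_fin]
  have key := abs_decide (X := Fin k → Finset ℤ) (C := KPlace k s r) (Q := Fin k → Fin h)
    (E := Fin u) (Om := Fin u → Fin k) (Ω := Ω) kone kzero
    (fun q q' e ω => q' (ω e) ≠ q (ω e)) p hp hp1
    (fun ϖ c x => (D ϖ).mem x c)
    (fun ϖ c x x' hx => by
      rcases c with c | c
      · exact (D ϖ).cell_mono c hx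
      · exact (D ϖ).free_mono c.1 c.2 hx)
    (fun ϖ q M => (D ϖ).reads (kz u q) M)
    (fun ϖ q M => (D ϖ).accept (kz u q) M)
    (fun ϖ q M M' h1 h2 => (D ϖ).accept_mono _ M M' h1 h2)
    (fun ϖ q M M' h1 h2 => ((D ϖ).accept_reads _ M M' h1).mp h2)
    (fun q ω q' e hal => kone_le_kzero q ω q' e hal) (δ := δ)
    (fun q e => by
      refine ⟨_, fun ϖ hϖ => ?_, (hone q e).1⟩
      rw [mem_filter] at hϖ
      exact hϖ.2.mpr (isKSum_kone hk q e))
    (fun q ω => by
      refine ⟨_, fun ϖ hϖ => ?_, (hzero q ω).1⟩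
      rw [mem_filter] at hϖ
      exact fun h1 => not_isKSum_kzero hk hu q ω (hϖ.2.mp h1))
    (t := t)
    (fun q ω => (hzero q ω).2 (not_isKSum_kzero hk hu q ω))
    (L := k * L) (by nlinarith) (ε := (1 / 2 : ℝ) ^ L) (by positivity)
    (fun q q' hq D hD B hB => kal_hit q q' hq D hD B hB) G
    (fun ϖ c hc q => by
      rcases c with c | c
      · exact absurd (mem_image_of_mem _ (mem_univ c)) hc
      · -- a function which ignores an array: change the block of this array
        obtain ⟨i, hi⟩ : ∃ i : Fin h, i ≠ q c.1 := by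
          by_cases h0 : q c.1 = ⟨0, by omega⟩
          · exact ⟨⟨1, by omega⟩, by rw [h0]; intro h1; rw [Fin.mk.injEq] at h1; omega⟩
          · exact ⟨⟨0, by omega⟩, fun h1 => h0 h1.symm⟩
        refine ⟨Function.update q c.1 i, fun h1 => hi ?_, fun e => ?_⟩
        · have := congrFun h1 c.1
          rw [Function.update_self] at this
          exact this.symm
        · apply le_of_eq
          refine (D ϖ).free_ignores c.1 c.2 _ _ ?_
          intro j hj
          simp only [kone]
          rw [Function.update_of_ne hj])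
  rw [hG] at key
  simp only [Fintype.card_prod, Fintype.card_sum, Fintype.card_fin, Fintype.card_fun] at key
  push_cast at key ⊢
  exact key

end Pool.Agent.H525R4.Mono
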