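import Pool.Agent.H525R4.Mono.KSum

/-!
# (k+1)-SUM-Indexing for monotone data structures with adaptive queries: the lower bound
-/

open Finset

namespace Pool.Agent.H525R4.Mono

lemma pow_add_ge {n r : ℝ} (hn : 1 ≤ n) (hr : 0 ≤ r) (k : ℕ) :
    n ^ k + k * r ≤ (n + r) ^ k := by
  induction k with
  | zero => simp
  | succ k ih =>
    have h1 : (1 : ℝ) ≤ n ^ k := one_le_pow₀ hn
    have h2 : (0 : ℝ) ≤ k := by positivity
    have h3 : (0 : ℝ) ≤ (n + r) ^ k := by positivity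
    calc n ^ (k + 1) + ((k + 1 : ℕ) : ℝ) * r = n ^ k * n + k * r + r := by push_cast; ring
      _ ≤ (n ^ k + k * r) * (n + r) := by
          nlinarith [mul_nonneg h2 hr, mul_nonneg (sub_nonneg.mpr h1) hr,
            mul_nonneg (mul_nonneg h2 hr) (sub_nonneg.mpr hn), mul_nonneg (mul_nonneg h2 hr) hr]
      _ ≤ (n + r) ^ k * (n + r) := mul_le_mul_of_nonneg_right ih (by linarith)
      _ = (n + r) ^ (k + 1) := (pow_succ _ _).symm

theorem ksum_lower {k n N s r : ℕ} (hk : 2 ≤ k) {δ t : ℝ} (hδ : 0 < δ) (hδ2 : δ ≤ 1 / 2)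
    (ht : 1 ≤ t) (hnt : 40 * k ^ 2 * t * Real.logb 2 ((n + r) / δ) ≤ δ * n) (hN : n ^ k ≤ N)
    {Ω : Type} [Fintype Ω] (p : Ω → ℝ) (D : Ω → KSumDS k s r) (hD : KSumSolves n N p D δ t) :
    δ * (δ * n / (40 * k ^ 2 * t * Real.logb 2 ((n + r) / δ))) ^ k ≤ s := by
  rcases Nat.eq_zero_or_pos n with hn0 | hn0
  · subst hn0
    have h1 : (0 : ℝ) ^ k = 0 := zero_pow (by omega)
    simp [h1]
  set lg := Real.logb 2 ((n + r) / δ) with hlgdef
  have hn1 : (1 : ℝ) ≤ n := by exact_mod_cast hn0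
  have hr0 : (0 : ℝ) ≤ r := by positivity
  have hkr : (2 : ℝ) ≤ k := by exact_mod_cast hk
  have hk4 : (4 : ℝ) ≤ (k : ℝ) ^ 2 := by nlinarith
  have hlg1 : 1 ≤ lg := by
    rw [hlgdef, Real.le_logb_iff_rpow_le (by norm_num) (by positivity)]
    rw [Real.rpow_one, le_div_iff₀ hδ]
    nlinarith
  have hk4t : (4 : ℝ) ≤ (k : ℝ) ^ 2 * t := by nlinarith
  have hn160 : (160 : ℝ) ≤ n := by
    have h1 : (4 : ℝ) ≤ (k : ℝ) ^ 2 * t * lg := by nlinarith
    have h2 : 40 * (k : ℝ) ^ 2 * t * lg = 40 * ((k : ℝ) ^ 2 * t * lg) := by ring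
    have h3 : δ * n ≤ n := by nlinarith
    linarith
  have hbig : (4 : ℝ) ≤ (n + r) / δ := by
    rw [le_div_iff₀ hδ]; nlinarith
  have hlg : 2 ≤ lg := by
    rw [hlgdef, Real.le_logb_iff_rpow_le (by norm_num) (by positivity)]
    norm_num
    exact hbig
  have hklg : 4 ≤ (k : ℝ) * lg := by nlinarith
  have hNk1 : (1 : ℝ) ≤ (n : ℝ) ^ k := one_le_pow₀ hn1
  have hpos : 0 < 8 * ((n : ℝ) ^ k + k * r) / δ := by positivity
  have h1 : Real.logb 2 (8 * ((n : ℝ) ^ k + k * r) / δ) ≤ 3 + k * lg := by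
    have h2 : 8 * ((n : ℝ) ^ k + k * r) / δ ≤ 8 * (((n : ℝ) + r) / δ) ^ k := by
      rw [div_pow, mul_div_assoc]
      apply mul_le_mul_of_nonneg_left _ (by norm_num)
      have h3 : (n : ℝ) ^ k + k * r ≤ (n + r) ^ k := pow_add_ge hn1 hr0 k
      have h4 : δ ^ k ≤ δ := by
        calc δ ^ k ≤ δ ^ 1 := pow_le_pow_of_le_one hδ.le (by linarith) (by omega)
          _ = δ := pow_one δ
      calc ((n : ℝ) ^ k + k * r) / δ ≤ (n + r) ^ k / δ := by gcongr
        _ ≤ (n + r) ^ k / δ ^ k := by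
            apply div_le_div_of_nonneg_left (by positivity) (by positivity) h4
    calc Real.logb 2 (8 * ((n : ℝ) ^ k + k * r) / δ)
        ≤ Real.logb 2 (8 * (((n : ℝ) + r) / δ) ^ k) :=
          Real.logb_le_logb_of_le (by norm_num) hpos h2
      _ = 3 + k * lg := by
          rw [Real.logb_mul (by norm_num) (by positivity), Real.logb_pow]
          have : Real.logb 2 8 = 3 := by
            rw [show (8 : ℝ) = 2 ^ (3 : ℝ) by norm_num, Real.logb_rpow (by norm_num) (by norm_num)]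
          rw [this]
  obtain ⟨L, hL1, hL2, hL3⟩ : ∃ L : ℕ, 1 ≤ L ∧ 8 * ((n : ℝ) ^ k + k * r) / δ ≤ 2 ^ L ∧
      (L : ℝ) ≤ 2 * k * lg := by
    refine ⟨⌈Real.logb 2 (8 * ((n : ℝ) ^ k + k * r) / δ)⌉₊, ?_, ?_, ?_⟩
    · rw [Nat.one_le_ceil_iff]
      apply Real.logb_pos (by norm_num)
      rw [lt_div_iff₀ hδ]
      have : (0 : ℝ) ≤ k * r := by positivity
      linarith
    · have h3 : Real.logb 2 (8 * ((n : ℝ) ^ k + k * r) / δ)
          ≤ (⌈Real.logb 2 (8 * ((n : ℝ) ^ k + k * r) / δ)⌉₊ : ℝ) := Nat.le_ceil _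
      rw [Real.logb_le_iff_le_rpow (by norm_num) hpos, Real.rpow_natCast] at h3
      exact h3
    · have h4 : (⌈Real.logb 2 (8 * ((n : ℝ) ^ k + k * r) / δ)⌉₊ : ℝ)
          < Real.logb 2 (8 * ((n : ℝ) ^ k + k * r) / δ) + 1 := by
        apply Nat.ceil_lt_add_one
        apply Real.logb_nonneg (by norm_num)
        rw [le_div_iff₀ hδ]
        have : (0 : ℝ) ≤ k * r := by positivity
        linarith
      linarith
  have hLr : (1 : ℝ) ≤ L := by exact_mod_cast hL1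
  set u : ℕ := ⌈4 * k * L * t / δ⌉₊ with hu
  have hu1 : 4 * k * L * t / δ ≤ u := Nat.le_ceil _
  have hLt : (1 : ℝ) ≤ L * t := by nlinarith
  have hkLt : (1 : ℝ) ≤ k * L * t := by
    have : (1 : ℝ) ≤ k * (L * t) := by nlinarith
    linarith
  have hu2 : (u : ℝ) ≤ 5 * k * L * t / δ := by
    have h2 : (u : ℝ) < 4 * k * L * t / δ + 1 := Nat.ceil_lt_add_one (by positivity)
    have h3 : 5 * k * L * t / δ = 4 * k * L * t / δ + k * L * t / δ := by ring
    have h4 : 1 ≤ k * L * t / δ := by rw [le_div_iff₀ hδ]; linarith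
    linarith
  have hupos : (0 : ℝ) < u := lt_of_lt_of_le (by positivity) hu1
  have hu0 : 0 < u := by exact_mod_cast hupos
  have hden : 0 < 40 * (k : ℝ) ^ 2 * t * lg := by positivity
  have h4uX : 4 * (u : ℝ) * δ ≤ 40 * (k : ℝ) ^ 2 * t * lg := by
    rw [le_div_iff₀ hδ] at hu2
    have h5 : 20 * (k : ℝ) * L * t ≤ 40 * (k : ℝ) ^ 2 * t * lg := by
      have h6 : 20 * (k : ℝ) * t * L ≤ 20 * (k : ℝ) * t * (2 * k * lg) :=
        mul_le_mul_of_nonneg_left hL3 (by positivity)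
      calc 20 * (k : ℝ) * L * t = 20 * (k : ℝ) * t * L := by ring
        _ ≤ 20 * (k : ℝ) * t * (2 * k * lg) := h6
        _ = 40 * (k : ℝ) ^ 2 * t * lg := by ring
    linarith
  have h4u : 4 * u ≤ n := by
    have h2 : (4 * u : ℝ) ≤ n := by
      have h3 : 4 * (u : ℝ) * δ ≤ n * δ := by linarith
      exact le_of_mul_le_mul_right h3 hδ
    exact_mod_cast h2
  set h : ℕ := n / (2 * u) with hh
  have hh2 : 2 ≤ h := by
    rw [hh, Nat.le_div_iff_mul_le (by omega)]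
    omega
  have h2uh : 2 * u * h ≤ n := Nat.mul_div_le n (2 * u)
  have hhu : h * u ≤ n := by
    refine le_trans ?_ h2uh
    nlinarith [Nat.zero_le (u * h)]
  have hn4 : (n : ℝ) ≤ 4 * u * h := by
    have h2 : n < 2 * u * (h + 1) := Nat.lt_mul_div_succ n (by omega)
    have h3 : 2 * u * (h + 1) ≤ 4 * u * h := by nlinarith
    exact_mod_cast (by omega : n ≤ 4 * u * h)
  have hNk : (2 * u * h) ^ k ≤ N := le_trans (Nat.pow_le_pow_left h2uh k) hN
  have hX0 : 0 ≤ δ * n / (40 * k ^ 2 * t * lg) := by positivity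
  by_cases hs : (s : ℝ) ≤ (n : ℝ) ^ k
  · have key := ksum_core (by omega : 0 < k) hh2 hu0 hhu hNk p D hD hL1
    have e1 : ((k * L : ℕ) : ℝ) * t ≤ δ * u / 4 := by
      push_cast
      rw [div_le_iff₀ hδ] at hu1
      linarith
    have e2 : (u : ℝ) * (s + k * r) * (1 / 2 : ℝ) ^ L ≤ δ * u / 8 := by
      have h0 : (1 / 2 : ℝ) ^ L = 1 / 2 ^ L := by rw [one_div_pow]
      have h2L : (0 : ℝ) < 2 ^ L := by positivity
      rw [div_le_iff₀ hδ] at hL2
      rw [h0, mul_one_div, div_le_iff₀ h2L]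
      have h3 : 8 * ((s : ℝ) + k * r) ≤ 2 ^ L * δ := by linarith
      nlinarith [mul_le_mul_of_nonneg_left h3 hupos.le]
    have hbr : δ * u ≤ 2 * δ * u - (k * L : ℕ) * t - u * (s + k * r) * (1 / 2 : ℝ) ^ L := by
      have : 0 < δ * u := by positivity
      linarith
    have h5 : (h : ℝ) ^ k * (δ * u) ≤ u * s :=
      le_trans (mul_le_mul_of_nonneg_left hbr (by positivity)) key
    have h6 : δ * (h : ℝ) ^ k ≤ s := by
      have : (u : ℝ) * (δ * (h : ℝ) ^ k) ≤ u * s := by linarith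
      exact le_of_mul_le_mul_left this hupos
    have h7 : δ * n / (40 * k ^ 2 * t * lg) ≤ h := by
      rw [div_le_iff₀ hden]
      calc δ * (n : ℝ) ≤ δ * (4 * u * h) := mul_le_mul_of_nonneg_left hn4 hδ.le
        _ = h * (4 * (u : ℝ) * δ) := by ring
        _ ≤ h * (40 * (k : ℝ) ^ 2 * t * lg) := mul_le_mul_of_nonneg_left h4uX (by positivity)
    exact le_trans (mul_le_mul_of_nonneg_left (pow_le_pow_left₀ hX0 h7 k) hδ.le) h6
  · push Not at hs
    refine le_trans ?_ hs.le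
    have h2 : δ * n / (40 * k ^ 2 * t * lg) ≤ n := by
      rw [div_le_iff₀ hden]
      have h3 : (4 : ℝ) ≤ (k : ℝ) ^ 2 * t * lg := by nlinarith
      have h4 : (1 : ℝ) ≤ 40 * (k : ℝ) ^ 2 * t * lg := by
        have : 40 * (k : ℝ) ^ 2 * t * lg = 40 * ((k : ℝ) ^ 2 * t * lg) := by ring
        linarith
      nlinarith
    have h3 : (δ * n / (40 * k ^ 2 * t * lg)) ^ k ≤ (n : ℝ) ^ k := pow_le_pow_left₀ hX0 h2 k
    have h4 : (0 : ℝ) ≤ (δ * n / (40 * k ^ 2 * t * lg)) ^ k := by positivity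
    nlinarith

end Pool.Agent.H525R4.Mono
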