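import Pool.Agent.H525R4.Mono.KSum

/-!
# (k+1)-SUM-Indexing for monotone data structures: the table of all sums
-/

open Finset

namespace Pool.Agent.H525R4.Mono

lemma IsKSum.mono {k : ℕ} {A A' : Fin k → Finset ℤ} (hA : A ≤ A') {z : ℤ} (h : IsKSum A z) :
    IsKSum A' z := by
  obtain ⟨x, hx, hz⟩ := h
  exact ⟨x, fun j => hA j (hx j), hz⟩

open Classical in
/-- The table of all sums: cell `c` says whether `c` is a sum; one probe. -/
noncomputable def tableDS (k N : ℕ) : KSumDS k (k * N + 1) 0 where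
  cell c A := if IsKSum A ((c : ℕ) : ℤ) then 1 else 0
  cell_mono c A A' hA := by
    by_cases h : IsKSum A ((c : ℕ) : ℤ)
    · simp only [h, h.mono hA, if_true, le_refl]
    · simp only [h, if_false]
      split_ifs <;> norm_num
  free _ c _ := Fin.elim0 c
  free_mono _ c := Fin.elim0 c
  free_ignores _ c := Fin.elim0 c
  reads z _ := univ.filter fun c : KPlace k (k * N + 1) 0 =>
    ∃ c' : Fin (k * N + 1), c = Sum.inl c' ∧ ((c' : ℕ) : ℤ) = z
  accept z M := ∃ c' : Fin (k * N + 1), ((c' : ℕ) : ℤ) = z ∧ 1 ≤ M (Sum.inl c')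
  accept_mono z M M' hM := by
    rintro ⟨c, hc, h⟩
    exact ⟨c, hc, le_trans h (hM _)⟩
  accept_reads z M M' h := by
    constructor
    · rintro ⟨c, hc, h1⟩
      refine ⟨c, hc, ?_⟩
      rwa [← h (Sum.inl c) (by
        simp only [mem_filter, mem_univ, true_and]
        exact ⟨c, rfl, hc⟩)]
    · rintro ⟨c, hc, h1⟩
      refine ⟨c, hc, ?_⟩
      rwa [h (Sum.inl c) (by
        simp only [mem_filter, mem_univ, true_and]
        exact ⟨c, rfl, hc⟩)]

/-- The table of all sums solves `(k+1)`-SUM-Indexing without errors and with one probe. -/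
theorem table_solves (k n N : ℕ) :
    KSumSolves n N (fun _ : Unit => (1 : ℝ)) (fun _ => tableDS k N) (1 / 2) 1 := by
  classical
  refine ⟨fun _ => by norm_num, by simp, ?_⟩
  intro A _ hA z
  have hout : (tableDS k N).out A z ↔ IsKSum A z := by
    unfold KSumDS.out KSumDS.mem tableDS
    simp only
    constructor
    · rintro ⟨c, rfl, h1⟩
      by_contra h2
      rw [if_neg h2] at h1
      norm_num at h1
    · intro h
      obtain ⟨x, hx, hz⟩ := h
      have h0 : 0 ≤ z := by
        rw [← hz]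
        exact sum_nonneg fun j _ => (hA j _ (hx j)).1
      have h1 : z ≤ ((k * N : ℕ) : ℤ) := by
        rw [← hz]
        calc ∑ j, x j ≤ ∑ _j : Fin k, (N : ℤ) := sum_le_sum fun j _ => (hA j _ (hx j)).2
          _ = ((k * N : ℕ) : ℤ) := by simp
      have h2 : z.toNat < k * N + 1 := by omega
      have h3 : ((z.toNat : ℕ) : ℤ) = z := Int.toNat_of_nonneg h0
      refine ⟨⟨z.toNat, h2⟩, h3, ?_⟩
      have h4 : IsKSum A (((⟨z.toNat, h2⟩ : Fin (k * N + 1)) : ℕ) : ℤ) := by
        rw [show (((⟨z.toNat, h2⟩ : Fin (k * N + 1)) : ℕ) : ℤ) = z from h3]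
        exact ⟨x, hx, hz⟩
      rw [if_pos h4]
  constructor
  · rw [filter_true_of_mem (fun _ _ => hout)]
    norm_num
  · intro _
    have h1 : (tableDS k N).cost A z ≤ 1 := by
      unfold KSumDS.cost tableDS
      simp only
      rw [card_le_one]
      intro a ha b hb
      simp only [mem_filter, mem_univ, true_and] at ha hb
      obtain ⟨c, rfl, hc⟩ := ha
      obtain ⟨d, rfl, hd⟩ := hb
      congr 1
      apply Fin.ext
      have : ((c : ℕ) : ℤ) = ((d : ℕ) : ℤ) := by rw [hc, hd]
      exact_mod_cast this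
    simp only [univ_unique, sum_singleton, one_mul]
    exact_mod_cast h1

end Pool.Agent.H525R4.Mono
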