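import Pool.Agent.H525R4.Mono.Model

/-!
# Monotone data structures for SetIntersection: the lower bound for all query times
-/

open Finset

namespace Pool.Agent.H525R4.Mono

/-- The logarithm: a natural number `L` with `8 N ^ 2 / δ ≤ 2 ^ L`. -/
lemma exists_log {N : ℕ} {δ : ℝ} (hN : 2 ≤ N) (hδ : 0 < δ) (hδ2 : δ ≤ 1 / 2) :
    ∃ L : ℕ, 1 ≤ L ∧ 8 * (N : ℝ) ^ 2 / δ ≤ 2 ^ L ∧ (L : ℝ) ≤ 4 * Real.logb 2 (N / δ) ∧
      2 ≤ Real.logb 2 (N / δ) := by
  have hNr : (2 : ℝ) ≤ N := by exact_mod_cast hN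
  have hNd : (4 : ℝ) ≤ N / δ := by rw [le_div_iff₀ hδ]; nlinarith
  have hlg : 2 ≤ Real.logb 2 (N / δ) := by
    rw [Real.le_logb_iff_rpow_le (by norm_num) (by linarith)]
    norm_num
    exact hNd
  have hpos : 0 < 8 * (N : ℝ) ^ 2 / δ := by positivity
  have h1 : Real.logb 2 (8 * (N : ℝ) ^ 2 / δ) ≤ 3 + 2 * Real.logb 2 (N / δ) := by
    have h2 : 8 * (N : ℝ) ^ 2 / δ ≤ 8 * (N / δ) ^ 2 := by
      rw [div_pow, mul_div_assoc]
      apply mul_le_mul_of_nonneg_left _ (by norm_num)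
      apply div_le_div_of_nonneg_left (by positivity) (by positivity)
      nlinarith
    calc Real.logb 2 (8 * (N : ℝ) ^ 2 / δ) ≤ Real.logb 2 (8 * (N / δ) ^ 2) :=
          Real.logb_le_logb_of_le (by norm_num) hpos h2
      _ = 3 + 2 * Real.logb 2 (N / δ) := by
          rw [Real.logb_mul (by norm_num) (by positivity), Real.logb_pow]
          have : Real.logb 2 8 = 3 := by
            rw [show (8 : ℝ) = 2 ^ (3 : ℝ) by norm_num, Real.logb_rpow (by norm_num) (by norm_num)]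
          rw [this]; norm_num
  refine ⟨⌈Real.logb 2 (8 * (N : ℝ) ^ 2 / δ)⌉₊, ?_, ?_, ?_, hlg⟩
  · rw [Nat.one_le_ceil_iff]
    apply Real.logb_pos (by norm_num)
    rw [lt_div_iff₀ hδ]; nlinarith
  · have h3 : Real.logb 2 (8 * (N : ℝ) ^ 2 / δ) ≤ (⌈Real.logb 2 (8 * (N : ℝ) ^ 2 / δ)⌉₊ : ℝ) :=
      Nat.le_ceil _
    rw [Real.logb_le_iff_le_rpow (by norm_num) hpos, Real.rpow_natCast] at h3
    exact h3
  · have h4 : (⌈Real.logb 2 (8 * (N : ℝ) ^ 2 / δ)⌉₊ : ℝ) < Real.logb 2 (8 * (N : ℝ) ^ 2 / δ) + 1 := by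
      apply Nat.ceil_lt_add_one
      apply Real.logb_nonneg (by norm_num)
      rw [le_div_iff₀ hδ]; nlinarith
    linarith

/-- **The lower bound.** -/
theorem lower {N : ℕ} (hN : 2 ≤ N) {δ C T : ℝ} (hδ : 0 < δ) (hδ2 : δ ≤ 1 / 2) (hC : 1 ≤ C)
    (hT : 1 ≤ T) :
    ∃ m n : ℕ, m * n ≤ N ∧ ∀ (s : ℕ) (Ω : Type) [Fintype Ω] (p : Ω → ℝ) (D : Ω → MonoDS m n s),
      Solves p D δ C T →
        δ ^ 3 * (N : ℝ) ^ 2 ≤ 10 ^ 5 * C ^ 2 * T * s * (Real.logb 2 (N / δ)) ^ 3 := by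
  obtain ⟨L, hL1, hL2, hL3, hlg⟩ := exists_log hN hδ hδ2
  set lg := Real.logb 2 (N / δ) with hlgdef
  have hNr : (2 : ℝ) ≤ N := by exact_mod_cast hN
  have hLr : (1 : ℝ) ≤ L := by exact_mod_cast hL1
  have hL3' : (L : ℝ) ^ 3 ≤ 64 * lg ^ 3 := by
    calc (L : ℝ) ^ 3 ≤ (4 * lg) ^ 3 := pow_le_pow_left₀ (by positivity) hL3 3
      _ = 64 * lg ^ 3 := by ring
  have hlg3 : (8 : ℝ) ≤ lg ^ 3 := by
    calc (8 : ℝ) = 2 ^ 3 := by norm_num
      _ ≤ lg ^ 3 := pow_le_pow_left₀ (by norm_num) hlg 3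
  set t : ℝ := C * T with ht
  have ht1 : 1 ≤ t := by rw [ht]; nlinarith
  -- it is enough to show the bound with `L`
  have conv : ∀ s : ℕ, δ ^ 3 * (N : ℝ) ^ 2 ≤ 1296 * L ^ 3 * C * t * s →
      δ ^ 3 * (N : ℝ) ^ 2 ≤ 10 ^ 5 * C ^ 2 * T * s * lg ^ 3 := by
    intro s hs
    refine le_trans hs ?_
    have h0 : (0 : ℝ) ≤ 1296 * C * t * s := by positivity
    calc 1296 * (L : ℝ) ^ 3 * C * t * s = (1296 * C * t * s) * L ^ 3 := by ring
      _ ≤ (1296 * C * t * s) * (64 * lg ^ 3) := mul_le_mul_of_nonneg_left hL3' h0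
      _ = 82944 * (C ^ 2 * T * s * lg ^ 3) := by rw [ht]; ring
      _ ≤ 100000 * (C ^ 2 * T * s * lg ^ 3) := by
          apply mul_le_mul_of_nonneg_right (by norm_num)
          positivity
      _ = 10 ^ 5 * C ^ 2 * T * s * lg ^ 3 := by ring
  -- large space
  have large : ∀ s : ℕ, (N : ℝ) ^ 2 < s → δ ^ 3 * (N : ℝ) ^ 2 ≤ 1296 * L ^ 3 * C * t * s := by
    intro s hs
    have h1 : δ ^ 3 ≤ 1 := pow_le_one₀ hδ.le (by linarith)
    have h2 : (1 : ℝ) ≤ 1296 * L ^ 3 * C * t := by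
      have : (1 : ℝ) ≤ L ^ 3 := one_le_pow₀ hLr
      have h3 : (1 : ℝ) ≤ L ^ 3 * C := by nlinarith
      have h4 : (1 : ℝ) ≤ L ^ 3 * C * t := by nlinarith
      nlinarith
    have h5 : (0 : ℝ) ≤ s := by positivity
    nlinarith [mul_le_mul_of_nonneg_right h1 (by positivity : (0 : ℝ) ≤ (N : ℝ) ^ 2),
      mul_le_mul_of_nonneg_right h2 h5]
  -- the choice for a given number of probes
  have build : ∀ t' : ℝ, 1 ≤ t' → 2 * ⌈8 * L * t' / δ⌉₊ ≤ N →
      ∃ h n : ℕ, 0 < h ∧ 0 < n ∧ 2 * h * n ≤ N ∧ 8 * L * t' / δ ≤ n ∧ (n : ℝ) ≤ 9 * L * t' / δ ∧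
        (N : ℝ) ≤ 4 * n * h := by
    intro t' ht' hle
    set n : ℕ := ⌈8 * L * t' / δ⌉₊ with hn
    have hn1 : 8 * L * t' / δ ≤ n := Nat.le_ceil _
    have hn0 : 0 < n := by
      have : (0 : ℝ) < n := lt_of_lt_of_le (by positivity) hn1
      exact_mod_cast this
    have hh0 : 0 < N / (2 * n) := Nat.div_pos hle (by omega)
    refine ⟨N / (2 * n), n, hh0, hn0, ?_, hn1, ?_, ?_⟩
    · have := Nat.div_mul_le_self N (2 * n)
      calc 2 * (N / (2 * n)) * n = N / (2 * n) * (2 * n) := by ring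
        _ ≤ N := this
    · have h1 : (n : ℝ) < 8 * L * t' / δ + 1 := Nat.ceil_lt_add_one (by positivity)
      have h2 : 9 * L * t' / δ = 8 * L * t' / δ + L * t' / δ := by ring
      have h3 : 1 ≤ L * t' / δ := by rw [le_div_iff₀ hδ]; nlinarith
      linarith
    · have h1 : N < 2 * n * (N / (2 * n) + 1) := Nat.lt_mul_div_succ N (by omega)
      have h2 : 2 * n * (N / (2 * n) + 1) ≤ 4 * n * (N / (2 * n)) := by nlinarith
      have h3 : N ≤ 4 * n * (N / (2 * n)) := by omega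
      exact_mod_cast h3
  by_cases hA : 2 * ⌈8 * L * t / δ⌉₊ ≤ N
  · -- the main range
    obtain ⟨h, n, hh, _, hmn, hn1, hn2, hh1⟩ := build t ht1 hA
    refine ⟨2 * h, n, hmn, ?_⟩
    intro s Ω _ p D hD
    obtain ⟨hp, hp1, hsol⟩ := hD
    apply conv
    by_cases hs : (s : ℝ) ≤ N ^ 2
    · exact main_range hδ hδ2 ht1 hC hL1 hL2 hs hn1 hn2 hh hh1 p D hp hp1
        (fun F i j hij => (hsol F i j hij).1)
        (fun F i j hij => by
          have := (hsol F i j hij).2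
          rw [ht]; linarith)
    · exact large s (not_le.mp hs)
  · -- very large query times
    set t0 : ℝ := δ * (N - 2) / (16 * L) with ht0
    have ht0t : t0 ≤ t := by
      by_contra hcon
      push Not at hcon
      apply hA
      have h1 : 8 * L * t / δ ≤ (N - 2) / 2 := by
        rw [ht0, lt_div_iff₀ (by positivity)] at hcon
        rw [div_le_iff₀ hδ]
        nlinarith
      have h2 : (⌈8 * L * t / δ⌉₊ : ℝ) < 8 * L * t / δ + 1 := Nat.ceil_lt_add_one (by positivity)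
      have h3 : (2 * ⌈8 * L * t / δ⌉₊ : ℝ) ≤ N := by linarith
      exact_mod_cast h3
    by_cases h1t0 : 1 ≤ t0
    · have hB : 2 * ⌈8 * L * t0 / δ⌉₊ ≤ N := by
        have h1 : 8 * L * t0 / δ = (N - 2) / 2 := by
          rw [ht0]; field_simp; ring
        have h2 : (⌈8 * L * t0 / δ⌉₊ : ℝ) < 8 * L * t0 / δ + 1 :=
          Nat.ceil_lt_add_one (by positivity)
        have h3 : (2 * ⌈8 * L * t0 / δ⌉₊ : ℝ) ≤ N := by linarith
        exact_mod_cast h3
      obtain ⟨h, n, hh, _, hmn, hn1, hn2, hh1⟩ := build t0 h1t0 hB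
      refine ⟨2 * h, n, hmn, ?_⟩
      intro s Ω _ p D hD
      obtain ⟨hp, hp1, hsol⟩ := hD
      apply conv
      by_cases hs : (s : ℝ) ≤ N ^ 2
      · by_cases hst : (s : ℝ) ≤ t0
        · have := main_range hδ hδ2 h1t0 hC hL1 hL2 hs hn1 hn2 hh hh1 p D hp hp1
            (fun F i j hij => (hsol F i j hij).1)
            (fun F i j hij => by
              have h1 : ∑ ϖ, p ϖ * ((D ϖ).cost F i j : ℝ) ≤ ∑ ϖ, p ϖ * t0 := by
                apply sum_le_sum
                intro ϖ _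
                apply mul_le_mul_of_nonneg_left _ (hp ϖ)
                refine le_trans ?_ hst
                have : (D ϖ).cost F i j ≤ s := by
                  have := card_le_univ ((D ϖ).reads i j ((D ϖ).mem F))
                  rwa [Fintype.card_fin] at this
                exact_mod_cast this
              rw [← sum_mul, hp1, one_mul] at h1
              have h2 : 0 ≤ C * ((F i ∩ F j).card : ℝ) := by positivity
              linarith)
          refine le_trans this ?_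
          have h2 : (0 : ℝ) ≤ 1296 * L ^ 3 * C * s := by positivity
          nlinarith [mul_le_mul_of_nonneg_left ht0t h2]
        · push Not at hst
          -- `s t ≥ t0 ^ 2`
          have h1 : t0 ^ 2 ≤ s * t := by
            have h0 : 0 ≤ t0 := by linarith
            nlinarith
          have h2 : δ * (N : ℝ) ≤ 32 * L * t0 := by
            have h3 : t0 * (16 * L) = δ * (N - 2) := by
              rw [ht0]; field_simp
            have h4 : (4 : ℝ) ≤ N := by
              have : 16 * (L : ℝ) ≤ δ * (N - 2) := by nlinarith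
              nlinarith
            nlinarith
          have h5 : (δ * (N : ℝ)) ^ 2 ≤ (32 * L * t0) ^ 2 :=
            pow_le_pow_left₀ (by positivity) h2 2
          have h6 : δ ^ 2 * (N : ℝ) ^ 2 ≤ 1024 * L ^ 2 * (s * t) := by
            calc δ ^ 2 * (N : ℝ) ^ 2 = (δ * (N : ℝ)) ^ 2 := by ring
              _ ≤ (32 * L * t0) ^ 2 := h5
              _ = 1024 * L ^ 2 * t0 ^ 2 := by ring
              _ ≤ 1024 * L ^ 2 * (s * t) := mul_le_mul_of_nonneg_left h1 (by positivity)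
          have h7 : δ ^ 3 * (N : ℝ) ^ 2 ≤ δ ^ 2 * (N : ℝ) ^ 2 := by
            have : 0 ≤ δ ^ 2 * (N : ℝ) ^ 2 := by positivity
            nlinarith
          have h8 : 1024 * (L : ℝ) ^ 2 * (s * t) ≤ 1296 * L ^ 3 * C * t * s := by
            have h9 : (0 : ℝ) ≤ L ^ 2 * (s * t) := by positivity
            have h10 : (1 : ℝ) ≤ L * C := by nlinarith
            nlinarith [mul_le_mul_of_nonneg_left h10 h9]
          linarith
      · exact large s (not_le.mp hs)
    · -- small `N`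
      push Not at h1t0
      refine ⟨2 * 1, 1, by omega, ?_⟩
      intro s Ω _ p D hD
      obtain ⟨hp, hp1, hsol⟩ := hD
      apply conv
      have hs1 : 1 ≤ s := cells_pos one_pos one_pos hδ p D hp hp1
        (fun F i j hij => (hsol F i j hij).1)
      have hs1' : (1 : ℝ) ≤ s := by exact_mod_cast hs1
      have h1 : δ * (N - 2) < 16 * L := by
        rw [ht0, div_lt_one (by positivity)] at h1t0
        exact h1t0
      have h2 : δ * (N : ℝ) ≤ 17 * L := by nlinarith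
      have h5 : (δ * (N : ℝ)) ^ 2 ≤ (17 * L) ^ 2 := pow_le_pow_left₀ (by positivity) h2 2
      have h7 : δ ^ 3 * (N : ℝ) ^ 2 ≤ (δ * (N : ℝ)) ^ 2 := by
        have : 0 ≤ (δ * (N : ℝ)) ^ 2 := by positivity
        nlinarith
      have h8 : (17 * (L : ℝ)) ^ 2 ≤ 1296 * L ^ 3 * C * t * s := by
        have h9 : (0 : ℝ) ≤ (L : ℝ) ^ 2 := by positivity
        have h10 : (1 : ℝ) ≤ L * C := by nlinarith
        have h11 : (1 : ℝ) ≤ L * C * t := by nlinarith
        have h12 : (1 : ℝ) ≤ L * C * t * s := by nlinarith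
        nlinarith [mul_le_mul_of_nonneg_left h12 h9]
      linarith

end Pool.Agent.H525R4.Mono
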