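import Pool.Agent.H525R4.Mono.Bounds

/-!
# Monotone data structures for SetIntersection: the model and the lower bound
-/

open Finset

namespace Pool.Agent.H525R4.Mono

/-- A monotone data structure with `s` cells for families of `m` subsets of a universe with `n`
elements.  `cell c F` is the real number in cell `c` after the preprocessing of the family `F`, an
arbitrary nondecreasing function of `F`.  If the contents of the memory are `M`, then the query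
`(i, j)` reads the cells `reads i j M` and reports the set `answer i j M`; the cells to be read may
depend on what was read before (adaptive queries, even nondeterministic ones: the only condition is
`answer_reads`, the answer is determined by the contents of the cells read), and the answer is a
nondecreasing function of the memory. -/
structure MonoDS (m n s : ℕ) where
  /-- the contents of the cells -/
  cell : Fin s → (Fin m → Finset (Fin n)) → ℝ
  cell_mono : ∀ c, Monotone (cell c)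
  /-- the cells read -/
  reads : Fin m → Fin m → (Fin s → ℝ) → Finset (Fin s)
  /-- the set reported -/
  answer : Fin m → Fin m → (Fin s → ℝ) → Finset (Fin n)
  answer_mono : ∀ i j, Monotone (answer i j)
  answer_reads : ∀ i j M M', (∀ c ∈ reads i j M, M' c = M c) → answer i j M' = answer i j M

/-- The contents of the memory after the preprocessing of `F`. -/
def MonoDS.mem {m n s : ℕ} (D : MonoDS m n s) (F : Fin m → Finset (Fin n)) : Fin s → ℝ :=
  fun c => D.cell c F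

/-- The set reported for the query `(i, j)` on the family `F`. -/
def MonoDS.out {m n s : ℕ} (D : MonoDS m n s) (F : Fin m → Finset (Fin n)) (i j : Fin m) :
    Finset (Fin n) := D.answer i j (D.mem F)

/-- The number of cells read for the query `(i, j)` on the family `F`. -/
def MonoDS.cost {m n s : ℕ} (D : MonoDS m n s) (F : Fin m → Finset (Fin n)) (i j : Fin m) : ℕ :=
  (D.reads i j (D.mem F)).card

/-- The random monotone data structure `D` (it is `D ϖ` with probability `p ϖ`) solves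
SetIntersection with advantage `δ` and query time `C * (T + op)`: for every family and every query
`(i, j)`, `i ≠ j`, every element is reported correctly with probability at least `1 / 2 + δ`, and
the expected number of cells read is at most `C * (T + op)`, `op` the size of the intersection. -/
def Solves {m n s : ℕ} {Ω : Type} [Fintype Ω] (p : Ω → ℝ) (D : Ω → MonoDS m n s)
    (δ C T : ℝ) : Prop :=
  (∀ ϖ, 0 ≤ p ϖ) ∧ ∑ ϖ, p ϖ = 1 ∧
  ∀ (F : Fin m → Finset (Fin n)) (i j : Fin m), i ≠ j →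
    (∀ e, 1 / 2 + δ ≤ ∑ ϖ with (e ∈ (D ϖ).out F i j ↔ e ∈ F i ∩ F j), p ϖ) ∧
    ∑ ϖ, p ϖ * (D ϖ).cost F i j ≤ C * (T + (F i ∩ F j).card)

/-- The inequality for a structure on `2 h` sets. -/
theorem solves_core {h n s : ℕ} (hh : 0 < h) {Ω : Type} [Fintype Ω] (p : Ω → ℝ)
    (D : Ω → MonoDS (2 * h) n s) {δ t b : ℝ} (hδ : 0 ≤ δ) (hb : 0 ≤ b)
    (hp : ∀ ϖ, 0 ≤ p ϖ) (hp1 : ∑ ϖ, p ϖ = 1)
    (hcor : ∀ (F : Fin (2 * h) → Finset (Fin n)) (i j : Fin (2 * h)), i ≠ j →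
      ∀ e, 1 / 2 + δ ≤ ∑ ϖ with (e ∈ (D ϖ).out F i j ↔ e ∈ F i ∩ F j), p ϖ)
    (hcost : ∀ (F : Fin (2 * h) → Finset (Fin n)) (i j : Fin (2 * h)), i ≠ j →
      ∑ ϖ, p ϖ * (D ϖ).cost F i j ≤ t + b * (F i ∩ F j).card)
    {L R : ℕ} (hL : 1 ≤ L) (hR : 1 ≤ R) :
    (h : ℝ) ^ 2 * (2 * δ * ((1 - 1 / (R : ℝ)) * n) - (2 * L : ℕ) * (t + b * (1 / (R : ℝ) * n))
      - n * s * (1 / 2 : ℝ) ^ L) ≤ (R * L : ℕ) * s := by
  classical
  have hne : ∀ q : Fin 2 → Fin h, (idx 0 (q 0) : Fin (2 * h)) ≠ idx 1 (q 1) := by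
    intro q heq
    have := (idx_inj.mp heq).1
    exact absurd this (by decide)
  have hall : ∀ (F : Fin (2 * h) → Finset (Fin n)) (q : Fin 2 → Fin h) (e : Fin n),
      (∀ a, e ∈ F (idx a (q a))) ↔ e ∈ F (idx 0 (q 0)) ∩ F (idx 1 (q 1)) := by
    intro F q e
    rw [Fin.forall_fin_two, mem_inter]
  have key := report_core (k := 2) (h := h) (n := n) (C := Fin s) (Ω := Ω) (by norm_num) hh p hp hp1
    (fun ϖ c F => (D ϖ).cell c F) (fun ϖ c => (D ϖ).cell_mono c)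
    (fun ϖ q M => (D ϖ).reads (idx 0 (q 0)) (idx 1 (q 1)) M)
    (fun ϖ q e M => e ∈ (D ϖ).answer (idx 0 (q 0)) (idx 1 (q 1)) M)
    (fun ϖ q e M M' hMM he => (D ϖ).answer_mono _ _ hMM he)
    (fun ϖ q e M M' hMM he => by rw [(D ϖ).answer_reads _ _ M M' hMM] at he; exact he)
    (δ := δ) hδ
    (fun F q e => by
      refine ⟨_, fun ϖ hϖ => ?_, hcor F _ _ (hne q) e⟩
      rw [mem_filter] at hϖ
      rw [hall]
      exact hϖ.2)
    (t := t) (b := b) hb
    (fun F q => by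
      have h1 := hcost F _ _ (hne q)
      have h2 : (univ.filter fun e => ∀ a, e ∈ F (idx a (q a)))
          = F (idx 0 (q 0)) ∩ F (idx 1 (q 1)) := by
        ext e
        rw [mem_filter, hall]
        simp
      rw [h2]
      exact h1) hL hR
  simpa [Fintype.card_fin] using key

/-- The bound in the main range. -/
theorem main_range {N n h s L : ℕ} {δ t b : ℝ} (hδ : 0 < δ) (hδ2 : δ ≤ 1 / 2)
    (ht : 1 ≤ t) (hb : 1 ≤ b) (hL : 1 ≤ L) (hLN : 8 * (N : ℝ) ^ 2 / δ ≤ 2 ^ L) (hs : (s : ℝ) ≤ N ^ 2)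
    (hn1 : 8 * L * t / δ ≤ n) (hn2 : (n : ℝ) ≤ 9 * L * t / δ) (hh : 0 < h)
    (hh1 : (N : ℝ) ≤ 4 * n * h) {Ω : Type} [Fintype Ω] (p : Ω → ℝ)
    (D : Ω → MonoDS (2 * h) n s)
    (hp : ∀ ϖ, 0 ≤ p ϖ) (hp1 : ∑ ϖ, p ϖ = 1)
    (hcor : ∀ (F : Fin (2 * h) → Finset (Fin n)) (i j : Fin (2 * h)), i ≠ j →
      ∀ e, 1 / 2 + δ ≤ ∑ ϖ with (e ∈ (D ϖ).out F i j ↔ e ∈ F i ∩ F j), p ϖ)
    (hcost : ∀ (F : Fin (2 * h) → Finset (Fin n)) (i j : Fin (2 * h)), i ≠ j →
      ∑ ϖ, p ϖ * (D ϖ).cost F i j ≤ t + b * (F i ∩ F j).card) :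
    δ ^ 3 * (N : ℝ) ^ 2 ≤ 1296 * L ^ 3 * b * t * s := by
  set R : ℕ := ⌈8 * L * b / δ⌉₊ with hRdef
  have hLr : (1 : ℝ) ≤ L := by exact_mod_cast hL
  have h16 : (16 : ℝ) ≤ 8 * L * b / δ := by
    rw [le_div_iff₀ hδ]; nlinarith
  have hR1 : 8 * L * b / δ ≤ R := Nat.le_ceil _
  have hR2 : (R : ℝ) ≤ 9 * L * b / δ := by
    have h1 : (R : ℝ) < 8 * L * b / δ + 1 := Nat.ceil_lt_add_one (by positivity)
    have h2 : 9 * L * b / δ = 8 * L * b / δ + L * b / δ := by ring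
    have h3 : 1 ≤ L * b / δ := by rw [le_div_iff₀ hδ]; nlinarith
    linarith
  have hR16 : (16 : ℝ) ≤ R := le_trans h16 hR1
  have hRnat : 1 ≤ R := by
    have : (1 : ℝ) ≤ R := by linarith
    exact_mod_cast this
  have hRpos : (0 : ℝ) < R := by linarith
  have key := solves_core hh p D hδ.le (by linarith : (0 : ℝ) ≤ b) hp hp1 hcor hcost hL hRnat
  have hnpos : (0 : ℝ) < n := by
    refine lt_of_lt_of_le ?_ hn1
    positivity
  -- the four error terms
  have e1 : 2 * δ * ((1 - 1 / (R : ℝ)) * n) ≥ 2 * δ * n - δ * n / 8 := by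
    have h1 : 1 / (R : ℝ) ≤ 1 / 16 := by
      apply one_div_le_one_div_of_le (by norm_num) hR16
    have h2 : 0 ≤ δ * n := by positivity
    nlinarith [mul_le_mul_of_nonneg_left h1 h2]
  have e2 : (2 * L : ℕ) * t ≤ δ * n / 4 := by
    push_cast
    rw [div_le_iff₀ hδ] at hn1
    linarith
  have e3 : ((2 * L : ℕ) : ℝ) * (b * (1 / (R : ℝ) * n)) ≤ δ * n / 4 := by
    push_cast
    have h1 : 8 * L * b ≤ R * δ := by rwa [div_le_iff₀ hδ] at hR1
    have h2 : 2 * (L : ℝ) * (b * (1 / (R : ℝ) * n)) = (8 * L * b) * n / (4 * R) := by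
      field_simp; ring
    rw [h2, div_le_iff₀ (by positivity)]
    nlinarith [mul_le_mul_of_nonneg_right h1 hnpos.le]
  have e4 : (n : ℝ) * s * (1 / 2 : ℝ) ^ L ≤ δ * n / 8 := by
    have h0 : (1 / 2 : ℝ) ^ L = 1 / 2 ^ L := by rw [one_div_pow]
    have h2L : (0 : ℝ) < 2 ^ L := by positivity
    rw [div_le_iff₀ hδ] at hLN
    rw [h0, mul_one_div, div_le_iff₀ h2L]
    have h3 : 8 * (s : ℝ) ≤ 2 ^ L * δ := by linarith
    nlinarith [mul_le_mul_of_nonneg_left h3 hnpos.le]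
  have hbr : δ * n ≤ 2 * δ * ((1 - 1 / (R : ℝ)) * n)
      - (2 * L : ℕ) * (t + b * (1 / (R : ℝ) * n)) - n * s * (1 / 2 : ℝ) ^ L := by
    have h0 : 0 < δ * n := by positivity
    rw [mul_add]
    linarith
  have hk2 : (h : ℝ) ^ 2 * (δ * n) ≤ (R * L : ℕ) * s :=
    le_trans (mul_le_mul_of_nonneg_left hbr (by positivity)) key
  have hRL : ((R * L : ℕ) : ℝ) * s ≤ 9 * L ^ 2 * b * s / δ := by
    push_cast
    calc (R : ℝ) * L * s ≤ (9 * L * b / δ) * L * s := by gcongr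
      _ = 9 * L ^ 2 * b * s / δ := by ring
  have hk3 : (h : ℝ) ^ 2 * (δ * n) * δ ≤ 9 * L ^ 2 * b * s := by
    have := le_trans hk2 hRL
    rwa [le_div_iff₀ hδ] at this
  have hN2 : (N : ℝ) ^ 2 ≤ (4 * n * h) ^ 2 := pow_le_pow_left₀ (by positivity) hh1 2
  have hk4 : δ ^ 2 * (N : ℝ) ^ 2 ≤ 144 * L ^ 2 * b * s * n := by
    have h1 : δ ^ 2 * (N : ℝ) ^ 2 ≤ δ ^ 2 * (4 * n * h) ^ 2 :=
      mul_le_mul_of_nonneg_left hN2 (by positivity)
    have h2 : δ ^ 2 * (4 * n * h) ^ 2 = 16 * n * ((h : ℝ) ^ 2 * (δ * n) * δ) := by ring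
    have h3 : 16 * (n : ℝ) * ((h : ℝ) ^ 2 * (δ * n) * δ) ≤ 16 * n * (9 * L ^ 2 * b * s) :=
      mul_le_mul_of_nonneg_left hk3 (by positivity)
    calc δ ^ 2 * (N : ℝ) ^ 2 ≤ 16 * n * (9 * L ^ 2 * b * s) := by rw [h2] at h1; linarith
      _ = 144 * L ^ 2 * b * s * n := by ring
  have hk5 : δ ^ 2 * (N : ℝ) ^ 2 ≤ 144 * L ^ 2 * b * s * (9 * L * t / δ) :=
    le_trans hk4 (mul_le_mul_of_nonneg_left hn2 (by positivity))
  have hk6 : 144 * (L : ℝ) ^ 2 * b * s * (9 * L * t / δ) = 1296 * L ^ 3 * b * t * s / δ := by ring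
  rw [hk6, le_div_iff₀ hδ] at hk5
  calc δ ^ 3 * (N : ℝ) ^ 2 = δ ^ 2 * (N : ℝ) ^ 2 * δ := by ring
    _ ≤ _ := hk5

/-- A data structure without cells does not exist. -/
theorem cells_pos {h n s : ℕ} (hh : 0 < h) (hn : 0 < n) {δ : ℝ} (hδ : 0 < δ) {Ω : Type} [Fintype Ω]
    (p : Ω → ℝ) (D : Ω → MonoDS (2 * h) n s)
    (hp : ∀ ϖ, 0 ≤ p ϖ) (hp1 : ∑ ϖ, p ϖ = 1)
    (hcor : ∀ (F : Fin (2 * h) → Finset (Fin n)) (i j : Fin (2 * h)), i ≠ j →
      ∀ e, 1 / 2 + δ ≤ ∑ ϖ with (e ∈ (D ϖ).out F i j ↔ e ∈ F i ∩ F j), p ϖ) : 1 ≤ s := by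
  by_contra hs
  have hs0 : s = 0 := by omega
  subst hs0
  have hcost : ∀ (F : Fin (2 * h) → Finset (Fin n)) (i j : Fin (2 * h)), i ≠ j →
      ∑ ϖ, p ϖ * (D ϖ).cost F i j ≤ 0 + 0 * ((F i ∩ F j).card : ℝ) := by
    intro F i j _
    have : ∀ ϖ, (D ϖ).cost F i j = 0 := by
      intro ϖ
      unfold MonoDS.cost
      rw [card_eq_zero, eq_empty_iff_forall_notMem]
      intro c; exact Fin.elim0 c
    simp [this]
  have key := solves_core hh p D hδ.le le_rfl hp hp1 hcor hcost (L := 1) (R := 2) le_rfl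
    (by norm_num)
  have hh' : (0 : ℝ) < h := by exact_mod_cast hh
  have hn' : (0 : ℝ) < n := by exact_mod_cast hn
  have : (0 : ℝ) < (h : ℝ) ^ 2 * (δ * n) := by positivity
  norm_num at key
  nlinarith

end Pool.Agent.H525R4.Mono
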