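import Pool.Agent.H525R4.Mono.SumLower

/-!
# 3SUM-Indexing for one set
-/

open Finset

namespace Pool.Agent.H525R4.Mono

/-- A monotone data structure for 3SUM-Indexing with `s` cells, for one set `S` of integers.
`cell c S` is the real number in cell `c` after the preprocessing, an arbitrary nondecreasing
function of `S`.  If the contents of the memory are `M`, then the query `z` reads the cells
`reads z M` (they may depend on what was read before: adaptive queries, even nondeterministic ones;
the only condition is `accept_reads`, the answer is determined by the contents of the cells read)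
and answers that `z` is a sum of two elements iff `accept z M`, a condition which is nondecreasing
in the contents of the memory. -/
structure SetDS (s : ℕ) where
  /-- the contents of the cells -/
  cell : Fin s → Finset ℤ → ℝ
  cell_mono : ∀ c, Monotone (cell c)
  /-- the cells read -/
  reads : ℤ → (Fin s → ℝ) → Finset (Fin s)
  /-- the answer is positive -/
  accept : ℤ → (Fin s → ℝ) → Prop
  accept_mono : ∀ z M M', M ≤ M' → accept z M → accept z M'
  accept_reads : ∀ z M M', (∀ c ∈ reads z M, M' c = M c) → (accept z M' ↔ accept z M)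

/-- The contents of the memory after the preprocessing of `S`. -/
def SetDS.mem {s : ℕ} (D : SetDS s) (S : Finset ℤ) : Fin s → ℝ := fun c => D.cell c S

/-- The answer to the query `z` is positive. -/
def SetDS.out {s : ℕ} (D : SetDS s) (S : Finset ℤ) (z : ℤ) : Prop := D.accept z (D.mem S)

/-- The number of cells read for the query `z`. -/
def SetDS.cost {s : ℕ} (D : SetDS s) (S : Finset ℤ) (z : ℤ) : ℕ := (D.reads z (D.mem S)).card

open Classical in
/-- The random monotone data structure `D` (it is `D ϖ` with probability `p ϖ`) solves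
3SUM-Indexing with advantage `δ` and `t` probes for sets of at most `n` integers from `0, …, N`:
every answer is correct with probability at least `1 / 2 + δ`, and if it is negative then the
expected number of cells read is at most `t`. -/
def SetSolves (n N : ℕ) {s : ℕ} {Ω : Type} [Fintype Ω] (p : Ω → ℝ) (D : Ω → SetDS s)
    (δ t : ℝ) : Prop :=
  (∀ ϖ, 0 ≤ p ϖ) ∧ ∑ ϖ, p ϖ = 1 ∧
  ∀ S : Finset ℤ, S.card ≤ n → (∀ x ∈ S, 0 ≤ x ∧ x ≤ N) → ∀ z : ℤ,
      1 / 2 + δ ≤ ∑ ϖ with ((D ϖ).out S z ↔ IsSum S S z), p ϖ ∧
      (¬ IsSum S S z → ∑ ϖ, p ϖ * (D ϖ).cost S z ≤ t)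

/-- The set made of the two arrays. -/
def join (K : ℕ) (A B : Finset ℤ) : Finset ℤ := A ∪ B.image fun y => y + (2 * K + 1)

lemma join_mono {K : ℕ} {A A' B B' : Finset ℤ} (hA : A ⊆ A') (hB : B ⊆ B') :
    join K A B ⊆ join K A' B' := union_subset_union hA (image_subset_image hB)

lemma isSum_join {K : ℕ} {A B : Finset ℤ} (hA : ∀ x ∈ A, 0 ≤ x ∧ x ≤ K)
    (hB : ∀ y ∈ B, 0 ≤ y ∧ y ≤ K) {z : ℤ} (hz : 0 ≤ z ∧ z ≤ 2 * K) :
    IsSum (join K A B) (join K A B) (z + (2 * K + 1)) ↔ IsSum A B z := by
  constructor
  · rintro ⟨x, hx, y, hy, hxy⟩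
    simp only [join, mem_union, mem_image] at hx hy
    rcases hx with hx | ⟨x', hx', rfl⟩
    · rcases hy with hy | ⟨y', hy', rfl⟩
      · have h1 := hA x hx
        have h2 := hA y hy
        omega
      · exact ⟨x, hx, y', hy', by linarith⟩
    · rcases hy with hy | ⟨y', hy', rfl⟩
      · exact ⟨y, hy, x', hx', by linarith⟩
      · have h1 := hB x' hx'
        have h2 := hB y' hy'
        omega
  · rintro ⟨x, hx, y, hy, hxy⟩
    refine ⟨x, ?_, y + (2 * K + 1), ?_, by linarith⟩
    · simp only [join, mem_union]; exact Or.inl hx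
    · simp only [join, mem_union, mem_image]; exact Or.inr ⟨y, hy, rfl⟩

open Classical in
/-- A structure for one set gives a structure for two arrays. -/
noncomputable def toSum (K : ℕ) {s : ℕ} (D : SetDS s) : SumDS s 0 where
  cell c A B := D.cell c (join K A B)
  cell_mono c A A' B B' hA hB := D.cell_mono c (join_mono hA hB)
  free1 c := c.elim0
  free1_mono c := c.elim0
  free2 c := c.elim0
  free2_mono c := c.elim0
  reads z M := if 0 ≤ z ∧ z ≤ 2 * K then
    (D.reads (z + (2 * K + 1)) (fun c => M (Sum.inl c))).image Sum.inl else ∅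
  accept z M := (0 ≤ z ∧ z ≤ 2 * K) ∧ D.accept (z + (2 * K + 1)) (fun c => M (Sum.inl c))
  accept_mono z M M' hM h := ⟨h.1, D.accept_mono _ _ _ (fun c => hM (Sum.inl c)) h.2⟩
  accept_reads z M M' h := by
    by_cases hz : 0 ≤ z ∧ z ≤ 2 * K
    · rw [if_pos hz] at h
      simp only [hz, and_self, true_and]
      apply D.accept_reads
      intro c hc
      exact h _ (mem_image_of_mem _ hc)
    · simp only [hz, false_and]

theorem oneset_lower {n N s : ℕ} {δ t : ℝ} (hδ : 0 < δ) (hδ2 : δ ≤ 1 / 2) (ht : 1 ≤ t)
    (hnt : 1200 * t * Real.logb 2 (n / δ) ≤ δ * n) (hN : n ^ 2 ≤ N)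
    {Ω : Type} [Fintype Ω] (p : Ω → ℝ) (D : Ω → SetDS s) (hD : SetSolves n N p D δ t) :
    δ ^ 2 * (n : ℝ) ^ 2 ≤ 14400 * s * t * Real.logb 2 (n / δ) := by
  classical
  obtain ⟨hp, hp1, hsol⟩ := hD
  rcases Nat.eq_zero_or_pos n with hn0 | hn0
  · subst hn0; simp
  have hn1 : (1 : ℝ) ≤ n := by exact_mod_cast hn0
  have hlg1 : 1 ≤ Real.logb 2 (n / δ) := by
    rw [Real.le_logb_iff_rpow_le (by norm_num) (by positivity)]
    rw [Real.rpow_one, le_div_iff₀ hδ]
    nlinarith
  have hn2400 : (2400 : ℝ) ≤ n := by
    have h1 : (1200 : ℝ) ≤ 1200 * t * Real.logb 2 (n / δ) := by nlinarith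
    nlinarith
  set a : ℕ := n / 2 with ha
  have ha2 : 2 * a ≤ n := by omega
  have hn2400' : 2400 ≤ n := by exact_mod_cast hn2400
  have ha3 : n ≤ 3 * a := by omega
  have ha3' : (n : ℝ) ≤ 3 * a := by exact_mod_cast ha3
  have ha0 : (0 : ℝ) < a := by linarith
  have han : (a : ℝ) ≤ n := by exact_mod_cast (by omega : a ≤ n)
  have hlga : Real.logb 2 ((a + (0 : ℕ)) / δ) ≤ Real.logb 2 (n / δ) := by
    apply Real.logb_le_logb_of_le (by norm_num)
    · simp only [Nat.cast_zero, add_zero]; positivity
    · simp only [Nat.cast_zero, add_zero]; gcongr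
  set K : ℕ := a ^ 2 with hK
  have hsolve : SumSolves a K p (fun ϖ => toSum K (D ϖ)) δ t := by
    refine ⟨hp, hp1, ?_⟩
    intro A B hA hB hAK hBK z
    by_cases hz : 0 ≤ z ∧ z ≤ 2 * (K : ℤ)
    · have hcard : (join K A B).card ≤ n := by
        refine le_trans (card_union_le _ _) ?_
        have := card_image_le (s := B) (f := fun y : ℤ => y + (2 * K + 1))
        omega
      have hKN : 3 * (K : ℤ) + 1 ≤ N := by
        have h1 : 3 * K + 1 ≤ N := by
          refine le_trans ?_ hN
          rw [hK]
          nlinarith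
        exact_mod_cast h1
      have hrange : ∀ x ∈ join K A B, 0 ≤ x ∧ x ≤ (N : ℤ) := by
        intro x hx
        simp only [join, mem_union, mem_image] at hx
        rcases hx with hx | ⟨y, hy, rfl⟩
        · have := hAK x hx
          omega
        · have := hBK y hy
          omega
      have h1 := hsol (join K A B) hcard hrange (z + (2 * K + 1))
      rw [isSum_join hAK hBK hz] at h1
      constructor
      · refine le_trans h1.1 (le_of_eq ?_)
        apply sum_congr _ (fun _ _ => rfl)
        apply filter_congr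
        intro ϖ _
        have : (toSum K (D ϖ)).out A B z ↔ (D ϖ).out (join K A B) (z + (2 * K + 1)) := by
          unfold SumDS.out SetDS.out toSum
          simp only [hz, and_self, true_and]
          exact Iff.rfl
        rw [this]
      · intro hno
        refine le_trans (le_of_eq ?_) (h1.2 hno)
        apply sum_congr rfl
        intro ϖ _
        have : (toSum K (D ϖ)).cost A B z = (D ϖ).cost (join K A B) (z + (2 * K + 1)) := by
          unfold SumDS.cost SetDS.cost toSum
          simp only [hz, and_self, if_true]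
          rw [card_image_of_injective _ Sum.inl_injective]
          rfl
        rw [this]
    · have hno : ¬ IsSum A B z := by
        rintro ⟨x, hx, y, hy, hxy⟩
        have h1 := hAK x hx
        have h2 := hBK y hy
        omega
      constructor
      · have : (univ.filter fun ϖ => ((toSum K (D ϖ)).out A B z ↔ IsSum A B z)) = univ := by
          apply filter_true_of_mem
          intro ϖ _
          unfold SumDS.out toSum
          simp only [hz, false_and, hno]
        rw [this, hp1]; linarith
      · intro _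
        have : ∀ ϖ, (toSum K (D ϖ)).cost A B z = 0 := by
          intro ϖ
          unfold SumDS.cost toSum
          simp only [hz, if_false, card_empty]
        simp only [this, Nat.cast_zero, mul_zero, sum_const_zero]
        linarith
  have key := sum_lower (n := a) (N := K) (s := s) (r := 0) hδ hδ2 ht (by
    calc 400 * t * Real.logb 2 ((a + (0 : ℕ)) / δ) ≤ 400 * t * Real.logb 2 (n / δ) :=
          mul_le_mul_of_nonneg_left hlga (by positivity)
      _ ≤ δ * a := by nlinarith) le_rfl p _ hsolve
  have h2 : (n : ℝ) ^ 2 ≤ (3 * a) ^ 2 := pow_le_pow_left₀ (by positivity) ha3' 2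
  have h3 : (1600 : ℝ) * s * t * Real.logb 2 ((a + (0 : ℕ)) / δ)
      ≤ 1600 * s * t * Real.logb 2 (n / δ) := mul_le_mul_of_nonneg_left hlga (by positivity)
  have h4 : 0 ≤ δ ^ 2 := by positivity
  calc δ ^ 2 * (n : ℝ) ^ 2 ≤ δ ^ 2 * (3 * a) ^ 2 := mul_le_mul_of_nonneg_left h2 h4
    _ = 9 * (δ ^ 2 * (a : ℝ) ^ 2) := by ring
    _ ≤ 9 * (1600 * s * t * Real.logb 2 (n / δ)) := by linarith
    _ = 14400 * s * t * Real.logb 2 (n / δ) := by ring

end Pool.Agent.H525R4.Mono
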