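import Pool.Agent.H525R4.Mono.Hit

/-!
# 3SUM-Indexing for monotone data structures with adaptive queries
-/

open Finset

namespace Pool.Agent.H525R4.Mono

/-- The places of the memory: `s` cells and `r` free cells for each of the two arrays. -/
abbrev Place (s r : ℕ) : Type := Fin s ⊕ Fin r ⊕ Fin r

/-- A monotone data structure for 3SUM-Indexing with `s` cells and `2 r` free cells, for two arrays
`A`, `B` (finite sets of integers).  `cell c A B` is the real number in cell `c` after the
preprocessing, an arbitrary nondecreasing function of `(A, B)`; the free cells contain arbitrary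
nondecreasing functions of one array (`free1 c A` and `free2 c B`).  If the contents of the memory
are `M`, then the query `z` reads the places `reads z M` (they may depend on what was read before:
adaptive queries, even nondeterministic ones; the only condition is `accept_reads`, the answer is
determined by the contents of the places read) and answers that `z` is a sum iff `accept z M`, a
condition which is nondecreasing in the contents of the memory. -/
structure SumDS (s r : ℕ) where
  /-- the contents of the cells -/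
  cell : Fin s → Finset ℤ → Finset ℤ → ℝ
  cell_mono : ∀ c A A' B B', A ⊆ A' → B ⊆ B' → cell c A B ≤ cell c A' B'
  /-- the contents of the free cells of the first array -/
  free1 : Fin r → Finset ℤ → ℝ
  free1_mono : ∀ c A A', A ⊆ A' → free1 c A ≤ free1 c A'
  /-- the contents of the free cells of the second array -/
  free2 : Fin r → Finset ℤ → ℝ
  free2_mono : ∀ c B B', B ⊆ B' → free2 c B ≤ free2 c B'
  /-- the places read -/
  reads : ℤ → (Place s r → ℝ) → Finset (Place s r)
  /-- the answer is positive -/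
  accept : ℤ → (Place s r → ℝ) → Prop
  accept_mono : ∀ z M M', M ≤ M' → accept z M → accept z M'
  accept_reads : ∀ z M M', (∀ c ∈ reads z M, M' c = M c) → (accept z M' ↔ accept z M)

/-- The contents of the memory after the preprocessing of `A`, `B`. -/
def SumDS.mem {s r : ℕ} (D : SumDS s r) (A B : Finset ℤ) : Place s r → ℝ
  | .inl c => D.cell c A B
  | .inr (.inl c) => D.free1 c A
  | .inr (.inr c) => D.free2 c B

/-- The answer to the query `z` is positive. -/
def SumDS.out {s r : ℕ} (D : SumDS s r) (A B : Finset ℤ) (z : ℤ) : Prop := D.accept z (D.mem A B)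

/-- The number of places read for the query `z`. -/
def SumDS.cost {s r : ℕ} (D : SumDS s r) (A B : Finset ℤ) (z : ℤ) : ℕ :=
  (D.reads z (D.mem A B)).card

/-- The integer `z` is a sum of an element of `A` and an element of `B`. -/
def IsSum (A B : Finset ℤ) (z : ℤ) : Prop := ∃ x ∈ A, ∃ y ∈ B, x + y = z

open Classical in
/-- The random monotone data structure `D` (it is `D ϖ` with probability `p ϖ`) solves
3SUM-Indexing with advantage `δ` and `t` probes for arrays of at most `n` integers from `0, …, N`: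
every answer is correct with probability at least `1 / 2 + δ`, and if it is negative then the
expected number of places read is at most `t`. -/
def SumSolves (n N : ℕ) {s r : ℕ} {Ω : Type} [Fintype Ω] (p : Ω → ℝ) (D : Ω → SumDS s r)
    (δ t : ℝ) : Prop :=
  (∀ ϖ, 0 ≤ p ϖ) ∧ ∑ ϖ, p ϖ = 1 ∧
  ∀ A B : Finset ℤ, A.card ≤ n → B.card ≤ n → (∀ x ∈ A, 0 ≤ x ∧ x ≤ N) →
    (∀ y ∈ B, 0 ≤ y ∧ y ≤ N) → ∀ z : ℤ,
      1 / 2 + δ ≤ ∑ ϖ with ((D ϖ).out A B z ↔ IsSum A B z), p ϖ ∧
      (¬ IsSum A B z → ∑ ϖ, p ϖ * (D ϖ).cost A B z ≤ t)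

section Points

variable {k u : ℕ}

/-- The queries. -/
abbrev Qy (k u : ℕ) : Type := Fin k × Fin k × Fin u

/-- An element of the first universe. -/
def px (u : ℕ) (i e : ℕ) : ℤ := 4 * u * i + e

/-- An element of the second universe. -/
def py (k u : ℕ) (i f : ℕ) : ℤ := 4 * u * k * i + f

/-- The integer of the query. -/
def pz (q : Qy k u) : ℤ := 4 * u * (q.1.val + k * q.2.1.val) + (u + q.2.2.val) - 1

lemma decode {i i' j j' e f g : ℕ} (hi : i < k) (hi' : i' < k) (he : e + f < 4 * u) (hg : g < 4 * u)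
    (h : px u i e + py k u j f = 4 * u * (i' + k * j') + g) : i = i' ∧ j = j' ∧ e + f = g := by
  unfold px py at h
  have h1 : 4 * u * (i + k * j) + (e + f) = 4 * u * (i' + k * j') + g := by
    zify
    linarith
  have hu : 0 < 4 * u := by omega
  have h2 : e + f = g := by
    have := congrArg (· % (4 * u)) h1
    simp only [Nat.mul_add_mod] at this
    rwa [Nat.mod_eq_of_lt he, Nat.mod_eq_of_lt hg] at this
  have h3 : i + k * j = i' + k * j' := by
    have h4 : 4 * u * (i + k * j) = 4 * u * (i' + k * j') := by omega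
    exact Nat.eq_of_mul_eq_mul_left hu h4
  have h5 : i = i' := by
    have := congrArg (· % k) h3
    simp only [Nat.add_mul_mod_self_left] at this
    rwa [Nat.mod_eq_of_lt hi, Nat.mod_eq_of_lt hi'] at this
  refine ⟨h5, ?_, h2⟩
  subst h5
  have h6 : k * j = k * j' := by omega
  exact Nat.eq_of_mul_eq_mul_left (by omega) h6

/-- The index of the label of an element. -/
def la (e : Fin u) : Fin (3 * u) := ⟨e + u, by omega⟩

/-- The index of the label of the partner of the element `e` of the query with shift `l'`, for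
the query with shift `l`. -/
def lb (l l' e : Fin u) : Fin (3 * u) := ⟨e + u + l - l', by omega⟩

/-- The arrays of the true input. -/
def sone (q : Qy k u) (e : Fin u) : Finset ℤ × Finset ℤ :=
  ({px u q.1 e}, {py k u q.2.1 (u + q.2.2 - 1 - e)})

/-- The arrays of the false input. -/
noncomputable def szero (q : Qy k u) (ω : Fin (3 * u) → Bool) : Finset ℤ × Finset ℤ :=
  ((univ.filter fun a : Fin k × Fin u => ¬ (a.1 = q.1 ∧ ω (la a.2) = true)).image
      fun a => px u a.1 a.2,
    (univ.filter fun a : Fin k × Fin (2 * u) =>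
      ¬ (a.1 = q.2.1 ∧ ω ⟨2 * u + q.2.2 - 1 - a.2, by omega⟩ = false)).image
      fun a => py k u a.1 a.2)

/-- The good pairs. -/
def sal (q q' : Qy k u) (e : Fin u) (ω : Fin (3 * u) → Bool) : Prop :=
  ¬ (q'.1 = q.1 ∧ ω (la e) = true) ∧ ¬ (q'.2.1 = q.2.1 ∧ ω (lb q.2.2 q'.2.2 e) = false)

lemma sone_le_szero (q : Qy k u) (ω : Fin (3 * u) → Bool) (q' : Qy k u) (e : Fin u)
    (h : sal q q' e ω) : sone q' e ≤ szero q ω := by
  classical
  obtain ⟨h1, h2⟩ := h
  have he := e.isLt
  have hl := q'.2.2.isLt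
  constructor
  · intro x hx
    simp only [sone, mem_singleton] at hx
    simp only [szero, mem_image, mem_filter, mem_univ, true_and]
    exact ⟨(q'.1, e), h1, hx.symm⟩
  · intro x hx
    simp only [sone, mem_singleton] at hx
    simp only [szero, mem_image, mem_filter, mem_univ, true_and]
    refine ⟨(q'.2.1, ⟨u + q'.2.2 - 1 - e, by omega⟩), ?_, hx.symm⟩
    intro h3
    apply h2
    refine ⟨h3.1, ?_⟩
    have h4 : (⟨2 * u + q.2.2 - 1 - (u + q'.2.2 - 1 - e), by omega⟩ : Fin (3 * u))
        = lb q.2.2 q'.2.2 e := by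
      unfold lb
      rw [Fin.mk.injEq]
      omega
    rw [← h4]
    exact h3.2

lemma isSum_sone (q : Qy k u) (e : Fin u) : IsSum (sone q e).1 (sone q e).2 (pz q) := by
  have he := e.isLt
  have hl := q.2.2.isLt
  refine ⟨_, mem_singleton_self _, _, mem_singleton_self _, ?_⟩
  unfold px py pz
  have : ((u + q.2.2.val - 1 - e.val : ℕ) : ℤ) = (u : ℤ) + q.2.2.val - 1 - e.val := by omega
  rw [this]
  ring

lemma not_isSum_szero (q : Qy k u) (ω : Fin (3 * u) → Bool) :
    ¬ IsSum (szero q ω).1 (szero q ω).2 (pz q) := by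
  classical
  rintro ⟨x, hx, y, hy, hxy⟩
  simp only [szero, mem_image, mem_filter, mem_univ, true_and] at hx hy
  obtain ⟨⟨i, e⟩, h1, rfl⟩ := hx
  obtain ⟨⟨j, f⟩, h2, rfl⟩ := hy
  simp only at h1 h2 hxy
  have he := e.isLt
  have hf := f.isLt
  have hl := q.2.2.isLt
  have h3 : px u i e + py k u j f
      = 4 * u * ((q.1.val : ℕ) + k * (q.2.1.val : ℕ)) + ((u + q.2.2.val - 1 : ℕ) : ℤ) := by
    rw [hxy]
    unfold pz
    have : ((u + q.2.2.val - 1 : ℕ) : ℤ) = (u : ℤ) + q.2.2.val - 1 := by omega
    rw [this]; ring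
  obtain ⟨h4, h5, h6⟩ := decode (k := k) (u := u) i.isLt q.1.isLt (by omega) (by omega) h3
  have h7 : i = q.1 := Fin.ext h4
  have h8 : j = q.2.1 := Fin.ext h5
  have h9 : (⟨2 * u + q.2.2 - 1 - f, by omega⟩ : Fin (3 * u)) = la e := by
    unfold la
    rw [Fin.mk.injEq]
    omega
  rw [h9] at h2
  cases hω : ω (la e) with
  | true => exact h1 ⟨h7, hω⟩
  | false => exact h2 ⟨h8, hω⟩

lemma card_szero (q : Qy k u) (ω : Fin (3 * u) → Bool) :
    (szero q ω).1.card ≤ 2 * k * u ∧ (szero q ω).2.card ≤ 2 * k * u := by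
  classical
  constructor
  · refine le_trans card_image_le (le_trans (card_filter_le _ _) ?_)
    rw [card_univ, Fintype.card_prod, Fintype.card_fin, Fintype.card_fin]
    nlinarith [Nat.zero_le (k * u)]
  · refine le_trans card_image_le (le_trans (card_filter_le _ _) ?_)
    rw [card_univ, Fintype.card_prod, Fintype.card_fin, Fintype.card_fin]
    apply le_of_eq; ring

lemma px_bound {i e : ℕ} (hi : i < k) (he : e < u) : 0 ≤ px u i e ∧ px u i e ≤ 4 * u * k := by
  unfold px
  constructor
  · positivity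
  · have h1 : (i : ℤ) + 1 ≤ k := by exact_mod_cast hi
    have h2 : (e : ℤ) ≤ u := by exact_mod_cast he.le
    have h3 : (0 : ℤ) ≤ u := by positivity
    nlinarith

lemma py_bound {i f : ℕ} (hi : i < k) (hf : f < 2 * u) :
    0 ≤ py k u i f ∧ py k u i f ≤ 4 * u * k * k := by
  unfold py
  have hk : 1 ≤ k := by omega
  constructor
  · positivity
  · have h1 : (i : ℤ) + 1 ≤ k := by exact_mod_cast hi
    have h2 : (f : ℤ) ≤ 2 * u := by exact_mod_cast hf.le
    have h3 : (0 : ℤ) ≤ u := by positivity
    have h4 : (1 : ℤ) ≤ k := by exact_mod_cast hk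
    have h5 : (0 : ℤ) ≤ u * k := by positivity
    nlinarith

/-- The hitting property. -/
lemma sal_hit {L0 : ℕ} (hL0 : 1 ≤ L0) (q q' : Qy k u) (hq : q ≠ q') (D : Finset (Fin u))
    (hD : 6 * L0 ≤ D.card) (B : Finset (Fin (3 * u) → Bool))
    (hB : ∀ ω ∈ B, ∀ e ∈ D, ¬ sal q q' e ω) :
    (B.card : ℝ) ≤ (1 / 2 : ℝ) ^ L0 * Fintype.card (Fin (3 * u) → Bool) := by
  classical
  have hla : Function.Injective (la (u := u)) := by
    intro a b h
    unfold la at h
    rw [Fin.mk.injEq] at h
    exact Fin.ext (by omega)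
  have hlb : ∀ l l' : Fin u, Function.Injective (lb (u := u) l l') := by
    intro l l' a b h
    unfold lb at h
    rw [Fin.mk.injEq] at h
    exact Fin.ext (by omega)
  have hhalf : (1 / 2 : ℝ) ^ D.card ≤ (1 / 2 : ℝ) ^ L0 :=
    pow_le_pow_of_le_one (by norm_num) (by norm_num) (by omega)
  have hcB : (0 : ℝ) ≤ Fintype.card (Fin (3 * u) → Bool) := by positivity
  by_cases h1 : q'.1 = q.1
  · by_cases h2 : q'.2.1 = q.2.1
    · -- the same blocks, different shifts
      have h3 : q.2.2 ≠ q'.2.2 := by
        intro h3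
        apply hq
        ext
        · rw [h1]
        · rw [h2]
        · rw [h3]
      have h3' : (q.2.2 : ℕ) ≠ q'.2.2 := fun h => h3 (Fin.ext h)
      obtain ⟨d, hd, hdd⟩ : ∃ d : ℕ, 0 < d ∧ ((q.2.2 : ℕ) = q'.2.2 + d ∨ (q'.2.2 : ℕ) = q.2.2 + d) := by
        rcases lt_or_gt_of_ne h3' with h | h
        · exact ⟨q'.2.2 - q.2.2, by omega, Or.inr (by omega)⟩
        · exact ⟨q.2.2 - q'.2.2, by omega, Or.inl (by omega)⟩
      obtain ⟨D', hD'D, hD'card, hD'⟩ := exists_half D hd
      have h4 := hit_pair' (la (u := u)) (lb q.2.2 q'.2.2) D' (hla.injOn)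
        ((hlb _ _).injOn) (by
          intro e he e' he' heq
          unfold la lb at heq
          rw [Fin.mk.injEq] at heq
          rcases hdd with h | h
          · exact hD' e he e' he' (by omega)
          · exact hD' e' he' e he (by omega)) B (by
          intro ω hω e he
          have := hB ω hω e (hD'D he)
          unfold sal at this
          by_contra hcon
          push Not at hcon
          apply this
          exact ⟨fun h => hcon.1 h.2, fun h => hcon.2 h.2⟩)
      refine le_trans h4 (mul_le_mul_of_nonneg_right ?_ hcB)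
      calc (3 / 4 : ℝ) ^ D'.card ≤ (3 / 4 : ℝ) ^ (3 * L0) :=
            pow_le_pow_of_le_one (by norm_num) (by norm_num) (by omega)
        _ = ((3 / 4 : ℝ) ^ 3) ^ L0 := by rw [pow_mul]
        _ ≤ (1 / 2 : ℝ) ^ L0 := pow_le_pow_left₀ (by norm_num) (by norm_num) L0
    · have h4 := hit_single D (la (u := u)) hla.injOn true B (by
        intro ω hω e he
        have := hB ω hω e he
        unfold sal at this
        by_contra hcon
        apply this
        exact ⟨fun h => hcon h.2, fun h => h2 h.1⟩)
      exact le_trans h4 (mul_le_mul_of_nonneg_right hhalf hcB)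
  · by_cases h2 : q'.2.1 = q.2.1
    · have h4 := hit_single D (lb q.2.2 q'.2.2) (hlb _ _).injOn false B (by
        intro ω hω e he
        have := hB ω hω e he
        unfold sal at this
        by_contra hcon
        apply this
        exact ⟨fun h => h1 h.1, fun h => hcon h.2⟩)
      exact le_trans h4 (mul_le_mul_of_nonneg_right hhalf hcB)
    · have hBe : B = ∅ := by
        rw [eq_empty_iff_forall_notMem]
        intro ω hω
        obtain ⟨e, he⟩ : D.Nonempty := by
          rw [← card_pos]; omega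
        apply hB ω hω e he
        exact ⟨fun h => h1 h.1, fun h => h2 h.1⟩
      rw [hBe, card_empty, Nat.cast_zero]
      positivity

end Points

open Classical in
/-- The inequality for 3SUM-Indexing. -/
theorem sum_core {k u n N s r : ℕ} (hk : 2 ≤ k) (hu : 0 < u) (hn : 2 * k * u ≤ n)
    (hN : 4 * u * k * k ≤ N) {Ω : Type} [Fintype Ω] (p : Ω → ℝ) (D : Ω → SumDS s r) {δ t : ℝ}
    (hD : SumSolves n N p D δ t) {L0 : ℕ} (hL0 : 1 ≤ L0) :
    (k : ℝ) ^ 2 * u * (2 * δ * u - (6 * L0 : ℕ) * t - u * (s + 2 * r) * (1 / 2 : ℝ) ^ L0)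
      ≤ u * s := by
  obtain ⟨hp, hp1, hsol⟩ := hD
  haveI : NeZero k := ⟨by omega⟩
  haveI : NeZero u := ⟨by omega⟩
  have hkpos : 1 ≤ k := by omega
  have hN2 : 4 * u * k ≤ N := by
    refine le_trans ?_ hN
    exact Nat.le_mul_of_pos_right _ (by omega)
  have hbx : ∀ i e : ℕ, i < k → e < u → (0 : ℤ) ≤ px u i e ∧ px u i e ≤ N := by
    intro i e hi he
    obtain ⟨h1, h2⟩ := px_bound (k := k) hi he
    refine ⟨h1, le_trans h2 ?_⟩
    exact_mod_cast hN2
  have hby : ∀ i f : ℕ, i < k → f < 2 * u → (0 : ℤ) ≤ py k u i f ∧ py k u i f ≤ N := by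
    intro i e hi he
    obtain ⟨h1, h2⟩ := py_bound (k := k) hi he
    refine ⟨h1, le_trans h2 ?_⟩
    exact_mod_cast hN
  have h1le : 1 ≤ n := by
    refine le_trans ?_ hn
    have : 0 < 2 * k * u := by positivity
    omega
  have hone : ∀ (q : Qy k u) (e : Fin u), _ := fun q e => hsol (sone q e).1 (sone q e).2
    (by simp only [sone, card_singleton]; exact h1le)
    (by simp only [sone, card_singleton]; exact h1le)
    (by
      intro x hx
      simp only [sone, mem_singleton] at hx
      rw [hx]; exact hbx _ _ q.1.isLt e.isLt)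
    (by
      intro x hx
      simp only [sone, mem_singleton] at hx
      rw [hx]
      exact hby _ _ q.2.1.isLt (by have := q.2.2.isLt; omega)) (pz q)
  have hzero : ∀ (q : Qy k u) (ω : Fin (3 * u) → Bool), _ := fun q ω =>
    hsol (szero q ω).1 (szero q ω).2
    (le_trans (card_szero q ω).1 hn) (le_trans (card_szero q ω).2 hn)
    (by
      intro x hx
      simp only [szero, mem_image, mem_filter, mem_univ, true_and] at hx
      obtain ⟨a, _, rfl⟩ := hx
      exact hbx _ _ a.1.isLt a.2.isLt)
    (by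
      intro x hx
      simp only [szero, mem_image, mem_filter, mem_univ, true_and] at hx
      obtain ⟨a, _, rfl⟩ := hx
      exact hby _ _ a.1.isLt a.2.isLt) (pz q)
  let G : Finset (Place s r) := univ.image (Sum.inl : Fin s → Place s r)
  have hG : G.card = s := by
    simp only [G]
    rw [card_image_of_injective _ Sum.inl_injective, card_univ, Fintype.card_fin]
  have key := abs_decide (X := Finset ℤ × Finset ℤ) (C := Place s r) (Q := Qy k u) (E := Fin u)
    (Om := Fin (3 * u) → Bool) (Ω := Ω) sone szero sal p hp hp1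
    (fun ϖ c x => (D ϖ).mem x.1 x.2 c)
    (fun ϖ c x x' hx => by
      rcases c with c | c | c
      · exact (D ϖ).cell_mono c _ _ _ _ hx.1 hx.2
      · exact (D ϖ).free1_mono c _ _ hx.1
      · exact (D ϖ).free2_mono c _ _ hx.2)
    (fun ϖ q M => (D ϖ).reads (pz q) M)
    (fun ϖ q M => (D ϖ).accept (pz q) M)
    (fun ϖ q M M' h1 h2 => (D ϖ).accept_mono _ M M' h1 h2)
    (fun ϖ q M M' h1 h2 => ((D ϖ).accept_reads _ M M' h1).mp h2)
    (fun q ω q' e h => sone_le_szero q ω q' e h) (δ := δ)
    (fun q e => by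
      refine ⟨_, fun ϖ hϖ => ?_, (hone q e).1⟩
      rw [mem_filter] at hϖ
      exact hϖ.2.mpr (isSum_sone q e))
    (fun q ω => by
      refine ⟨_, fun ϖ hϖ => ?_, (hzero q ω).1⟩
      rw [mem_filter] at hϖ
      exact fun h => not_isSum_szero q ω (hϖ.2.mp h))
    (t := t)
    (fun q ω => (hzero q ω).2 (not_isSum_szero q ω))
    (L := 6 * L0) (by omega) (ε := (1 / 2 : ℝ) ^ L0) (by positivity)
    (fun q q' hq D hD B hB => sal_hit hL0 q q' hq D hD B hB) G
    (fun ϖ c hc q => by
      rcases c with c | c | c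
      · exact absurd (mem_image_of_mem _ (mem_univ c)) hc
      · -- a function of the first array: change the second block
        obtain ⟨j, hj⟩ : ∃ j : Fin k, j ≠ q.2.1 := by
          by_cases h0 : q.2.1 = ⟨0, by omega⟩
          · exact ⟨⟨1, by omega⟩, by rw [h0]; intro h; rw [Fin.mk.injEq] at h; omega⟩
          · exact ⟨⟨0, by omega⟩, fun h => h0 h.symm⟩
        refine ⟨(q.1, j, q.2.2), fun h => hj ?_, fun e => le_of_eq rfl⟩
        rw [h]
      · obtain ⟨j, hj⟩ : ∃ j : Fin k, j ≠ q.1 := by
          by_cases h0 : q.1 = ⟨0, by omega⟩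
          · exact ⟨⟨1, by omega⟩, by rw [h0]; intro h; rw [Fin.mk.injEq] at h; omega⟩
          · exact ⟨⟨0, by omega⟩, fun h => h0 h.symm⟩
        refine ⟨(j, q.2.1, q.2.2), fun h => hj ?_, fun e => le_of_eq rfl⟩
        rw [h])
  rw [hG] at key
  simp only [Fintype.card_prod, Fintype.card_sum, Fintype.card_fin] at key
  push_cast at key ⊢
  calc (k : ℝ) ^ 2 * u * (2 * δ * u - 6 * L0 * t - u * (s + 2 * r) * (1 / 2 : ℝ) ^ L0)
      = k * (k * u) * (2 * δ * u - 6 * L0 * t - u * (s + (r + r)) * (1 / 2 : ℝ) ^ L0) := by ring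
    _ ≤ u * s := key

end Pool.Agent.H525R4.Mono
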