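import Pool.Agent.H525R4.Mono.Sum

/-!
# 3SUM-Indexing for monotone data structures with adaptive queries: the lower bound
-/

open Finset

namespace Pool.Agent.H525R4.Mono

theorem sum_lower {n N s r : ℕ} {δ t : ℝ} (hδ : 0 < δ) (hδ2 : δ ≤ 1 / 2) (ht : 1 ≤ t)
    (hnt : 400 * t * Real.logb 2 ((n + r) / δ) ≤ δ * n) (hN : n ^ 2 ≤ N)
    {Ω : Type} [Fintype Ω] (p : Ω → ℝ) (D : Ω → SumDS s r) (hD : SumSolves n N p D δ t) :
    δ ^ 2 * (n : ℝ) ^ 2 ≤ 1600 * s * t * Real.logb 2 ((n + r) / δ) := by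
  rcases Nat.eq_zero_or_pos n with hn0 | hn0
  · subst hn0
    have h0 : 0 ≤ Real.logb 2 (((0 : ℕ) + (r : ℝ)) / δ) := by
      rcases Nat.eq_zero_or_pos r with hr | hr
      · subst hr; simp
      · apply Real.logb_nonneg (by norm_num)
        rw [le_div_iff₀ hδ]
        have : (1 : ℝ) ≤ r := by exact_mod_cast hr
        simp only [Nat.cast_zero, zero_add]
        linarith
    have : (0 : ℝ) ≤ 1600 * s * t * Real.logb 2 (((0 : ℕ) + (r : ℝ)) / δ) := by positivity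
    simpa using this
  set lg := Real.logb 2 ((n + r) / δ) with hlgdef
  have hn1 : (1 : ℝ) ≤ n := by exact_mod_cast hn0
  have hr0 : (0 : ℝ) ≤ r := by positivity
  have hlg1 : 1 ≤ lg := by
    rw [hlgdef, Real.le_logb_iff_rpow_le (by norm_num) (by positivity)]
    rw [Real.rpow_one, le_div_iff₀ hδ]
    nlinarith
  have hn800 : (800 : ℝ) ≤ n := by
    have h1 : (400 : ℝ) ≤ 400 * t * lg := by nlinarith
    nlinarith
  have hbig : (4 : ℝ) ≤ (n + r) / δ := by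
    rw [le_div_iff₀ hδ]; nlinarith
  have hlg : 2 ≤ lg := by
    rw [hlgdef, Real.le_logb_iff_rpow_le (by norm_num) (by positivity)]
    norm_num
    exact hbig
  have hpos : 0 < 8 * ((n : ℝ) ^ 2 + 2 * r) / δ := by positivity
  have h1 : Real.logb 2 (8 * ((n : ℝ) ^ 2 + 2 * r) / δ) ≤ 3 + 2 * lg := by
    have h2 : 8 * ((n : ℝ) ^ 2 + 2 * r) / δ ≤ 8 * (((n : ℝ) + r) / δ) ^ 2 := by
      rw [div_pow, mul_div_assoc]
      apply mul_le_mul_of_nonneg_left _ (by norm_num)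
      have h3 : (n : ℝ) ^ 2 + 2 * r ≤ (n + r) ^ 2 := by nlinarith
      have h4 : δ ^ 2 ≤ δ := by nlinarith
      calc ((n : ℝ) ^ 2 + 2 * r) / δ ≤ (n + r) ^ 2 / δ := by gcongr
        _ ≤ (n + r) ^ 2 / δ ^ 2 := by
            apply div_le_div_of_nonneg_left (by positivity) (by positivity) h4
    calc Real.logb 2 (8 * ((n : ℝ) ^ 2 + 2 * r) / δ) ≤ Real.logb 2 (8 * (((n : ℝ) + r) / δ) ^ 2) :=
          Real.logb_le_logb_of_le (by norm_num) hpos h2
      _ = 3 + 2 * lg := by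
          rw [Real.logb_mul (by norm_num) (by positivity), Real.logb_pow]
          have : Real.logb 2 8 = 3 := by
            rw [show (8 : ℝ) = 2 ^ (3 : ℝ) by norm_num, Real.logb_rpow (by norm_num) (by norm_num)]
          rw [this]; norm_num [hlgdef]
  obtain ⟨L, hL1, hL2, hL3⟩ : ∃ L : ℕ, 1 ≤ L ∧ 8 * ((n : ℝ) ^ 2 + 2 * r) / δ ≤ 2 ^ L ∧
      (L : ℝ) ≤ 4 * lg := by
    refine ⟨⌈Real.logb 2 (8 * ((n : ℝ) ^ 2 + 2 * r) / δ)⌉₊, ?_, ?_, ?_⟩
    · rw [Nat.one_le_ceil_iff]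
      apply Real.logb_pos (by norm_num)
      rw [lt_div_iff₀ hδ]; nlinarith
    · have h3 : Real.logb 2 (8 * ((n : ℝ) ^ 2 + 2 * r) / δ)
          ≤ (⌈Real.logb 2 (8 * ((n : ℝ) ^ 2 + 2 * r) / δ)⌉₊ : ℝ) := Nat.le_ceil _
      rw [Real.logb_le_iff_le_rpow (by norm_num) hpos, Real.rpow_natCast] at h3
      exact h3
    · have h4 : (⌈Real.logb 2 (8 * ((n : ℝ) ^ 2 + 2 * r) / δ)⌉₊ : ℝ)
          < Real.logb 2 (8 * ((n : ℝ) ^ 2 + 2 * r) / δ) + 1 := by
        apply Nat.ceil_lt_add_one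
        apply Real.logb_nonneg (by norm_num)
        rw [le_div_iff₀ hδ]; nlinarith
      linarith
  have hLr : (1 : ℝ) ≤ L := by exact_mod_cast hL1
  set u : ℕ := ⌈24 * L * t / δ⌉₊ with hu
  have hu1 : 24 * L * t / δ ≤ u := Nat.le_ceil _
  have hLt : (1 : ℝ) ≤ L * t := by nlinarith
  have hu2 : (u : ℝ) ≤ 25 * L * t / δ := by
    have h2 : (u : ℝ) < 24 * L * t / δ + 1 := Nat.ceil_lt_add_one (by positivity)
    have h3 : 25 * L * t / δ = 24 * L * t / δ + L * t / δ := by ring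
    have h4 : 1 ≤ L * t / δ := by rw [le_div_iff₀ hδ]; nlinarith
    linarith
  have hupos : (0 : ℝ) < u := lt_of_lt_of_le (by positivity) hu1
  have hu0 : 0 < u := by exact_mod_cast hupos
  have h4u : 4 * u ≤ n := by
    have h2 : (4 * u : ℝ) ≤ n := by
      have h3 : 4 * (25 * L * t / δ) = 100 * L * t / δ := by ring
      have h4 : 100 * L * t / δ ≤ n := by
        rw [div_le_iff₀ hδ]
        have h5 : 100 * (L : ℝ) * t ≤ 400 * t * lg := by nlinarith
        linarith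
      linarith
    exact_mod_cast h2
  set k : ℕ := n / (2 * u) with hk
  have hk2 : 2 ≤ k := by
    rw [hk, Nat.le_div_iff_mul_le (by omega)]
    omega
  have hku : 2 * k * u ≤ n := by
    have := Nat.div_mul_le_self n (2 * u)
    calc 2 * k * u = k * (2 * u) := by ring
      _ ≤ n := this
  have hn4 : (n : ℝ) ≤ 4 * u * k := by
    have h2 : n < 2 * u * (k + 1) := Nat.lt_mul_div_succ n (by omega)
    have h3 : 2 * u * (k + 1) ≤ 4 * u * k := by nlinarith
    exact_mod_cast (by omega : n ≤ 4 * u * k)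
  have hNk : 4 * u * k * k ≤ N := by
    refine le_trans ?_ hN
    have h2 : 2 * k ≤ n := by nlinarith
    calc 4 * u * k * k = (2 * k * u) * (2 * k) := by ring
      _ ≤ n * n := Nat.mul_le_mul hku h2
      _ = n ^ 2 := by ring
  by_cases hs : (s : ℝ) ≤ (n : ℝ) ^ 2
  · have key := sum_core hk2 hu0 hku hNk p D hD hL1
    have e1 : ((6 * L : ℕ) : ℝ) * t ≤ δ * u / 4 := by
      push_cast
      rw [div_le_iff₀ hδ] at hu1
      linarith
    have e2 : (u : ℝ) * (s + 2 * r) * (1 / 2 : ℝ) ^ L ≤ δ * u / 8 := by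
      have h0 : (1 / 2 : ℝ) ^ L = 1 / 2 ^ L := by rw [one_div_pow]
      have h2L : (0 : ℝ) < 2 ^ L := by positivity
      rw [div_le_iff₀ hδ] at hL2
      rw [h0, mul_one_div, div_le_iff₀ h2L]
      have h3 : 8 * ((s : ℝ) + 2 * r) ≤ 2 ^ L * δ := by linarith
      nlinarith [mul_le_mul_of_nonneg_left h3 hupos.le]
    have hbr : δ * u ≤ 2 * δ * u - (6 * L : ℕ) * t - u * (s + 2 * r) * (1 / 2 : ℝ) ^ L := by
      have : 0 < δ * u := by positivity
      linarith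
    have h5 : (k : ℝ) ^ 2 * u * (δ * u) ≤ u * s :=
      le_trans (mul_le_mul_of_nonneg_left hbr (by positivity)) key
    have h6 : (k : ℝ) ^ 2 * u * δ ≤ s := by
      have : (u : ℝ) * ((k : ℝ) ^ 2 * u * δ) ≤ u * s := by linarith
      exact le_of_mul_le_mul_left this hupos
    have h7 : (n : ℝ) ^ 2 ≤ (4 * u * k) ^ 2 := pow_le_pow_left₀ (by positivity) hn4 2
    have h8 : δ * (n : ℝ) ^ 2 ≤ 16 * u * s := by
      calc δ * (n : ℝ) ^ 2 ≤ δ * (4 * u * k) ^ 2 := mul_le_mul_of_nonneg_left h7 hδ.le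
        _ = 16 * u * ((k : ℝ) ^ 2 * u * δ) := by ring
        _ ≤ 16 * u * s := mul_le_mul_of_nonneg_left h6 (by positivity)
    have h9 : 16 * (u : ℝ) * s ≤ 16 * (25 * L * t / δ) * s := by gcongr
    have h10 : 16 * (25 * (L : ℝ) * t / δ) * s = 400 * L * t * s / δ := by ring
    rw [h10] at h9
    have h11 := le_trans h8 h9
    rw [le_div_iff₀ hδ] at h11
    have h12 : 400 * (L : ℝ) * t * s ≤ 1600 * s * t * lg := by
      have h13 : (0 : ℝ) ≤ 400 * t * s := by positivity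
      nlinarith [mul_le_mul_of_nonneg_left hL3 h13]
    calc δ ^ 2 * (n : ℝ) ^ 2 = δ * (n : ℝ) ^ 2 * δ := by ring
      _ ≤ 400 * L * t * s := h11
      _ ≤ 1600 * s * t * lg := h12
  · push Not at hs
    have h2 : δ ^ 2 ≤ 1 := pow_le_one₀ hδ.le (by linarith)
    have h3 : (1 : ℝ) ≤ 1600 * t * lg := by nlinarith
    have h4 : (0 : ℝ) ≤ s := by positivity
    nlinarith [mul_le_mul_of_nonneg_right h2 (by positivity : (0 : ℝ) ≤ (n : ℝ) ^ 2),
      mul_le_mul_of_nonneg_right h3 h4]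

end Pool.Agent.H525R4.Mono
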